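import Pool.Agent.Work.MP_a793bb_nt.AsyQ.Defs

/-!
# Alg: elementary facts on `rd`, `qq`, `sf`, `QQ`  (size M)

PROOF. Everything is checked on factorizations. `n = ∏ p ^ v_p(n)` over `n.primeFactors`
(`Nat.factorization_prod_pow_eq_self`), and `v_p ≥ 1` there, so `rd n * qq n = n`.
`(qq n).factorization p = v_p(n) - 1` (natural subtraction, `0` if `p ∤ n`), which gives
`qq_dvd` (via `Nat.factorization_le_iff_dvd`) and `qq_mul` (for coprime arguments the prime factors
are disjoint: `Nat.Coprime.primeFactors_mul` ..., or compare factorizations).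
`sf n` is the product of the full prime powers `p ^ v_p(n)` over the primes with `p ^ 2 ∣ n`.
`qq_gcd_QQ`: let `p` be prime. If `p ^ 2 ∣ n` then `p ^ v_p(n) ∣ sf n`, so `p ^ v_p(n) ≤ k`, hence
`p ≤ k` and `v_p(n) ≤ k` (`n < 2 ^ n ≤ p ^ n`), and `v_p(gcd(n, QQ k)) = min (v_p(n), k + 1) = v_p(n)`.
If `v_p(n) ≤ 1` then `v_p(gcd) ≤ 1` and both exponents of `qq` are `0`. (`primorial k` is the product
of the primes `≤ k`, its factorization at a prime `p` is `1` if `p ≤ k` and `0` otherwise.)
-/

set_option autoImplicit false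

namespace AbcAsyQ

private theorem fact_prod (S : Finset ℕ) (hS : ∀ p ∈ S, p.Prime) (g : ℕ → ℕ) (q : ℕ) :
    (∏ p ∈ S, p ^ g p).factorization q = if q ∈ S then g q else 0 := by
  classical
  induction S using Finset.induction_on with
  | empty => simp
  | insert a S ha ih =>
    have hap := hS a (Finset.mem_insert_self a S)
    have hS' : ∀ p ∈ S, p.Prime := fun p hp => hS p (Finset.mem_insert_of_mem hp)
    rw [Finset.prod_insert ha, Nat.factorization_mul (pow_ne_zero _ hap.ne_zero)
      (Finset.prod_ne_zero_iff.2 fun p hp => pow_ne_zero _ (hS' p hp).ne_zero), Finsupp.add_apply,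
      ih hS', Nat.factorization_pow, Finsupp.smul_apply, hap.factorization, smul_eq_mul]
    by_cases h : q = a
    · subst h
      simp [ha]
    · rw [Finsupp.single_eq_of_ne h, mul_zero, zero_add]
      by_cases h2 : q ∈ S
      · rw [if_pos h2, if_pos (Finset.mem_insert_of_mem h2)]
      · rw [if_neg h2, if_neg]
        rw [Finset.mem_insert]
        rintro (h3 | h3)
        · exact h h3
        · exact h2 h3

theorem rd_pos (n : ℕ) : 0 < rd n :=
  Finset.prod_pos fun _ hp => (Nat.prime_of_mem_primeFactors hp).pos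

theorem qq_pos (n : ℕ) : 0 < qq n :=
  Finset.prod_pos fun _ hp => pow_pos (Nat.prime_of_mem_primeFactors hp).pos _

private theorem fact_qq (n q : ℕ) : (qq n).factorization q = n.factorization q - 1 := by
  unfold qq
  rw [fact_prod _ (fun p hp => Nat.prime_of_mem_primeFactors hp)]
  split_ifs with h
  · rfl
  · rw [← Nat.support_factorization, Finsupp.notMem_support_iff] at h
    omega

theorem rd_mul_qq {n : ℕ} (hn : n ≠ 0) : rd n * qq n = n := by
  unfold rd qq
  rw [← Finset.prod_mul_distrib]
  conv_rhs => rw [← Nat.prod_factorization_pow_eq_self hn]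
  rw [Finsupp.prod, Nat.support_factorization]
  refine Finset.prod_congr rfl fun p hp => ?_
  have h1 : 1 ≤ n.factorization p := by
    have := Nat.Prime.factorization_pos_of_dvd (Nat.prime_of_mem_primeFactors hp) hn
      (Nat.dvd_of_mem_primeFactors hp)
    omega
  rw [← pow_succ', Nat.sub_add_cancel h1]

theorem qq_le {n : ℕ} (hn : n ≠ 0) : qq n ≤ n := by
  refine Nat.le_of_dvd (Nat.pos_of_ne_zero hn) ⟨rd n, ?_⟩
  rw [mul_comm]
  exact (rd_mul_qq hn).symm

theorem qq_dvd {m n : ℕ} (hn : n ≠ 0) (h : m ∣ n) : qq m ∣ qq n := by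
  have hm : m ≠ 0 := by
    rintro rfl
    exact hn (zero_dvd_iff.1 h)
  rw [← Nat.factorization_le_iff_dvd (qq_pos m).ne' (qq_pos n).ne']
  intro q
  rw [fact_qq, fact_qq]
  have := (Nat.factorization_le_iff_dvd hm hn).2 h q
  omega

theorem qq_mul {m n : ℕ} (h : Nat.Coprime m n) : qq (m * n) = qq m * qq n := by
  have h0 : qq 0 = 1 := by simp [qq]
  have h1 : qq 1 = 1 := by simp [qq]
  rcases Nat.eq_zero_or_pos m with hm | hm
  · subst hm
    have : n = 1 := by simpa using h
    subst this
    rw [h1]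
    simp [h0]
  rcases Nat.eq_zero_or_pos n with hn | hn
  · subst hn
    have : m = 1 := by simpa using h
    subst this
    rw [h1]
    simp [h0]
  refine Nat.eq_of_factorization_eq (qq_pos _).ne' (mul_pos (qq_pos _) (qq_pos _)).ne' fun q => ?_
  rw [Nat.factorization_mul (qq_pos _).ne' (qq_pos _).ne', Finsupp.add_apply, fact_qq, fact_qq,
    fact_qq, Nat.factorization_mul hm.ne' hn.ne', Finsupp.add_apply]
  have h2 : m.factorization q = 0 ∨ n.factorization q = 0 := by
    by_contra hcon
    push Not at hcon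
    have h3 : q ∣ m := Nat.dvd_of_factorization_pos hcon.1
    have h4 : q ∣ n := Nat.dvd_of_factorization_pos hcon.2
    have h5 : q.Prime := Nat.prime_of_mem_primeFactors (n := m) (by
      rw [← Nat.support_factorization, Finsupp.mem_support_iff]
      exact hcon.1)
    exact h5.one_lt.ne' (Nat.eq_one_of_dvd_coprimes h h3 h4)
  omega

theorem qq_prime_pow {p e : ℕ} (hp : p.Prime) : qq (p ^ e) = p ^ (e - 1) := by
  refine Nat.eq_of_factorization_eq (qq_pos _).ne' (pow_ne_zero _ hp.ne_zero) fun q => ?_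
  rw [fact_qq, Nat.factorization_pow, Nat.factorization_pow, Finsupp.smul_apply, Finsupp.smul_apply,
    hp.factorization, smul_eq_mul, smul_eq_mul]
  by_cases h : q = p
  · subst h
    simp
  · rw [Finsupp.single_eq_of_ne h]
    simp

theorem QQ_pos (k : ℕ) : 0 < QQ k := pow_pos (primorial_pos k) _

private theorem fact_sf (n q : ℕ) : (sf n).factorization q =
    if q ∈ n.primeFactors.filter (fun p => p ^ 2 ∣ n) then n.factorization q else 0 := by
  unfold sf
  rw [fact_prod _ (fun p hp => Nat.prime_of_mem_primeFactors (Finset.mem_filter.1 hp).1)]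

private theorem sf_pos (n : ℕ) : 0 < sf n :=
  Finset.prod_pos fun _ hp => pow_pos (Nat.prime_of_mem_primeFactors (Finset.mem_filter.1 hp).1).pos _

theorem sf_dvd (n : ℕ) : sf n ∣ n := by
  rcases Nat.eq_zero_or_pos n with hn | hn
  · subst hn
    exact dvd_zero _
  rw [← Nat.factorization_le_iff_dvd (sf_pos n).ne' hn.ne']
  intro q
  rw [fact_sf]
  split_ifs
  · exact le_rfl
  · exact Nat.zero_le _

private theorem mem_filt {n p : ℕ} (hn : n ≠ 0) (hp : p.Prime) (h : 2 ≤ n.factorization p) :
    p ∈ n.primeFactors.filter (fun p => p ^ 2 ∣ n) := by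
  rw [Finset.mem_filter]
  have h1 : p ^ 2 ∣ n := (hp.pow_dvd_iff_le_factorization hn).2 h
  exact ⟨Nat.mem_primeFactors.2 ⟨hp, (dvd_pow_self p two_ne_zero).trans h1, hn⟩, h1⟩

theorem SQ_sf {n : ℕ} (hn : n ≠ 0) : SQ (sf n) := by
  refine ⟨(sf_pos n).ne', fun p hp hd => ?_⟩
  rw [hp.pow_dvd_iff_le_factorization (sf_pos n).ne']
  have h1 : 0 < (sf n).factorization p := hp.factorization_pos_of_dvd (sf_pos n).ne' hd
  rw [fact_sf] at h1 ⊢
  split_ifs at h1 ⊢ with h
  · exact (hp.pow_dvd_iff_le_factorization hn).1 (Finset.mem_filter.1 h).2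
  · exact absurd h1 (lt_irrefl 0)

theorem qq_sf {n : ℕ} (hn : n ≠ 0) : qq (sf n) = qq n := by
  refine Nat.eq_of_factorization_eq (qq_pos _).ne' (qq_pos _).ne' fun q => ?_
  rw [fact_qq, fact_qq, fact_sf]
  split_ifs with h
  · rfl
  · have h1 : n.factorization q ≤ 1 := by
      by_contra hcon
      rw [not_le] at hcon
      have hq : q.Prime := Nat.prime_of_mem_primeFactors (n := n) (by
        rw [← Nat.support_factorization, Finsupp.mem_support_iff]
        omega)
      exact h (mem_filt hn hq hcon)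
    omega

private theorem fact_QQ {k p : ℕ} (hp : p.Prime) (hpk : p ≤ k) :
    (QQ k).factorization p = k + 1 := by
  unfold QQ primorial
  rw [Nat.factorization_pow, Finsupp.smul_apply, smul_eq_mul]
  have h := fact_prod ((Finset.range (k + 1)).filter Nat.Prime)
    (fun p hp => (Finset.mem_filter.1 hp).2) (fun _ => 1) p
  simp only [pow_one] at h
  rw [h, if_pos, mul_one]
  rw [Finset.mem_filter, Finset.mem_range]
  exact ⟨by omega, hp⟩

private theorem qq_gcd_gen {n k : ℕ} (hn : n ≠ 0)
    (h : ∀ p : ℕ, p.Prime → 2 ≤ n.factorization p → p ≤ k ∧ n.factorization p ≤ k + 1) :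
    qq (Nat.gcd n (QQ k)) = qq n := by
  refine Nat.eq_of_factorization_eq (qq_pos _).ne' (qq_pos _).ne' fun q => ?_
  rw [fact_qq, fact_qq, Nat.factorization_gcd hn (QQ_pos k).ne', Finsupp.inf_apply]
  by_cases h2 : 2 ≤ n.factorization q
  · have hq : q.Prime := Nat.prime_of_mem_primeFactors (n := n) (by
      rw [← Nat.support_factorization, Finsupp.mem_support_iff]
      omega)
    obtain ⟨h3, h4⟩ := h q hq h2
    rw [fact_QQ hq h3, inf_eq_left.2 h4]
  · have : n.factorization q ⊓ (QQ k).factorization q ≤ n.factorization q := inf_le_left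
    omega

private theorem sf_bound {n k p : ℕ} (hn : n ≠ 0) (h : sf n ≤ k) (hp : p.Prime)
    (h2 : 2 ≤ n.factorization p) : p ≤ k ∧ n.factorization p ≤ k + 1 := by
  have h1 : p ^ n.factorization p ∣ sf n := by
    rw [hp.pow_dvd_iff_le_factorization (sf_pos n).ne', fact_sf, if_pos (mem_filt hn hp h2)]
  have h3 : p ^ n.factorization p ≤ k := (Nat.le_of_dvd (sf_pos n) h1).trans h
  constructor
  · exact (Nat.le_self_pow (by omega) p).trans h3
  · have h4 : n.factorization p < p ^ n.factorization p := Nat.lt_pow_self hp.one_lt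
    omega

theorem qq_gcd_QQ {n k : ℕ} (hn : n ≠ 0) (h : sf n ≤ k) : qq (Nat.gcd n (QQ k)) = qq n :=
  qq_gcd_gen hn fun _ hp h2 => sf_bound hn h hp h2

/-- The same for a product of three pairwise coprime numbers. -/
theorem qq_gcd_QQ3 {a b c k : ℕ} (ha : a ≠ 0) (hb : b ≠ 0) (hc : c ≠ 0) (hab : Nat.Coprime a b)
    (hac : Nat.Coprime a c) (hbc : Nat.Coprime b c) (h1 : sf a ≤ k) (h2 : sf b ≤ k)
    (h3 : sf c ≤ k) : qq (Nat.gcd (a * b * c) (QQ k)) = qq (a * b * c) := by
  refine qq_gcd_gen (mul_ne_zero (mul_ne_zero ha hb) hc) fun p hp h => ?_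
  have key : ∀ {x y : ℕ}, Nat.Coprime x y → x.factorization p = 0 ∨ y.factorization p = 0 := by
    intro x y hxy
    by_contra hcon
    push Not at hcon
    exact hp.one_lt.ne' (Nat.eq_one_of_dvd_coprimes hxy (Nat.dvd_of_factorization_pos hcon.1)
      (Nat.dvd_of_factorization_pos hcon.2))
  have e : (a * b * c).factorization p = a.factorization p + b.factorization p +
      c.factorization p := by
    rw [Nat.factorization_mul (mul_ne_zero ha hb) hc, Nat.factorization_mul ha hb]
    rfl
  rw [e] at h ⊢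
  have k1 := key hab
  have k2 := key hac
  have k3 := key hbc
  have b1 := fun h => sf_bound (p := p) ha h1 hp h
  have b2 := fun h => sf_bound (p := p) hb h2 hp h
  have b3 := fun h => sf_bound (p := p) hc h3 hp h
  rcases k1 with k1 | k1 <;> rcases k2 with k2 | k2 <;> rcases k3 with k3 | k3 <;>
    simp only [k1, k2, k3, zero_add, add_zero] at h ⊢ <;>
    first
    | exact b1 h
    | exact b2 h
    | exact b3 h
    | omega

end AbcAsyQ
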