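import Pool.Agent.Work.MP_a793bb_nt.AsyQ.Defs

/-!
# Area: the area of `{x, y > 0, x y (x + y) ≤ 1}`  (size M)

`fA x = (-x + √(x² + 4/x)) / 2` is the positive `y` with `x y (x + y) = 1` (`x > 0`).

PROOF. `fA_spec`: put `s = √(x² + 4/x)`, `s > x`, `s² = x² + 4/x`; `fA x (x + fA x) = (s² - x²)/4`.
`fA_antitone`: if `0 < x ≤ x'` and `y' = fA x' > y = fA x` then `x' y' (x' + y') > x y (x + y) = 1`.
`fA_le`: `x y (x + y) = 1` gives `x y² ≤ 1` and `x² y ≤ 1`.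
`integral_fA`: substitution `x = g(t) = t ^ (2/3) (1 - t) ^ (-1/3)`, `t ∈ (0, 1)`, a bijection onto
`(0, ∞)` (increasing, limits `0` and `∞`; or the inverse is `t = x / (x + fA x)`), and
`fA (g t) = t ^ (-1/3) (1 - t) ^ (2/3)`. `g'(t) = g(t) (2 / (3 t) + 1 / (3 (1 - t)))`, so
`fA (g t) g'(t) = (1/3) (t (1 - t)) ^ (-2/3) (2 - t)`
`= (2/3) t ^ (-2/3) (1-t) ^ (-2/3) - (1/3) t ^ (1/3) (1-t) ^ (-2/3)`. By
`MeasureTheory.integral_image_eq_integral_abs_deriv_smul` (and the integrability version) the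
integral is `(2/3) B(1/3, 1/3) - (1/3) B(4/3, 1/3) = (1/2) B(1/3, 1/3)` with
`B(a, b) = Γ(a) Γ(b) / Γ(a + b)` (`Complex.betaIntegral`, `Complex.Gamma_mul_Gamma_eq_betaIntegral`
or a real version in Mathlib) and `Γ(4/3) = Γ(1/3)/3`, `Γ(5/3) = (2/3) Γ(2/3)`:
`(2/3) Γ(1/3)²/Γ(2/3) - (1/3) (1/3) Γ(1/3)² / ((2/3) Γ(2/3)) = (1/2) Γ(1/3)² / Γ(2/3) = AA`.
-/

set_option autoImplicit false

open MeasureTheory

namespace AbcAsyQ

theorem fA_spec {x : ℝ} (hx : 0 < x) : 0 < fA x ∧ x * fA x * (x + fA x) = 1 := by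
  have h4 : 0 < 4 / x := by positivity
  have hs2 : Real.sqrt (x ^ 2 + 4 / x) ^ 2 = x ^ 2 + 4 / x := Real.sq_sqrt (by positivity)
  have hsx : x < Real.sqrt (x ^ 2 + 4 / x) := by
    apply Real.lt_sqrt_of_sq_lt
    linarith
  refine ⟨?_, ?_⟩
  · unfold fA
    linarith
  · unfold fA
    set s := Real.sqrt (x ^ 2 + 4 / x) with hs
    have : x * ((-x + s) / 2) * (x + (-x + s) / 2) = x * (s ^ 2 - x ^ 2) / 4 := by ring
    rw [this, hs2]
    field_simp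
    ring

private lemma fA_unique {x y : ℝ} (hx : 0 < x) (hy : 0 < y) (h : x * y * (x + y) = 1) :
    fA x = y := by
  obtain ⟨h1, h2⟩ := fA_spec hx
  rcases lt_trichotomy (fA x) y with hlt | heq | hgt
  · exfalso
    have : x * fA x * (x + fA x) < x * y * (x + y) := by
      apply mul_lt_mul'' <;> [skip; linarith; positivity; positivity]
      exact mul_lt_mul_of_pos_left hlt hx
    linarith
  · exact heq
  · exfalso
    have : x * y * (x + y) < x * fA x * (x + fA x) := by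
      apply mul_lt_mul'' <;> [skip; linarith; positivity; positivity]
      exact mul_lt_mul_of_pos_left hgt hx
    linarith

theorem fA_antitone : AntitoneOn fA (Set.Ioi 0) := by
  intro x hx x' hx' hxx'
  have hx0 : (0:ℝ) < x := hx
  have hx0' : (0:ℝ) < x' := hx'
  obtain ⟨h1, h2⟩ := fA_spec hx0
  obtain ⟨h1', h2'⟩ := fA_spec hx0'
  by_contra hcon
  push Not at hcon
  have : x * fA x * (x + fA x) < x' * fA x' * (x' + fA x') := by
    apply mul_lt_mul'' <;> [skip; linarith; positivity; positivity]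
    exact mul_lt_mul' hxx' hcon h1.le hx0'
  linarith

theorem fA_le {x : ℝ} (hx : 0 < x) : fA x ≤ x ^ (-(1 / 2) : ℝ) ∧ fA x ≤ x ^ (-2 : ℝ) := by
  obtain ⟨h1, h2⟩ := fA_spec hx
  refine ⟨?_, ?_⟩
  · have h3 : x * fA x ^ 2 ≤ 1 := by
      have : 0 < x ^ 2 * fA x := by positivity
      nlinarith
    have h4 : fA x ^ 2 ≤ (x ^ (-(1 / 2) : ℝ)) ^ 2 := by
      rw [← Real.rpow_natCast (x ^ (-(1 / 2) : ℝ)) 2, ← Real.rpow_mul hx.le]
      norm_num
      rw [Real.rpow_neg_one]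
      rw [le_inv_comm₀ (by positivity) hx]
      rw [inv_eq_one_div, le_div_iff₀ (by positivity)]
      exact h3
    exact (sq_le_sq₀ h1.le (by positivity)).1 h4
  · have h3 : x ^ 2 * fA x ≤ 1 := by
      have : 0 < x * fA x ^ 2 := by positivity
      nlinarith
    rw [Real.rpow_neg hx.le, show (2:ℝ) = ((2:ℕ):ℝ) by norm_num, Real.rpow_natCast]
    rw [inv_eq_one_div, le_div_iff₀ (by positivity)]
    linarith

private lemma beta_real {α β : ℝ} (hα : 0 < α) (hβ : 0 < β) :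
    IntegrableOn (fun t : ℝ => t ^ (α - 1) * (1 - t) ^ (β - 1)) (Set.Ioo 0 1) ∧
    ∫ t in Set.Ioo (0:ℝ) 1, t ^ (α - 1) * (1 - t) ^ (β - 1)
      = Real.Gamma α * Real.Gamma β / Real.Gamma (α + β) := by
  have hconv := Complex.betaIntegral_convergent (u := α) (v := β) (by simpa) (by simpa)
  rw [intervalIntegrable_iff_integrableOn_Ioc_of_le (by simp)] at hconv
  have hre : ∀ x ∈ Set.Ioc (0:ℝ) 1,
      (((x:ℂ) ^ ((α:ℂ) - 1) * (1 - (x:ℂ)) ^ ((β:ℂ) - 1))).re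
        = x ^ (α - 1) * (1 - x) ^ (β - 1) := by
    intro x hx
    norm_cast
    rw [← Complex.ofReal_cpow, ← Complex.ofReal_cpow, Complex.re_mul_ofReal, Complex.ofReal_re]
    all_goals linarith [hx.1, hx.2]
  have hint : IntegrableOn (fun t : ℝ => t ^ (α - 1) * (1 - t) ^ (β - 1)) (Set.Ioc 0 1) := by
    have := hconv.re
    refine (integrableOn_congr_fun (fun x hx => ?_) measurableSet_Ioc).1 this
    exact hre x hx
  refine ⟨hint.mono_set Set.Ioo_subset_Ioc_self, ?_⟩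
  have hb := ProbabilityTheory.beta_eq_betaIntegralReal α β hα hβ
  unfold ProbabilityTheory.beta at hb
  rw [hb, Complex.betaIntegral, intervalIntegral.integral_of_le (by norm_num),
      ← integral_Ioc_eq_integral_Ioo, ← RCLike.re_to_complex, ← integral_re]
  · refine (setIntegral_congr_fun measurableSet_Ioc fun x hx ↦ ?_)
    exact (hre x hx).symm
  · exact hconv

private noncomputable def gA (t : ℝ) : ℝ := t ^ (2 / 3 : ℝ) * (1 - t) ^ (-(1 / 3) : ℝ)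

private noncomputable def hA (t : ℝ) : ℝ := t ^ (-(1 / 3) : ℝ) * (1 - t) ^ (2 / 3 : ℝ)

private lemma gA_pos {t : ℝ} (ht : t ∈ Set.Ioo (0:ℝ) 1) : 0 < gA t := by
  have h1 : 0 < t := ht.1
  have h2 : 0 < 1 - t := by linarith [ht.2]
  unfold gA
  positivity

private lemma hA_pos {t : ℝ} (ht : t ∈ Set.Ioo (0:ℝ) 1) : 0 < hA t := by
  have h1 : 0 < t := ht.1
  have h2 : 0 < 1 - t := by linarith [ht.2]
  unfold hA
  positivity

private lemma gA_add_hA {t : ℝ} (ht : t ∈ Set.Ioo (0:ℝ) 1) :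
    gA t + hA t = t ^ (-(1 / 3) : ℝ) * (1 - t) ^ (-(1 / 3) : ℝ) := by
  have h1 : 0 < t := ht.1
  have h2 : 0 < 1 - t := by linarith [ht.2]
  unfold gA hA
  have e1 : t ^ (2 / 3 : ℝ) = t * t ^ (-(1 / 3) : ℝ) := by
    rw [← Real.rpow_one_add' h1.le (by norm_num)]
    norm_num
  have e2 : (1 - t) ^ (2 / 3 : ℝ) = (1 - t) * (1 - t) ^ (-(1 / 3) : ℝ) := by
    rw [← Real.rpow_one_add' h2.le (by norm_num)]
    norm_num
  rw [e1, e2]
  ring

private lemma gA_div {t : ℝ} (ht : t ∈ Set.Ioo (0:ℝ) 1) :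
    gA t = t * (gA t + hA t) := by
  have h1 : 0 < t := ht.1
  have h2 : 0 < 1 - t := by linarith [ht.2]
  rw [gA_add_hA ht]
  unfold gA
  have e1 : t ^ (2 / 3 : ℝ) = t * t ^ (-(1 / 3) : ℝ) := by
    rw [← Real.rpow_one_add' h1.le (by norm_num)]
    norm_num
  rw [e1]
  ring

private lemma fA_gA {t : ℝ} (ht : t ∈ Set.Ioo (0:ℝ) 1) : fA (gA t) = hA t := by
  have h1 : 0 < t := ht.1
  have h2 : 0 < 1 - t := by linarith [ht.2]
  apply fA_unique (gA_pos ht) (hA_pos ht)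
  rw [gA_add_hA ht]
  unfold gA hA
  have e1 : t ^ (2 / 3 : ℝ) * t ^ (-(1 / 3) : ℝ) * t ^ (-(1 / 3) : ℝ) = 1 := by
    rw [← Real.rpow_add h1, ← Real.rpow_add h1]
    norm_num
  have e2 : (1 - t) ^ (2 / 3 : ℝ) * (1 - t) ^ (-(1 / 3) : ℝ) * (1 - t) ^ (-(1 / 3) : ℝ) = 1 := by
    rw [← Real.rpow_add h2, ← Real.rpow_add h2]
    norm_num
  calc _ = (t ^ (2 / 3 : ℝ) * t ^ (-(1 / 3) : ℝ) * t ^ (-(1 / 3) : ℝ)) *
        ((1 - t) ^ (2 / 3 : ℝ) * (1 - t) ^ (-(1 / 3) : ℝ) * (1 - t) ^ (-(1 / 3) : ℝ)) := by ring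
    _ = 1 := by rw [e1, e2]; norm_num

private lemma gA_inj : Set.InjOn gA (Set.Ioo 0 1) := by
  intro s hs t ht hst
  have h1 := gA_div hs
  have h2 := gA_div ht
  have h3 : hA s = hA t := by rw [← fA_gA hs, ← fA_gA ht, hst]
  have h4 := gA_pos hs
  have h5 := hA_pos hs
  have h6 : s * (gA s + hA s) = t * (gA s + hA s) := by
    rw [← h1]
    rw [hst, h3]
    exact h2
  exact mul_right_cancel₀ (by positivity : gA s + hA s ≠ 0) h6

private lemma gA_image : gA '' (Set.Ioo 0 1) = Set.Ioi 0 := by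
  ext x
  simp only [Set.mem_image, Set.mem_Ioi]
  constructor
  · rintro ⟨t, ht, rfl⟩
    exact gA_pos ht
  · intro hx
    obtain ⟨hy, hxy⟩ := fA_spec hx
    set y := fA x with hydef
    have hs : 0 < x + y := by positivity
    refine ⟨x / (x + y), ⟨by positivity, ?_⟩, ?_⟩
    · rw [div_lt_one hs]; linarith
    · have e0 : 1 - x / (x + y) = y / (x + y) := by
        field_simp
        ring
      unfold gA
      rw [e0, Real.div_rpow hx.le hs.le, Real.div_rpow hy.le hs.le]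
      have e1 : y * (x + y) = x⁻¹ := by
        field_simp
        linarith
      have e2 : y ^ (-(1 / 3) : ℝ) * (x + y) ^ (-(1 / 3) : ℝ) = x ^ (1 / 3 : ℝ) := by
        rw [← Real.mul_rpow hy.le hs.le, e1, Real.inv_rpow hx.le, ← Real.rpow_neg hx.le]
        norm_num
      have e3 : x ^ (2 / 3 : ℝ) / (x + y) ^ (2 / 3 : ℝ) * (y ^ (-(1 / 3) : ℝ) / (x + y) ^ (-(1 / 3) : ℝ))
          = x ^ (2 / 3 : ℝ) * (y ^ (-(1 / 3) : ℝ) * (x + y) ^ (-(1 / 3) : ℝ)) := by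
        have e4 : (x + y) ^ (2 / 3 : ℝ) * (x + y) ^ (-(1 / 3) : ℝ) * (x + y) ^ (-(1 / 3) : ℝ) = 1 := by
          rw [← Real.rpow_add hs, ← Real.rpow_add hs]
          norm_num
        have p1 : 0 < (x + y) ^ (2 / 3 : ℝ) := by positivity
        have p2 : 0 < (x + y) ^ (-(1 / 3) : ℝ) := by positivity
        rw [div_mul_div_comm, div_eq_iff (by positivity)]
        calc x ^ (2 / 3 : ℝ) * y ^ (-(1 / 3) : ℝ) = x ^ (2 / 3 : ℝ) * y ^ (-(1 / 3) : ℝ) *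
              ((x + y) ^ (2 / 3 : ℝ) * (x + y) ^ (-(1 / 3) : ℝ) * (x + y) ^ (-(1 / 3) : ℝ)) := by
                rw [e4, mul_one]
          _ = _ := by ring
      rw [e3, e2, ← Real.rpow_add hx]
      norm_num

private noncomputable def gA' (t : ℝ) : ℝ :=
  (2 / 3 : ℝ) * t ^ (-(1 / 3) : ℝ) * (1 - t) ^ (-(1 / 3) : ℝ)
    + (1 / 3 : ℝ) * t ^ (2 / 3 : ℝ) * (1 - t) ^ (-(4 / 3) : ℝ)

private lemma gA_deriv {t : ℝ} (ht : t ∈ Set.Ioo (0:ℝ) 1) : HasDerivAt gA (gA' t) t := by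
  have h1 : 0 < t := ht.1
  have h2 : 0 < 1 - t := by linarith [ht.2]
  have d1 : HasDerivAt (fun t : ℝ => t ^ (2 / 3 : ℝ)) ((2 / 3 : ℝ) * t ^ ((2 / 3 : ℝ) - 1)) t :=
    Real.hasDerivAt_rpow_const (Or.inl h1.ne')
  have d2 : HasDerivAt (fun t : ℝ => (1 - t) ^ (-(1 / 3) : ℝ))
      ((-1) * (-(1 / 3) : ℝ) * (1 - t) ^ ((-(1 / 3) : ℝ) - 1)) t := by
    have := ((hasDerivAt_id t).const_sub 1).rpow_const (p := (-(1 / 3) : ℝ)) (Or.inl h2.ne')
    simpa using this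
  have d3 := d1.mul d2
  refine d3.congr_deriv ?_
  unfold gA'
  norm_num
  ring

private lemma gA'_pos {t : ℝ} (ht : t ∈ Set.Ioo (0:ℝ) 1) : 0 < gA' t := by
  have h1 : 0 < t := ht.1
  have h2 : 0 < 1 - t := by linarith [ht.2]
  unfold gA'
  positivity

private lemma integrand_eq {t : ℝ} (ht : t ∈ Set.Ioo (0:ℝ) 1) :
    |gA' t| • fA (gA t) = (2 / 3 : ℝ) * (t ^ ((1 / 3 : ℝ) - 1) * (1 - t) ^ ((1 / 3 : ℝ) - 1))
      - (1 / 3 : ℝ) * (t ^ ((4 / 3 : ℝ) - 1) * (1 - t) ^ ((1 / 3 : ℝ) - 1)) := by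
  have h1 : 0 < t := ht.1
  have h2 : 0 < 1 - t := by linarith [ht.2]
  rw [fA_gA ht, abs_of_pos (gA'_pos ht), smul_eq_mul]
  unfold gA' hA
  norm_num
  have a1 : t ^ (-(1 / 3) : ℝ) * t ^ (-(1 / 3) : ℝ) = t ^ (-(2 / 3) : ℝ) := by
    rw [← Real.rpow_add h1]; norm_num
  have a2 : (1 - t) ^ (-(1 / 3) : ℝ) * (1 - t) ^ (2 / 3 : ℝ) = (1 - t) * (1 - t) ^ (-(2 / 3) : ℝ) := by
    rw [← Real.rpow_add h2, ← Real.rpow_one_add' h2.le (by norm_num)]; norm_num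
  have a3 : t ^ (2 / 3 : ℝ) * t ^ (-(1 / 3) : ℝ) = t * t ^ (-(2 / 3) : ℝ) := by
    rw [← Real.rpow_add h1, ← Real.rpow_one_add' h1.le (by norm_num)]; norm_num
  have a4 : (1 - t) ^ (-(4 / 3) : ℝ) * (1 - t) ^ (2 / 3 : ℝ) = (1 - t) ^ (-(2 / 3) : ℝ) := by
    rw [← Real.rpow_add h2]; norm_num
  have a5 : t ^ (1 / 3 : ℝ) = t * t ^ (-(2 / 3) : ℝ) := by
    rw [← Real.rpow_one_add' h1.le (by norm_num)]; norm_num
  calc (2 / 3 * t ^ (-(1 / 3) : ℝ) * (1 - t) ^ (-(1 / 3) : ℝ) + 1 / 3 * t ^ (2 / 3 : ℝ) * (1 - t) ^ (-(4 / 3) : ℝ)) *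
      (t ^ (-(1 / 3) : ℝ) * (1 - t) ^ (2 / 3 : ℝ))
      = 2 / 3 * (t ^ (-(1 / 3) : ℝ) * t ^ (-(1 / 3) : ℝ)) * ((1 - t) ^ (-(1 / 3) : ℝ) * (1 - t) ^ (2 / 3 : ℝ))
        + 1 / 3 * (t ^ (2 / 3 : ℝ) * t ^ (-(1 / 3) : ℝ)) * ((1 - t) ^ (-(4 / 3) : ℝ) * (1 - t) ^ (2 / 3 : ℝ)) := by
        ring
    _ = _ := by
      rw [a1, a2, a3, a4, a5]
      ring

private lemma main_int : IntegrableOn (fun t => |gA' t| • fA (gA t)) (Set.Ioo 0 1) ∧
    ∫ t in Set.Ioo (0:ℝ) 1, |gA' t| • fA (gA t) = AA := by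
  obtain ⟨i1, v1⟩ := beta_real (α := 1 / 3) (β := 1 / 3) (by norm_num) (by norm_num)
  obtain ⟨i2, v2⟩ := beta_real (α := 4 / 3) (β := 1 / 3) (by norm_num) (by norm_num)
  have I1 := i1.const_mul (2 / 3 : ℝ)
  have I2 := i2.const_mul (1 / 3 : ℝ)
  refine ⟨?_, ?_⟩
  · refine (integrableOn_congr_fun (fun t ht => ?_) measurableSet_Ioo).2 (I1.sub I2)
    exact integrand_eq ht
  · rw [setIntegral_congr_fun measurableSet_Ioo (fun t ht => integrand_eq ht)]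
    rw [integral_sub I1 I2, integral_const_mul, integral_const_mul, v1, v2]
    have g1 : Real.Gamma (4 / 3) = 1 / 3 * Real.Gamma (1 / 3) := by
      rw [← Real.Gamma_add_one (by norm_num)]; norm_num
    have g2 : Real.Gamma (4 / 3 + 1 / 3) = 2 / 3 * Real.Gamma (2 / 3) := by
      rw [← Real.Gamma_add_one (by norm_num)]; norm_num
    have g3 : Real.Gamma (1 / 3 + 1 / 3) = Real.Gamma (2 / 3) := by norm_num
    rw [g1, g2, g3]
    unfold AA
    have hG : 0 < Real.Gamma (2 / 3) := Real.Gamma_pos_of_pos (by norm_num)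
    field_simp
    ring

theorem integrableOn_fA : IntegrableOn fA (Set.Ioi 0) := by
  rw [← gA_image, integrableOn_image_iff_integrableOn_abs_deriv_smul measurableSet_Ioo
    (fun t ht => (gA_deriv ht).hasDerivWithinAt) gA_inj]
  exact main_int.1

theorem integral_fA : ∫ x in Set.Ioi 0, fA x = AA := by
  rw [← gA_image, integral_image_eq_integral_abs_deriv_smul measurableSet_Ioo
    (fun t ht => (gA_deriv ht).hasDerivWithinAt) gA_inj]
  exact main_int.2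

theorem AA_pos : 0 < AA := by
  unfold AA
  have h1 : 0 < Real.Gamma (1 / 3) := Real.Gamma_pos_of_pos (by norm_num)
  have h2 : 0 < Real.Gamma (2 / 3) := Real.Gamma_pos_of_pos (by norm_num)
  positivity

end AbcAsyQ
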