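import Pool.Agent.Work.MP_a793bb_nt.AsyQ.Defs

/-!
# BoxC: lattice points in a dyadic box  (size M)

PROOF. If the box set is empty there is nothing to prove. Otherwise `s₁ ≤ a < 2U`, `s₂ ≤ b < 2V`,
`s₃ ≤ a + b < 4V` for some point. An interval of `L` consecutive integers contains at most
`L / s + 1` elements of a residue class modulo `s`. Three counts:
(1) `a` is a multiple of `s₁` in `[U, 2U)`: at most `U/s₁ + 1 ≤ 3U/s₁` values (`1 < 2U/s₁`); given
`a`, `b ∈ [V, 2V)` is divisible by `s₂` and `≡ -a (mod s₃)`, one class modulo `s₂ s₃` (or none): at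
most `V/(s₂ s₃) + 1` values. Total `≤ 3UV/(s₁s₂s₃) + 3U/s₁`.
(2) the same with `b` first: at most `3V/s₂` values of `b`, then `a` in a class modulo `s₁ s₃`:
total `≤ 3UV/(s₁s₂s₃) + 3V/s₂`.
(3) `c = a + b ∈ [V, 4V)` is a multiple of `s₃`: at most `3V/s₃ + 1 ≤ 7V/s₃` values; given `c`, `a`
is in a class modulo `s₁ s₂` (`a ≡ 0 (s₁)`, `a ≡ c (s₂)`): total `≤ 7UV/(s₁s₂s₃) + 7V/s₃`.
So the size is `≤ 7UV/(s₁s₂s₃) + 7 min(U/s₁, V/s₂, V/s₃)` and the minimum is at most the geometric
mean. (Do not use `min`: the three inequalities `N ≤ x + y_i`, `y_i > 0`, give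
`N - x ≤ (y₁ y₂ y₃)^(1/3)`.)
-/

set_option autoImplicit false

namespace AbcAsyQ

theorem Box_finite (s₁ s₂ s₃ U V : ℕ) : (Box s₁ s₂ s₃ U V).Finite := by
  refine ((Finset.range (2 * U) ×ˢ Finset.range (2 * V)).finite_toSet).subset ?_
  rintro ⟨a, b⟩ ⟨_, h2, _, h4, _⟩
  simp only [Finset.coe_product, Set.mem_prod, Finset.mem_coe, Finset.mem_range]
  exact ⟨h2, h4⟩

/-- elements of an interval in one residue class -/
private theorem cnt (S : Finset ℕ) (A L s : ℕ) (hS : ∀ x ∈ S, A ≤ x ∧ x < A + L)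
    (hm : ∀ x ∈ S, ∀ y ∈ S, x ≡ y [MOD s]) : (S.card : ℝ) ≤ (L : ℝ) / s + 1 := by
  have h1 : (S.image (fun x => (x - A) / s)).card = S.card := by
    refine Finset.card_image_of_injOn fun x hx y hy h => ?_
    have h : (x - A) / s = (y - A) / s := h
    obtain ⟨u, rfl⟩ : ∃ u, x = A + u := ⟨x - A, by have := (hS x hx).1; omega⟩
    obtain ⟨v, rfl⟩ : ∃ v, y = A + v := ⟨y - A, by have := (hS y hy).1; omega⟩
    have h2 : u ≡ v [MOD s] := Nat.ModEq.add_left_cancel' A (hm _ hx _ hy)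
    rw [Nat.add_sub_cancel_left, Nat.add_sub_cancel_left] at h
    have h3 := Nat.div_add_mod u s
    have h4 := Nat.div_add_mod v s
    have h5 : u % s = v % s := h2
    rw [h, h5, h4] at h3
    rw [h3]
  have h2 : (S.image (fun x => (x - A) / s)).card ≤ L / s + 1 := by
    refine (Finset.card_le_card (t := Finset.range (L / s + 1)) ?_).trans (Finset.card_range _).le
    intro t ht
    obtain ⟨x, hx, rfl⟩ := Finset.mem_image.1 ht
    rw [Finset.mem_range]
    have := hS x hx
    exact Nat.lt_succ_of_le (Nat.div_le_div_right (by omega))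
  have h3 : ((L / s : ℕ) : ℝ) ≤ (L : ℝ) / s := Nat.cast_div_le
  have h4 : (S.card : ℝ) ≤ ((L / s + 1 : ℕ) : ℝ) := by
    exact_mod_cast h1 ▸ h2
  push_cast at h4
  linarith

private theorem mod_mul {x y m n : ℕ} (hmn : Nat.Coprime m n) (h1 : x ≡ y [MOD m])
    (h2 : x ≡ y [MOD n]) : x ≡ y [MOD m * n] :=
  (Nat.modEq_and_modEq_iff_modEq_mul hmn).1 ⟨h1, h2⟩

private theorem mod_dvd {x y m : ℕ} (h1 : m ∣ x) (h2 : m ∣ y) : x ≡ y [MOD m] :=
  ((Nat.modEq_zero_iff_dvd.2 h1)).trans (Nat.modEq_zero_iff_dvd.2 h2).symm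

private theorem mod_add {x y c m : ℕ} (h1 : m ∣ c + x) (h2 : m ∣ c + y) : x ≡ y [MOD m] :=
  Nat.ModEq.add_left_cancel' c (mod_dvd h1 h2)

/-- number of elements by fibres -/
private theorem fib (S : Finset (ℕ × ℕ)) (f : ℕ × ℕ → ℕ) (n m : ℝ)
    (h : ∀ c, ((S.filter fun p => f p = c).card : ℝ) ≤ n) (h' : ((S.image f).card : ℝ) ≤ m) :
    (S.card : ℝ) ≤ m * n := by
  have hn : 0 ≤ n := (Nat.cast_nonneg _).trans (h 0)
  have h1 : S.card = ∑ c ∈ S.image f, (S.filter fun p => f p = c).card :=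
    Finset.card_eq_sum_card_image f S
  rw [h1]
  push_cast
  calc ∑ c ∈ S.image f, ((S.filter fun p => f p = c).card : ℝ) ≤ ∑ c ∈ S.image f, n :=
        Finset.sum_le_sum fun c _ => h c
    _ = ((S.image f).card : ℝ) * n := by rw [Finset.sum_const, nsmul_eq_mul]
    _ ≤ m * n := mul_le_mul_of_nonneg_right h' hn

theorem box_count {s₁ s₂ s₃ U V : ℕ} (h1 : 0 < s₁) (h2 : 0 < s₂) (h3 : 0 < s₃)
    (h12 : Nat.Coprime s₁ s₂) (h13 : Nat.Coprime s₁ s₃) (h23 : Nat.Coprime s₂ s₃)
    (hU : 0 < U) (hUV : U ≤ V) :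
    ((Box s₁ s₂ s₃ U V).ncard : ℝ) ≤
      7 * ((U : ℝ) * V / ((s₁ : ℝ) * s₂ * s₃)) +
        7 * ((U : ℝ) * (V : ℝ) ^ 2 / ((s₁ : ℝ) * s₂ * s₃)) ^ (1 / 3 : ℝ) := by
  classical
  have hfin := Box_finite s₁ s₂ s₃ U V
  rw [Set.ncard_eq_toFinset_card _ hfin]
  set S := hfin.toFinset with hS
  have hmem : ∀ p ∈ S, U ≤ p.1 ∧ p.1 < 2 * U ∧ V ≤ p.2 ∧ p.2 < 2 * V ∧ s₁ ∣ p.1 ∧ s₂ ∣ p.2 ∧
      s₃ ∣ p.1 + p.2 := fun p hp => hfin.mem_toFinset.1 hp
  have r1 : (0 : ℝ) < s₁ := by exact_mod_cast h1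
  have r2 : (0 : ℝ) < s₂ := by exact_mod_cast h2
  have r3 : (0 : ℝ) < s₃ := by exact_mod_cast h3
  have rU : (0 : ℝ) < U := by exact_mod_cast hU
  have rV : (0 : ℝ) < V := by exact_mod_cast (hU.trans_le hUV)
  rcases S.eq_empty_or_nonempty with h0 | ⟨q, hq⟩
  · rw [h0, Finset.card_empty, Nat.cast_zero]
    positivity
  obtain ⟨q1, q2, q3, q4, q5, q6, q7⟩ := hmem q hq
  have b1 : (s₁ : ℝ) ≤ 2 * U := by
    exact_mod_cast ((Nat.le_of_dvd (by omega) q5).trans q2.le)
  have b2 : (s₂ : ℝ) ≤ 2 * V := by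
    exact_mod_cast ((Nat.le_of_dvd (by omega) q6).trans q4.le)
  have b3 : (s₃ : ℝ) ≤ 4 * V := by
    have h : s₃ ≤ q.1 + q.2 := Nat.le_of_dvd (by omega) q7
    exact_mod_cast (by omega : s₃ ≤ 4 * V)
  -- first count
  have c1 : (S.card : ℝ) ≤ (3 * (U / s₁)) * (V / (s₂ * s₃) + 1) := by
    refine fib S (fun p => p.1) _ _ (fun c => ?_) ?_
    · have e : (S.filter fun p => p.1 = c).card =
          ((S.filter fun p => p.1 = c).image (fun p => p.2)).card := by
        refine (Finset.card_image_of_injOn fun x hx y hy h => ?_).symm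
        have hx' := (Finset.mem_filter.1 hx).2
        have hy' := (Finset.mem_filter.1 hy).2
        exact Prod.ext (hx'.trans hy'.symm) h
      rw [e]
      have := cnt ((S.filter fun p => p.1 = c).image (fun p => p.2)) V V (s₂ * s₃)
        (fun x hx => by
          obtain ⟨p, hp, rfl⟩ := Finset.mem_image.1 hx
          have := hmem p (Finset.mem_filter.1 hp).1
          omega)
        (fun x hx y hy => by
          obtain ⟨p, hp, rfl⟩ := Finset.mem_image.1 hx
          obtain ⟨p', hp', rfl⟩ := Finset.mem_image.1 hy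
          obtain ⟨hp1, hp2⟩ := Finset.mem_filter.1 hp
          obtain ⟨hp1', hp2'⟩ := Finset.mem_filter.1 hp'
          obtain ⟨_, _, _, _, _, d2, d3⟩ := hmem p hp1
          obtain ⟨_, _, _, _, _, d2', d3'⟩ := hmem p' hp1'
          rw [hp2] at d3
          rw [hp2'] at d3'
          exact mod_mul h23 (mod_dvd d2 d2') (mod_add d3 d3'))
      push_cast at this
      exact this
    · have := cnt (S.image fun p => p.1) U U s₁
        (fun x hx => by
          obtain ⟨p, hp, rfl⟩ := Finset.mem_image.1 hx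
          have := hmem p hp
          omega)
        (fun x hx y hy => by
          obtain ⟨p, hp, rfl⟩ := Finset.mem_image.1 hx
          obtain ⟨p', hp', rfl⟩ := Finset.mem_image.1 hy
          exact mod_dvd (hmem p hp).2.2.2.2.1 (hmem p' hp').2.2.2.2.1)
      have h5 : 1 ≤ 2 * ((U : ℝ) / s₁) := by
        rw [← mul_div_assoc, le_div_iff₀ r1]
        linarith
      linarith
  have c2 : (S.card : ℝ) ≤ (3 * (V / s₂)) * (U / (s₁ * s₃) + 1) := by
    refine fib S (fun p => p.2) _ _ (fun c => ?_) ?_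
    · have e : (S.filter fun p => p.2 = c).card =
          ((S.filter fun p => p.2 = c).image (fun p => p.1)).card := by
        refine (Finset.card_image_of_injOn fun x hx y hy h => ?_).symm
        have hx' := (Finset.mem_filter.1 hx).2
        have hy' := (Finset.mem_filter.1 hy).2
        exact Prod.ext h (hx'.trans hy'.symm)
      rw [e]
      have := cnt ((S.filter fun p => p.2 = c).image (fun p => p.1)) U U (s₁ * s₃)
        (fun x hx => by
          obtain ⟨p, hp, rfl⟩ := Finset.mem_image.1 hx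
          have := hmem p (Finset.mem_filter.1 hp).1
          omega)
        (fun x hx y hy => by
          obtain ⟨p, hp, rfl⟩ := Finset.mem_image.1 hx
          obtain ⟨p', hp', rfl⟩ := Finset.mem_image.1 hy
          obtain ⟨hp1, hp2⟩ := Finset.mem_filter.1 hp
          obtain ⟨hp1', hp2'⟩ := Finset.mem_filter.1 hp'
          obtain ⟨_, _, _, _, d1, _, d3⟩ := hmem p hp1
          obtain ⟨_, _, _, _, d1', _, d3'⟩ := hmem p' hp1'
          rw [hp2, add_comm] at d3
          rw [hp2', add_comm] at d3'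
          exact mod_mul h13 (mod_dvd d1 d1') (mod_add d3 d3'))
      push_cast at this
      exact this
    · have := cnt (S.image fun p => p.2) V V s₂
        (fun x hx => by
          obtain ⟨p, hp, rfl⟩ := Finset.mem_image.1 hx
          have := hmem p hp
          omega)
        (fun x hx y hy => by
          obtain ⟨p, hp, rfl⟩ := Finset.mem_image.1 hx
          obtain ⟨p', hp', rfl⟩ := Finset.mem_image.1 hy
          exact mod_dvd (hmem p hp).2.2.2.2.2.1 (hmem p' hp').2.2.2.2.2.1)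
      have h5 : 1 ≤ 2 * ((V : ℝ) / s₂) := by
        rw [← mul_div_assoc, le_div_iff₀ r2]
        linarith
      linarith
  have c3 : (S.card : ℝ) ≤ (7 * (V / s₃)) * (U / (s₁ * s₂) + 1) := by
    refine fib S (fun p => p.1 + p.2) _ _ (fun c => ?_) ?_
    · have e : (S.filter fun p => p.1 + p.2 = c).card =
          ((S.filter fun p => p.1 + p.2 = c).image (fun p => p.1)).card := by
        refine (Finset.card_image_of_injOn fun x hx y hy h => ?_).symm
        have hx' := (Finset.mem_filter.1 hx).2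
        have hy' := (Finset.mem_filter.1 hy).2
        have h' : x.1 = y.1 := h
        exact Prod.ext h (by omega)
      rw [e]
      have := cnt ((S.filter fun p => p.1 + p.2 = c).image (fun p => p.1)) U U (s₁ * s₂)
        (fun x hx => by
          obtain ⟨p, hp, rfl⟩ := Finset.mem_image.1 hx
          have := hmem p (Finset.mem_filter.1 hp).1
          omega)
        (fun x hx y hy => by
          obtain ⟨p, hp, rfl⟩ := Finset.mem_image.1 hx
          obtain ⟨p', hp', rfl⟩ := Finset.mem_image.1 hy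
          obtain ⟨hp1, hp2⟩ := Finset.mem_filter.1 hp
          obtain ⟨hp1', hp2'⟩ := Finset.mem_filter.1 hp'
          obtain ⟨_, _, _, _, d1, d2, _⟩ := hmem p hp1
          obtain ⟨_, _, _, _, d1', d2', _⟩ := hmem p' hp1'
          refine mod_mul h12 (mod_dvd d1 d1') ?_
          have e1 : p.1 + p.2 ≡ p'.1 + p'.2 [MOD s₂] := by rw [hp2, hp2']
          exact Nat.ModEq.add_right_cancel (mod_dvd d2 d2') e1)
      push_cast at this
      exact this
    · have := cnt (S.image fun p => p.1 + p.2) V (3 * V) s₃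
        (fun x hx => by
          obtain ⟨p, hp, rfl⟩ := Finset.mem_image.1 hx
          have := hmem p hp
          omega)
        (fun x hx y hy => by
          obtain ⟨p, hp, rfl⟩ := Finset.mem_image.1 hx
          obtain ⟨p', hp', rfl⟩ := Finset.mem_image.1 hy
          exact mod_dvd (hmem p hp).2.2.2.2.2.2 (hmem p' hp').2.2.2.2.2.2)
      have h5 : 1 ≤ 4 * ((V : ℝ) / s₃) := by
        rw [← mul_div_assoc, le_div_iff₀ r3]
        linarith
      push_cast at this
      have e3 : 3 * (V : ℝ) / s₃ = 3 * (V / s₃) := by ring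
      rw [e3] at this
      linarith
  set x : ℝ := (U : ℝ) * V / ((s₁ : ℝ) * s₂ * s₃) with hx
  have hx0 : 0 < x := by positivity
  have d1 : (S.card : ℝ) ≤ 7 * x + 7 * (U / s₁) := by
    have e : (3 * ((U : ℝ) / s₁)) * (V / (s₂ * s₃) + 1) = 3 * x + 3 * (U / s₁) := by
      rw [hx]
      field_simp
    have : 0 < (U : ℝ) / s₁ := by positivity
    linarith
  have d2 : (S.card : ℝ) ≤ 7 * x + 7 * (V / s₂) := by
    have e : (3 * ((V : ℝ) / s₂)) * (U / (s₁ * s₃) + 1) = 3 * x + 3 * (V / s₂) := by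
      rw [hx]
      field_simp
    have : 0 < (V : ℝ) / s₂ := by positivity
    linarith
  have d3 : (S.card : ℝ) ≤ 7 * x + 7 * (V / s₃) := by
    have e : (7 * ((V : ℝ) / s₃)) * (U / (s₁ * s₂) + 1) = 7 * x + 7 * (V / s₃) := by
      rw [hx]
      field_simp
    linarith
  by_cases hN : (S.card : ℝ) ≤ 7 * x
  · have : 0 ≤ 7 * ((U : ℝ) * (V : ℝ) ^ 2 / ((s₁ : ℝ) * s₂ * s₃)) ^ (1 / 3 : ℝ) := by positivity
    linarith
  · push Not at hN
    set z : ℝ := ((S.card : ℝ) - 7 * x) / 7 with hz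
    have hz0 : 0 < z := by rw [hz]; linarith
    have z1 : z ≤ U / s₁ := by rw [hz]; linarith
    have z2 : z ≤ V / s₂ := by rw [hz]; linarith
    have z3 : z ≤ V / s₃ := by rw [hz]; linarith
    have h4 : z ^ 3 ≤ (U : ℝ) * (V : ℝ) ^ 2 / ((s₁ : ℝ) * s₂ * s₃) := by
      calc z ^ 3 = z * z * z := by ring
        _ ≤ ((U : ℝ) / s₁) * (V / s₂) * (V / s₃) := by
            have hz0' := hz0.le
            gcongr
        _ = (U : ℝ) * (V : ℝ) ^ 2 / ((s₁ : ℝ) * s₂ * s₃) := by
            field_simp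
    have h5 : z ≤ ((U : ℝ) * (V : ℝ) ^ 2 / ((s₁ : ℝ) * s₂ * s₃)) ^ (1 / 3 : ℝ) := by
      have h6 : z = (z ^ 3) ^ (1 / 3 : ℝ) := by
        rw [← Real.rpow_natCast z 3, ← Real.rpow_mul hz0.le]
        norm_num
      rw [h6]
      exact Real.rpow_le_rpow (by positivity) h4 (by norm_num)
    have h7 : (S.card : ℝ) = 7 * x + 7 * z := by rw [hz]; ring
    rw [h7]
    linarith

end AbcAsyQ
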