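import Pool.Agent.Work.MP_a793bb_nt.AsyQ.DCount

/-!
# Cls: lattice points of the region in residue classes  (size M)

PROOF. `mult_ncard`: `(a, b) ↦ (d a, d b)` is a bijection from `DD (T / d³)` onto the left set
(`d a d b (d a + d b) = d³ a b (a + b)`). Its size is `≤ AA T ^ (2/3) / d²` (`DD_bounds`; for
`T = 0` both are empty).
`cls_tendsto`: WLOG `1 ≤ a₀, b₀ ≤ m`. Let `N(T)` be the number of points of the class and
`N₀(T) = #DD (T / m³)` the number of points `(m i, m j)`, `i, j ≥ 1`. The points of the class are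
`(a₀ + m i, b₀ + m j)`, `i, j ≥ 0`. As `DD` is a down-set: `(m (i+1), m (j+1)) ∈ DD T` implies
`(a₀ + m i, b₀ + m j) ∈ DD T`, so `N₀ ≤ N`. If `i, j ≥ 1` and `(a₀ + m i, b₀ + m j) ∈ DD T` then
`(m i, m j) ∈ DD T`, so `N ≤ N₀ + #(i = 0) + #(j = 0)`, and a point of `DD T` with given first
coordinate `a₀ ≥ 1` has `b² ≤ T`: at most `√T` points, similarly for `j = 0`. So
`N₀ ≤ N ≤ N₀ + 2 √T`, and `N₀ / T ^ (2/3) = (#DD (T/m³) / (T/m³) ^ (2/3)) / m² → AA / m²`.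
-/

set_option autoImplicit false

open Filter Topology

namespace AbcAsyQ

theorem mult_ncard (d : ℕ) (hd : 0 < d) (T : ℝ) :
    {p ∈ DD T | d ∣ p.1 ∧ d ∣ p.2}.ncard = (DD (T / (d : ℝ) ^ 3)).ncard := by
  have hd0 : (0 : ℝ) < (d : ℝ) ^ 3 := by positivity
  have h1 : {p ∈ DD T | d ∣ p.1 ∧ d ∣ p.2} =
      (fun p : ℕ × ℕ => (d * p.1, d * p.2)) '' (DD (T / (d : ℝ) ^ 3)) := by
    ext ⟨a, b⟩
    simp only [DD, Set.mem_ofPred_eq, Set.mem_image, Prod.mk.injEq, Prod.exists]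
    constructor
    · rintro ⟨⟨ha, hb, h⟩, ⟨x, hx⟩, ⟨y, hy⟩⟩
      refine ⟨x, y, ⟨?_, ?_, ?_⟩, hx.symm, hy.symm⟩
      · exact Nat.pos_of_ne_zero fun h0 => by rw [hx, h0] at ha; simp at ha
      · exact Nat.pos_of_ne_zero fun h0 => by rw [hy, h0] at hb; simp at hb
      · rw [le_div_iff₀ hd0]
        refine le_trans (le_of_eq ?_) h
        rw [hx, hy]
        push_cast
        ring
    · rintro ⟨x, y, ⟨hx, hy, h⟩, h1, h2⟩
      subst h1
      subst h2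
      refine ⟨⟨Nat.mul_pos hd hx, Nat.mul_pos hd hy, ?_⟩, dvd_mul_right _ _, dvd_mul_right _ _⟩
      rw [le_div_iff₀ hd0] at h
      refine le_trans (le_of_eq ?_) h
      push_cast
      ring
  rw [h1]
  refine Set.ncard_image_of_injective _ ?_
  rintro ⟨a, b⟩ ⟨x, y⟩ h
  simp only [Prod.mk.injEq] at h
  rw [Nat.eq_of_mul_eq_mul_left hd h.1, Nat.eq_of_mul_eq_mul_left hd h.2]

private theorem rpow_cube {T m : ℝ} (hT : 0 ≤ T) (hm : 0 < m) :
    (T / m ^ 3) ^ (2 / 3 : ℝ) = T ^ (2 / 3 : ℝ) / m ^ 2 := by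
  rw [Real.div_rpow hT (by positivity)]
  congr 1
  rw [← Real.rpow_natCast, ← Real.rpow_natCast, ← Real.rpow_mul hm.le]
  norm_num

theorem mult_bound (d : ℕ) (hd : 0 < d) (T : ℝ) (hT : 0 ≤ T) :
    (({p ∈ DD T | d ∣ p.1 ∧ d ∣ p.2}.ncard : ℕ) : ℝ) ≤ AA * T ^ (2 / 3 : ℝ) / (d : ℝ) ^ 2 := by
  rw [mult_ncard d hd]
  have hd0 : (0 : ℝ) < (d : ℝ) := by exact_mod_cast hd
  rcases hT.eq_or_lt with h | h
  · rw [← h, zero_div]
    have h1 : DD 0 = ∅ := by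
      ext ⟨a, b⟩
      simp only [DD, Set.mem_ofPred_eq, Set.mem_empty_iff_false, iff_false, not_and]
      intro ha hb h
      have h2 : 0 < a * b * (a + b) := Nat.mul_pos (Nat.mul_pos ha hb) (by omega)
      have h3 : (0 : ℝ) < ((a * b * (a + b) : ℕ) : ℝ) := by exact_mod_cast h2
      linarith
    rw [h1, Set.ncard_empty, Real.zero_rpow (by norm_num)]
    simp
  · refine ((DD_bounds (T / (d : ℝ) ^ 3) (by positivity)).2).trans (le_of_eq ?_)
    rw [rpow_cube hT hd0, mul_div_assoc]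

/-- A representative of a residue class in `[1, m]`. -/
private theorem exists_rep (m a₀ : ℕ) (hm : 0 < m) : ∃ a₁, 1 ≤ a₁ ∧ a₁ ≤ m ∧ a₁ ≡ a₀ [MOD m] := by
  by_cases h : a₀ % m = 0
  · refine ⟨m, hm, le_rfl, ?_⟩
    unfold Nat.ModEq
    rw [Nat.mod_self, h]
  · exact ⟨a₀ % m, Nat.pos_of_ne_zero h, (Nat.mod_lt _ hm).le, Nat.mod_modEq _ _⟩

private theorem rep_form {m a₁ a : ℕ} (h1 : 1 ≤ a₁) (h2 : a₁ ≤ m) (ha : 0 < a)
    (h : a ≡ a₁ [MOD m]) : ∃ i, a = a₁ + m * i := by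
  have hle : a₁ ≤ a := by
    by_contra hc
    push Not at hc
    have h3 : m ∣ a₁ - a := (Nat.modEq_iff_dvd' hc.le).1 h
    have := Nat.le_of_dvd (by omega) h3
    omega
  obtain ⟨i, hi⟩ := (Nat.modEq_iff_dvd' hle).1 h.symm
  exact ⟨i, by omega⟩

private theorem line_bound (T : ℝ) (hT : 0 ≤ T) (a : ℕ) (s : Set (ℕ × ℕ)) (hs : s ⊆ DD T)
    (h : (∀ p ∈ s, p.1 = a) ∨ (∀ p ∈ s, p.2 = a)) : (s.ncard : ℝ) ≤ Real.sqrt T := by
  have h0 : ∀ p ∈ DD T, p.1 ≤ ⌊Real.sqrt T⌋₊ ∧ p.2 ≤ ⌊Real.sqrt T⌋₊ := by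
    rintro ⟨x, y⟩ ⟨hx, hy, hle⟩
    simp only at hx hy hle ⊢
    push_cast at hle
    have hx1 : (1 : ℝ) ≤ x := by exact_mod_cast hx
    have hy1 : (1 : ℝ) ≤ y := by exact_mod_cast hy
    constructor
    · refine Nat.le_floor (Real.le_sqrt_of_sq_le (le_trans ?_ hle))
      have : (x : ℝ) * y * (x + y) = x ^ 2 * y + x * y ^ 2 := by ring
      rw [this]
      have h1 : (x : ℝ) ^ 2 * 1 ≤ x ^ 2 * y := mul_le_mul_of_nonneg_left hy1 (by positivity)
      have h2 : 0 ≤ (x : ℝ) * y ^ 2 := by positivity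
      linarith
    · refine Nat.le_floor (Real.le_sqrt_of_sq_le (le_trans ?_ hle))
      have : (x : ℝ) * y * (x + y) = x ^ 2 * y + x * y ^ 2 := by ring
      rw [this]
      have h1 : 1 * (y : ℝ) ^ 2 ≤ x * y ^ 2 := mul_le_mul_of_nonneg_right hx1 (by positivity)
      have h2 : 0 ≤ (x : ℝ) ^ 2 * y := by positivity
      linarith
  have h1 : s.ncard ≤ (Finset.Icc 1 ⌊Real.sqrt T⌋₊ : Finset ℕ).card := by
    rw [← Set.ncard_coe_finset]
    rcases h with h | h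
    · refine Set.ncard_le_ncard_of_injOn (fun p => p.2) ?_ ?_ (Finset.finite_toSet _)
      · intro p hp
        have h2 := h0 p (hs hp)
        have h3 := (hs hp).2.1
        simp only [Finset.coe_Icc, Set.mem_Icc]
        exact ⟨h3, h2.2⟩
      · rintro ⟨x, y⟩ hp ⟨x', y'⟩ hp' hyy
        have h4 := h _ hp
        have h5 := h _ hp'
        simp only at hyy h4 h5
        rw [hyy, h4, h5]
    · refine Set.ncard_le_ncard_of_injOn (fun p => p.1) ?_ ?_ (Finset.finite_toSet _)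
      · intro p hp
        have h2 := h0 p (hs hp)
        have h3 := (hs hp).1
        simp only [Finset.coe_Icc, Set.mem_Icc]
        exact ⟨h3, h2.1⟩
      · rintro ⟨x, y⟩ hp ⟨x', y'⟩ hp' hyy
        have h4 := h _ hp
        have h5 := h _ hp'
        simp only at hyy h4 h5
        rw [hyy, h4, h5]
  rw [Nat.card_Icc, Nat.add_sub_cancel] at h1
  calc (s.ncard : ℝ) ≤ (⌊Real.sqrt T⌋₊ : ℝ) := by exact_mod_cast h1
    _ ≤ _ := Nat.floor_le (Real.sqrt_nonneg T)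

private theorem cls_bounds (m a₀ b₀ : ℕ) (hm : 0 < m) (T : ℝ) (hT : 0 ≤ T) :
    ((DD (T / (m : ℝ) ^ 3)).ncard : ℝ) ≤
      (({p ∈ DD T | p.1 ≡ a₀ [MOD m] ∧ p.2 ≡ b₀ [MOD m]}.ncard : ℕ) : ℝ) ∧
    (({p ∈ DD T | p.1 ≡ a₀ [MOD m] ∧ p.2 ≡ b₀ [MOD m]}.ncard : ℕ) : ℝ) ≤
      ((DD (T / (m : ℝ) ^ 3)).ncard : ℝ) + 2 * Real.sqrt T := by
  obtain ⟨a₁, ha1, ham, ha⟩ := exists_rep m a₀ hm
  obtain ⟨b₁, hb1, hbm, hb⟩ := exists_rep m b₀ hm
  have hm0 : (0 : ℝ) < (m : ℝ) ^ 3 := by positivity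
  have hfin : {p ∈ DD T | p.1 ≡ a₀ [MOD m] ∧ p.2 ≡ b₀ [MOD m]}.Finite :=
    (DD_finite T).subset (Set.sep_subset _ _)
  constructor
  · have h1 : (DD (T / (m : ℝ) ^ 3)).ncard ≤
        {p ∈ DD T | p.1 ≡ a₀ [MOD m] ∧ p.2 ≡ b₀ [MOD m]}.ncard := by
      refine Set.ncard_le_ncard_of_injOn (fun p => (a₁ + m * (p.1 - 1), b₁ + m * (p.2 - 1)))
        ?_ ?_ hfin
      · rintro ⟨i, j⟩ ⟨hi, hj, hle⟩
        simp only at hi hj hle
        rw [le_div_iff₀ hm0] at hle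
        have h2 : a₁ + m * (i - 1) ≤ m * i := by
          obtain ⟨i', rfl⟩ : ∃ i', i = i' + 1 := ⟨i - 1, by omega⟩
          rw [Nat.add_sub_cancel, mul_add, mul_one]
          omega
        have h3 : b₁ + m * (j - 1) ≤ m * j := by
          obtain ⟨j', rfl⟩ : ∃ j', j = j' + 1 := ⟨j - 1, by omega⟩
          rw [Nat.add_sub_cancel, mul_add, mul_one]
          omega
        refine ⟨⟨?_, ?_, ?_⟩, ?_, ?_⟩
        · show 0 < a₁ + m * (i - 1)
          omega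
        · show 0 < b₁ + m * (j - 1)
          omega
        · show (((a₁ + m * (i - 1)) * (b₁ + m * (j - 1)) *
            ((a₁ + m * (i - 1)) + (b₁ + m * (j - 1))) : ℕ) : ℝ) ≤ T
          have h4 : (a₁ + m * (i - 1)) * (b₁ + m * (j - 1)) *
              ((a₁ + m * (i - 1)) + (b₁ + m * (j - 1))) ≤ (m * i) * (m * j) * (m * i + m * j) :=
            Nat.mul_le_mul (Nat.mul_le_mul h2 h3) (Nat.add_le_add h2 h3)
          calc (((a₁ + m * (i - 1)) * (b₁ + m * (j - 1)) *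
              ((a₁ + m * (i - 1)) + (b₁ + m * (j - 1))) : ℕ) : ℝ)
              ≤ (((m * i) * (m * j) * (m * i + m * j) : ℕ) : ℝ) := by exact_mod_cast h4
            _ = ((i * j * (i + j) : ℕ) : ℝ) * (m : ℝ) ^ 3 := by push_cast; ring
            _ ≤ T := hle
        · show a₁ + m * (i - 1) ≡ a₀ [MOD m]
          unfold Nat.ModEq
          rw [Nat.add_mul_mod_self_left]
          exact ha
        · show b₁ + m * (j - 1) ≡ b₀ [MOD m]
          unfold Nat.ModEq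
          rw [Nat.add_mul_mod_self_left]
          exact hb
      · rintro ⟨i, j⟩ ⟨hi, hj, -⟩ ⟨i', j'⟩ ⟨hi', hj', -⟩ h
        simp only [Prod.mk.injEq] at h hi hj hi' hj'
        have h5 : m * (i - 1) = m * (i' - 1) := by omega
        have h6 : m * (j - 1) = m * (j' - 1) := by omega
        have h7 := Nat.eq_of_mul_eq_mul_left hm h5
        have h8 := Nat.eq_of_mul_eq_mul_left hm h6
        have h9 : i = i' := by omega
        have h10 : j = j' := by omega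
        rw [h9, h10]
    exact_mod_cast h1
  · set S := {p ∈ DD T | p.1 ≡ a₀ [MOD m] ∧ p.2 ≡ b₀ [MOD m]} with hS
    have hrep : ∀ p ∈ S, (∃ i, p.1 = a₁ + m * i) ∧ (∃ j, p.2 = b₁ + m * j) := by
      rintro ⟨x, y⟩ ⟨⟨hx, hy, -⟩, h1, h2⟩
      exact ⟨rep_form ha1 ham hx (h1.trans ha.symm), rep_form hb1 hbm hy (h2.trans hb.symm)⟩
    have hsub : S ⊆ ({p ∈ S | m < p.1 ∧ m < p.2} ∪ {p ∈ S | p.1 = a₁}) ∪ {p ∈ S | p.2 = b₁} := by
      intro p hp
      obtain ⟨⟨i, hi⟩, ⟨j, hj⟩⟩ := hrep p hp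
      rcases Nat.eq_zero_or_pos i with h | h
      · left; right
        exact ⟨hp, by rw [hi, h]; simp⟩
      · rcases Nat.eq_zero_or_pos j with h' | h'
        · right
          exact ⟨hp, by rw [hj, h']; simp⟩
        · left; left
          refine ⟨hp, ?_, ?_⟩
          · have : m * 1 ≤ m * i := Nat.mul_le_mul_left m h
            omega
          · have : m * 1 ≤ m * j := Nat.mul_le_mul_left m h'
            omega
    have hSfin : S.Finite := hfin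
    have hA : {p ∈ S | m < p.1 ∧ m < p.2}.ncard ≤ (DD (T / (m : ℝ) ^ 3)).ncard := by
      refine Set.ncard_le_ncard_of_injOn (fun p => ((p.1 - a₁) / m, (p.2 - b₁) / m)) ?_ ?_
        (DD_finite _)
      · rintro p ⟨hp, h1, h2⟩
        obtain ⟨⟨i, hi⟩, ⟨j, hj⟩⟩ := hrep p hp
        have e1 : (p.1 - a₁) / m = i := by
          rw [hi, Nat.add_sub_cancel_left, Nat.mul_div_cancel_left _ hm]
        have e2 : (p.2 - b₁) / m = j := by
          rw [hj, Nat.add_sub_cancel_left, Nat.mul_div_cancel_left _ hm]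
        show ((p.1 - a₁) / m, (p.2 - b₁) / m) ∈ DD (T / (m : ℝ) ^ 3)
        rw [e1, e2]
        refine ⟨?_, ?_, ?_⟩
        · show 0 < i
          refine Nat.pos_of_ne_zero fun h0 => ?_
          rw [hi, h0] at h1
          omega
        · show 0 < j
          refine Nat.pos_of_ne_zero fun h0 => ?_
          rw [hj, h0] at h2
          omega
        · show ((i * j * (i + j) : ℕ) : ℝ) ≤ T / (m : ℝ) ^ 3
          rw [le_div_iff₀ hm0]
          have h3 := hp.1.2.2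
          have h4 : (m * i) * (m * j) * (m * i + m * j) ≤ p.1 * p.2 * (p.1 + p.2) := by
            rw [hi, hj]
            exact Nat.mul_le_mul (Nat.mul_le_mul (by omega) (by omega)) (by omega)
          calc ((i * j * (i + j) : ℕ) : ℝ) * (m : ℝ) ^ 3
              = (((m * i) * (m * j) * (m * i + m * j) : ℕ) : ℝ) := by push_cast; ring
            _ ≤ ((p.1 * p.2 * (p.1 + p.2) : ℕ) : ℝ) := by exact_mod_cast h4
            _ ≤ T := h3
      · rintro ⟨x, y⟩ ⟨hp, -, -⟩ ⟨x', y'⟩ ⟨hp', -, -⟩ h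
        obtain ⟨⟨i, hi⟩, ⟨j, hj⟩⟩ := hrep _ hp
        obtain ⟨⟨i', hi'⟩, ⟨j', hj'⟩⟩ := hrep _ hp'
        simp only at hi hj hi' hj'
        simp only [Prod.mk.injEq] at h
        rw [hi, hi', hj, hj'] at h
        simp only [Nat.add_sub_cancel_left, Nat.mul_div_cancel_left _ hm] at h
        rw [hi, hi', hj, hj', h.1, h.2]
    have hB : (({p ∈ S | p.1 = a₁}).ncard : ℝ) ≤ Real.sqrt T :=
      line_bound T hT a₁ _ (fun p hp => hp.1.1) (Or.inl fun p hp => hp.2)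
    have hC : (({p ∈ S | p.2 = b₁}).ncard : ℝ) ≤ Real.sqrt T :=
      line_bound T hT b₁ _ (fun p hp => hp.1.1) (Or.inr fun p hp => hp.2)
    have h5 : S.ncard ≤ {p ∈ S | m < p.1 ∧ m < p.2}.ncard + ({p ∈ S | p.1 = a₁}).ncard +
        ({p ∈ S | p.2 = b₁}).ncard := by
      refine (Set.ncard_le_ncard hsub ?_).trans ?_
      · exact ((hSfin.subset (Set.sep_subset _ _)).union (hSfin.subset (Set.sep_subset _ _))).union
          (hSfin.subset (Set.sep_subset _ _))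
      · refine (Set.ncard_union_le _ _).trans ?_
        have := Set.ncard_union_le {p ∈ S | m < p.1 ∧ m < p.2} {p ∈ S | p.1 = a₁}
        omega
    have h6 : (S.ncard : ℝ) ≤ ({p ∈ S | m < p.1 ∧ m < p.2}.ncard : ℝ) +
        (({p ∈ S | p.1 = a₁}).ncard : ℝ) + (({p ∈ S | p.2 = b₁}).ncard : ℝ) := by
      exact_mod_cast h5
    have h7 : ({p ∈ S | m < p.1 ∧ m < p.2}.ncard : ℝ) ≤ ((DD (T / (m : ℝ) ^ 3)).ncard : ℝ) := by
      exact_mod_cast hA
    linarith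

theorem cls_tendsto (m a₀ b₀ : ℕ) (hm : 0 < m) :
    Tendsto (fun T : ℝ => (({p ∈ DD T | p.1 ≡ a₀ [MOD m] ∧ p.2 ≡ b₀ [MOD m]}.ncard : ℕ) : ℝ) /
      T ^ (2 / 3 : ℝ)) atTop (𝓝 (AA / (m : ℝ) ^ 2)) := by
  have hm0 : (0 : ℝ) < (m : ℝ) := by exact_mod_cast hm
  have h1 : Tendsto (fun T : ℝ => T / (m : ℝ) ^ 3) atTop atTop :=
    tendsto_id.atTop_div_const (by positivity)
  have h2 : Tendsto (fun T : ℝ => ((DD (T / (m : ℝ) ^ 3)).ncard : ℝ) / T ^ (2 / 3 : ℝ)) atTop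
      (𝓝 (AA / (m : ℝ) ^ 2)) := by
    refine ((DD_tendsto.comp h1).div_const ((m : ℝ) ^ 2)).congr' ?_
    filter_upwards [eventually_gt_atTop (0 : ℝ)] with T hT
    simp only [Function.comp_apply]
    rw [rpow_cube hT.le hm0]
    have h3 : 0 < T ^ (2 / 3 : ℝ) := Real.rpow_pos_of_pos hT _
    field_simp
  have h4 : Tendsto (fun T : ℝ => 2 * T ^ (-(1 / 6) : ℝ)) atTop (𝓝 (2 * 0)) :=
    (tendsto_rpow_neg_atTop (by norm_num)).const_mul 2
  have h5 : Tendsto (fun T : ℝ => ((DD (T / (m : ℝ) ^ 3)).ncard : ℝ) / T ^ (2 / 3 : ℝ) +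
      2 * T ^ (-(1 / 6) : ℝ)) atTop (𝓝 (AA / (m : ℝ) ^ 2)) := by
    simpa using h2.add h4
  refine tendsto_of_tendsto_of_tendsto_of_le_of_le' h2 h5 ?_ ?_
  · filter_upwards [eventually_gt_atTop (0 : ℝ)] with T hT
    exact div_le_div_of_nonneg_right (cls_bounds m a₀ b₀ hm T hT.le).1
      (Real.rpow_nonneg hT.le _)
  · filter_upwards [eventually_gt_atTop (0 : ℝ)] with T hT
    have h6 := (cls_bounds m a₀ b₀ hm T hT.le).2
    have h7 : 0 < T ^ (2 / 3 : ℝ) := Real.rpow_pos_of_pos hT _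
    have h8 : Real.sqrt T = T ^ (-(1 / 6) : ℝ) * T ^ (2 / 3 : ℝ) := by
      rw [Real.sqrt_eq_rpow, ← Real.rpow_add hT]
      norm_num
    rw [div_le_iff₀ h7, add_mul, div_mul_cancel₀ _ h7.ne', mul_assoc, ← h8]
    exact h6

end AbcAsyQ
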