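import Pool.Agent.Work.MP_a793bb_nt.AsyQ.Cls

/-!
# Cop: coprime lattice points in residue classes  (size M-L)

PROOF. Let `N(T)` be the number of coprime pairs of `DD T` in the class `(a₀, b₀)` modulo `m`. By
`∑_{d ∣ n} μ(d) = [n = 1]` (`ArithmeticFunction.sum_moebius...`, `coe_zeta_mul_coe_moebius`)
`N(T) = ∑_d μ(d) N_d(T)`, `N_d(T)` = number of points of `DD T` in the class with `d ∣ a`, `d ∣ b`
(finite sum: `d ≤ a`, `d² ≤ T`; `d = 0` does not occur since `a > 0`). If `d` is not coprime to `m`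
then `N_d(T) = 0`: a common prime factor of `d` and `m` divides `a`, `b`, `m`, hence `a₀` and `b₀`,
contradicting `hg`. If `d ≥ 1` is coprime to `m`, the conditions `a ≡ a₀ (m)`, `d ∣ a` are one
residue class modulo `m d` (`Nat.chineseRemainder`), the same for `b`, so by `cls_tendsto` with
modulus `m d`: `N_d(T) / T ^ (2/3) → AA / (m d)²`. Also `0 ≤ N_d(T) / T ^ (2/3) ≤ AA / d²`
(`mult_bound`), so by `tendsto_tsum_of_dominated_convergence`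
`N(T) / T ^ (2/3) → ∑_{d coprime to m} μ(d) AA / (m d)² = AA / m² * cst m`.
-/

set_option autoImplicit false

open Filter Topology

namespace AbcAsyQ

namespace Copr

/-- points of the class whose coordinates are divisible by `d` -/
def NS (m a₀ b₀ d : ℕ) (T : ℝ) : Set (ℕ × ℕ) :=
  {p ∈ DD T | (p.1 ≡ a₀ [MOD m] ∧ p.2 ≡ b₀ [MOD m]) ∧ d ∣ p.1 ∧ d ∣ p.2}

theorem sum_moebius_dvd (n : ℕ) :
    ∑ d ∈ n.divisors, ((ArithmeticFunction.moebius d : ℤ) : ℝ) = if n = 1 then 1 else 0 := by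
  have h := congrArg (fun f : ArithmeticFunction ℝ => f n)
    (ArithmeticFunction.coe_zeta_mul_coe_moebius (R := ℝ))
  simp only [ArithmeticFunction.coe_zeta_mul_apply, ArithmeticFunction.one_apply,
    ArithmeticFunction.intCoe_apply] at h
  exact h

theorem NS_subset (m a₀ b₀ d : ℕ) (T : ℝ) :
    NS m a₀ b₀ d T ⊆ {p ∈ DD T | d ∣ p.1 ∧ d ∣ p.2} :=
  fun _ hp => ⟨hp.1, hp.2.2⟩

theorem NS_empty_of_lt {m a₀ b₀ d : ℕ} {T : ℝ} (h : ⌊T⌋₊ < d) : NS m a₀ b₀ d T = ∅ := by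
  ext p
  simp only [Set.mem_empty_iff_false, iff_false]
  rintro ⟨hp, -, h1, -⟩
  have h2 := (DCt.DD_le hp).1
  have h3 : p.1 ≤ ⌊T⌋₊ := Nat.le_floor h2
  have h4 := Nat.le_of_dvd hp.1 h1
  omega

theorem count_eq (m a₀ b₀ : ℕ) (T : ℝ) :
    (({p ∈ DD T | Nat.Coprime p.1 p.2 ∧ p.1 ≡ a₀ [MOD m] ∧ p.2 ≡ b₀ [MOD m]}.ncard : ℕ) : ℝ) =
      ∑' d : ℕ, ((ArithmeticFunction.moebius d : ℤ) : ℝ) * ((NS m a₀ b₀ d T).ncard : ℝ) := by
  classical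
  rw [tsum_eq_sum (s := Finset.range (⌊T⌋₊ + 1))]
  swap
  · intro d hd
    rw [Finset.mem_range] at hd
    rw [NS_empty_of_lt (by omega)]
    simp
  set S : Finset (ℕ × ℕ) := (DD_finite T).toFinset.filter
    (fun p => p.1 ≡ a₀ [MOD m] ∧ p.2 ≡ b₀ [MOD m]) with hS
  have h1 : {p ∈ DD T | Nat.Coprime p.1 p.2 ∧ p.1 ≡ a₀ [MOD m] ∧ p.2 ≡ b₀ [MOD m]} =
      ((S.filter (fun p => Nat.Coprime p.1 p.2) : Finset (ℕ × ℕ)) : Set (ℕ × ℕ)) := by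
    ext p
    simp only [hS, Set.mem_ofPred_eq, Finset.coe_filter, Finset.mem_filter,
      Set.Finite.mem_toFinset]
    tauto
  have h2 : ∀ d : ℕ, NS m a₀ b₀ d T =
      ((S.filter (fun p => d ∣ p.1 ∧ d ∣ p.2) : Finset (ℕ × ℕ)) : Set (ℕ × ℕ)) := by
    intro d
    ext p
    simp only [NS, hS, Set.mem_ofPred_eq, Finset.coe_filter, Finset.mem_filter,
      Set.Finite.mem_toFinset]
    tauto
  rw [h1, Set.ncard_coe_finset]
  have h3 : ∀ d : ℕ, ((ArithmeticFunction.moebius d : ℤ) : ℝ) * ((NS m a₀ b₀ d T).ncard : ℝ) =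
      ∑ p ∈ S, if d ∣ p.1 ∧ d ∣ p.2 then ((ArithmeticFunction.moebius d : ℤ) : ℝ) else 0 := by
    intro d
    rw [h2, Set.ncard_coe_finset, ← Finset.sum_filter, Finset.sum_const, nsmul_eq_mul, mul_comm]
  simp_rw [h3]
  rw [Finset.sum_comm, Finset.card_filter]
  push_cast
  apply Finset.sum_congr rfl
  intro p hp
  have hp1 : p ∈ DD T := by
    rw [hS, Finset.mem_filter, Set.Finite.mem_toFinset] at hp
    exact hp.1
  have hg : Nat.gcd p.1 p.2 ≠ 0 := by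
    intro h
    have := (Nat.gcd_eq_zero_iff.1 h).1
    have := hp1.1
    omega
  rw [← Finset.sum_filter]
  have h4 : (Finset.range (⌊T⌋₊ + 1)).filter (fun d => d ∣ p.1 ∧ d ∣ p.2) =
      (Nat.gcd p.1 p.2).divisors := by
    ext d
    simp only [Finset.mem_filter, Finset.mem_range, Nat.mem_divisors, Nat.dvd_gcd_iff]
    constructor
    · rintro ⟨-, h⟩
      exact ⟨h, hg⟩
    · rintro ⟨h, -⟩
      refine ⟨?_, h⟩
      have h5 := Nat.le_of_dvd hp1.1 h.1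
      have h6 : p.1 ≤ ⌊T⌋₊ := Nat.le_floor (DCt.DD_le hp1).1
      omega
  rw [h4, sum_moebius_dvd]

theorem NS_empty {m a₀ b₀ d : ℕ} (hg : Nat.gcd (Nat.gcd a₀ b₀) m = 1) (hd : ¬ Nat.Coprime d m)
    (T : ℝ) : NS m a₀ b₀ d T = ∅ := by
  ext p
  simp only [Set.mem_empty_iff_false, iff_false]
  rintro ⟨-, ⟨h1, h2⟩, h3, h4⟩
  obtain ⟨q, hq, hqd, hqm⟩ := Nat.Prime.not_coprime_iff_dvd.1 hd
  have e1 : q ∣ a₀ := (h1.dvd_iff hqm).1 (hqd.trans h3)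
  have e2 : q ∣ b₀ := (h2.dvd_iff hqm).1 (hqd.trans h4)
  have e3 : q ∣ Nat.gcd (Nat.gcd a₀ b₀) m := Nat.dvd_gcd (Nat.dvd_gcd e1 e2) hqm
  rw [hg] at e3
  exact hq.one_lt.ne' (Nat.dvd_one.1 e3)

theorem NS_cls {m a₀ b₀ d : ℕ} (hd : Nat.Coprime d m) :
    ∃ a₁ b₁, ∀ T : ℝ, NS m a₀ b₀ d T =
      {p ∈ DD T | p.1 ≡ a₁ [MOD m * d] ∧ p.2 ≡ b₁ [MOD m * d]} := by
  have key : ∀ a₀ : ℕ, ∃ a₁ : ℕ, ∀ a : ℕ, (a ≡ a₀ [MOD m] ∧ d ∣ a) ↔ a ≡ a₁ [MOD m * d] := by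
    intro a₀
    obtain ⟨a₁, h1, h2⟩ := Nat.chineseRemainder hd.symm a₀ 0
    refine ⟨a₁, fun a => ?_⟩
    rw [← Nat.modEq_and_modEq_iff_modEq_mul hd.symm, ← Nat.modEq_zero_iff_dvd]
    constructor
    · rintro ⟨h3, h4⟩
      exact ⟨h3.trans h1.symm, h4.trans h2.symm⟩
    · rintro ⟨h3, h4⟩
      exact ⟨h3.trans h1, h4.trans h2⟩
  obtain ⟨a₁, ha⟩ := key a₀
  obtain ⟨b₁, hb⟩ := key b₀
  refine ⟨a₁, b₁, fun T => ?_⟩
  ext p
  simp only [NS, Set.mem_ofPred_eq, ← ha, ← hb]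
  tauto

end Copr

open Copr

theorem cop_tendsto (m a₀ b₀ : ℕ) (hm : 0 < m) (hg : Nat.gcd (Nat.gcd a₀ b₀) m = 1) :
    Tendsto (fun T : ℝ => (({p ∈ DD T | Nat.Coprime p.1 p.2 ∧ p.1 ≡ a₀ [MOD m] ∧
      p.2 ≡ b₀ [MOD m]}.ncard : ℕ) : ℝ) / T ^ (2 / 3 : ℝ)) atTop
      (𝓝 (AA / (m : ℝ) ^ 2 * cst m)) := by
  have hm0 : (m : ℝ) ≠ 0 := by exact_mod_cast hm.ne'
  have e1 : (fun T : ℝ => (({p ∈ DD T | Nat.Coprime p.1 p.2 ∧ p.1 ≡ a₀ [MOD m] ∧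
      p.2 ≡ b₀ [MOD m]}.ncard : ℕ) : ℝ) / T ^ (2 / 3 : ℝ)) =
      fun T : ℝ => ∑' d : ℕ, ((ArithmeticFunction.moebius d : ℤ) : ℝ) *
        ((NS m a₀ b₀ d T).ncard : ℝ) / T ^ (2 / 3 : ℝ) := by
    funext T
    rw [count_eq, tsum_div_const]
  have e2 : AA / (m : ℝ) ^ 2 * cst m = ∑' d : ℕ, AA / (m : ℝ) ^ 2 *
      (if Nat.Coprime d m then ((ArithmeticFunction.moebius d : ℤ) : ℝ) / (d : ℝ) ^ 2 else 0) := by
    rw [tsum_mul_left]
    rfl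
  rw [e1, e2]
  apply tendsto_tsum_of_dominated_convergence (bound := fun d : ℕ => AA * (1 / (d : ℝ) ^ 2))
  · exact (Real.summable_one_div_nat_pow.2 (by norm_num)).mul_left AA
  · intro d
    rcases Nat.eq_zero_or_pos d with rfl | hd
    · simp
    by_cases hc : Nat.Coprime d m
    · obtain ⟨a₁, b₁, h⟩ := NS_cls (a₀ := a₀) (b₀ := b₀) hc
      have h1 := (cls_tendsto (m * d) a₁ b₁ (by positivity)).const_mul
        ((ArithmeticFunction.moebius d : ℤ) : ℝ)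
      simp only [if_pos hc, h]
      have hd0 : (d : ℝ) ≠ 0 := by exact_mod_cast hd.ne'
      have e3 : AA / (m : ℝ) ^ 2 * (((ArithmeticFunction.moebius d : ℤ) : ℝ) / (d : ℝ) ^ 2) =
          ((ArithmeticFunction.moebius d : ℤ) : ℝ) * (AA / ((m * d : ℕ) : ℝ) ^ 2) := by
        push_cast
        field_simp
      rw [e3]
      refine h1.congr (fun T => ?_)
      ring
    · simp only [if_neg hc, NS_empty hg hc]
      simp
  · filter_upwards [eventually_gt_atTop 0] with T hT d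
    have hT' : 0 < T ^ (2 / 3 : ℝ) := Real.rpow_pos_of_pos hT _
    rcases Nat.eq_zero_or_pos d with rfl | hd
    · simp
    have h1 : ((NS m a₀ b₀ d T).ncard : ℝ) ≤ AA * T ^ (2 / 3 : ℝ) / (d : ℝ) ^ 2 := by
      refine le_trans ?_ (mult_bound d hd T hT.le)
      exact_mod_cast Set.ncard_le_ncard (NS_subset m a₀ b₀ d T)
        ((DD_finite T).subset (Set.sep_subset _ _))
    have h2 : |((ArithmeticFunction.moebius d : ℤ) : ℝ)| ≤ 1 := by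
      have := ArithmeticFunction.abs_moebius_le_one (n := d)
      exact_mod_cast this
    rw [Real.norm_eq_abs, abs_div, abs_mul, abs_of_pos hT', Nat.abs_cast, div_le_iff₀ hT']
    calc |((ArithmeticFunction.moebius d : ℤ) : ℝ)| * ((NS m a₀ b₀ d T).ncard : ℝ)
        ≤ 1 * ((NS m a₀ b₀ d T).ncard : ℝ) :=
          mul_le_mul_of_nonneg_right h2 (Nat.cast_nonneg _)
      _ ≤ AA * T ^ (2 / 3 : ℝ) / (d : ℝ) ^ 2 := by rw [one_mul]; exact h1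
      _ = AA * (1 / (d : ℝ) ^ 2) * T ^ (2 / 3 : ℝ) := by ring

end AbcAsyQ
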