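import Pool.Agent.Work.MP_a793bb_nt.AsyQ.Alg

/-!
# Crt: `Phi` is multiplicative  (size M)

PROOF. `hh_mul`: `gcd(gcd(a, b), m n) = 1` iff both `gcd(gcd(a,b), m) = 1` and
`gcd(gcd(a,b), n) = 1`; `gcd(N, m n) = gcd(N, m) gcd(N, n)` for coprime `m, n`
(`Nat.Coprime.gcd_mul`) and the two factors are coprime, so `qq_mul` applies.
`hh_mod`: `hh m a b` only depends on `a mod m`, `b mod m`.
`Phi_mul`: the map `range (m n) → range m × range n`, `a ↦ (a mod m, a mod n)` is a bijection
(Chinese remainder theorem), for both variables; the double sum of `hh (m n)` is the product of the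
double sums of `hh m` and `hh n`. Useful: `Nat.chineseRemainder`, or `Finset.sum_bij'`, or pass to
`ZMod` with `ZMod.chineseRemainder`.
`Phi_QQ`: `QQ k = ∏ p ≤ k, p ^ (k + 1)`, induction over the set of primes (the factors are pairwise
coprime), `Phi 1 = 1`.
-/

set_option autoImplicit false

namespace AbcAsyQ

theorem hh_mul {m n : ℕ} (h : Nat.Coprime m n) (a b : ℕ) :
    hh (m * n) a b = hh m a b * hh n a b := by
  unfold hh
  have h1 : Nat.gcd (Nat.gcd a b) (m * n) = 1 ↔
      Nat.gcd (Nat.gcd a b) m = 1 ∧ Nat.gcd (Nat.gcd a b) n = 1 := Nat.coprime_mul_iff_right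
  by_cases hm : Nat.gcd (Nat.gcd a b) m = 1
  · by_cases hn : Nat.gcd (Nat.gcd a b) n = 1
    · rw [if_pos (h1.2 ⟨hm, hn⟩), if_pos hm, if_pos hn, Nat.Coprime.gcd_mul _ h, qq_mul,
        Nat.cast_mul, Real.mul_rpow (Nat.cast_nonneg _) (Nat.cast_nonneg _)]
      exact Nat.Coprime.coprime_dvd_left (Nat.gcd_dvd_right _ _)
        (Nat.Coprime.coprime_dvd_right (Nat.gcd_dvd_right _ _) h)
    · rw [if_neg (fun h2 => hn (h1.1 h2).2), if_neg hn, mul_zero]
  · rw [if_neg (fun h2 => hm (h1.1 h2).1), if_neg hm, zero_mul]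

theorem hh_mod {m a a' b b' : ℕ} (ha : a ≡ a' [MOD m]) (hb : b ≡ b' [MOD m]) :
    hh m a b = hh m a' b' := by
  unfold hh
  have h1 : Nat.gcd (Nat.gcd a b) m = Nat.gcd (Nat.gcd a' b') m := by
    rw [Nat.gcd_assoc, hb.gcd_eq, Nat.gcd_comm b' m, ← Nat.gcd_assoc, ha.gcd_eq, Nat.gcd_assoc,
      Nat.gcd_comm m b', ← Nat.gcd_assoc]
  have h2 : Nat.gcd (a * b * (a + b)) m = Nat.gcd (a' * b' * (a' + b')) m :=
    ((ha.mul hb).mul (ha.add hb)).gcd_eq
  simp only [h1, h2]

private theorem sum_crt {m n : ℕ} (hm : 0 < m) (hn : 0 < n) (h : Nat.Coprime m n)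
    (f : ℕ → ℕ → ℝ) : ∑ a ∈ Finset.range (m * n), f (a % m) (a % n) =
      ∑ x ∈ Finset.range m, ∑ y ∈ Finset.range n, f x y := by
  rw [← Finset.sum_product']
  refine Finset.sum_nbij' (fun a => (a % m, a % n))
    (fun q => ((Nat.chineseRemainder h q.1 q.2 : ℕ))) ?_ ?_ ?_ ?_ ?_
  · intro a _
    simp only [Finset.mem_product, Finset.mem_range]
    exact ⟨Nat.mod_lt _ hm, Nat.mod_lt _ hn⟩
  · intro q _
    rw [Finset.mem_range]
    exact Nat.chineseRemainder_lt_mul h _ _ hm.ne' hn.ne'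
  · intro a ha
    rw [Finset.mem_range] at ha
    have h1 : a ≡ (Nat.chineseRemainder h (a % m) (a % n) : ℕ) [MOD m * n] :=
      Nat.chineseRemainder_modEq_unique h (Nat.mod_modEq a m).symm (Nat.mod_modEq a n).symm
    exact (Nat.ModEq.eq_of_lt_of_lt h1 ha
      (Nat.chineseRemainder_lt_mul h _ _ hm.ne' hn.ne')).symm
  · intro q hq
    rw [Finset.mem_product, Finset.mem_range, Finset.mem_range] at hq
    have h1 := (Nat.chineseRemainder h q.1 q.2).2
    exact Prod.ext (Nat.mod_eq_of_modEq h1.1 hq.1) (Nat.mod_eq_of_modEq h1.2 hq.2)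
  · intro a _
    rfl

theorem Phi_mul {m n : ℕ} (hm : 0 < m) (hn : 0 < n) (h : Nat.Coprime m n) :
    Phi (m * n) = Phi m * Phi n := by
  unfold Phi
  have h1 : ∀ a b : ℕ, hh (m * n) a b = hh m (a % m) (b % m) * hh n (a % n) (b % n) := by
    intro a b
    rw [hh_mul h, hh_mod (Nat.mod_modEq a m).symm (Nat.mod_modEq b m).symm,
      hh_mod (Nat.mod_modEq a n).symm (Nat.mod_modEq b n).symm]
  have h2 : ∑ a ∈ Finset.range (m * n), ∑ b ∈ Finset.range (m * n), hh (m * n) a b =
      (∑ a ∈ Finset.range m, ∑ b ∈ Finset.range m, hh m a b) *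
        ∑ a ∈ Finset.range n, ∑ b ∈ Finset.range n, hh n a b := by
    calc ∑ a ∈ Finset.range (m * n), ∑ b ∈ Finset.range (m * n), hh (m * n) a b
        = ∑ a ∈ Finset.range (m * n), ∑ z ∈ Finset.range m, ∑ w ∈ Finset.range n,
            hh m (a % m) z * hh n (a % n) w := by
          refine Finset.sum_congr rfl fun a _ => ?_
          rw [← sum_crt hm hn h (fun z w => hh m (a % m) z * hh n (a % n) w)]
          exact Finset.sum_congr rfl fun b _ => h1 a b
      _ = ∑ x ∈ Finset.range m, ∑ y ∈ Finset.range n, ∑ z ∈ Finset.range m,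
            ∑ w ∈ Finset.range n, hh m x z * hh n y w :=
          sum_crt hm hn h (fun x y => ∑ z ∈ Finset.range m, ∑ w ∈ Finset.range n,
            hh m x z * hh n y w)
      _ = ∑ x ∈ Finset.range m, ∑ y ∈ Finset.range n,
            (∑ z ∈ Finset.range m, hh m x z) * ∑ w ∈ Finset.range n, hh n y w := by
          refine Finset.sum_congr rfl fun x _ => Finset.sum_congr rfl fun y _ => ?_
          rw [Finset.sum_mul_sum]
      _ = _ := by
          rw [Finset.sum_mul_sum]
  rw [h2]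
  push_cast
  rw [mul_pow, mul_div_mul_comm]

private theorem Phi_one : Phi 1 = 1 := by
  have h1 : qq 1 = 1 := by simp [qq]
  simp [Phi, hh, h1]

private theorem Phi_prod (k : ℕ) (S : Finset ℕ) (hS : ∀ p ∈ S, p.Prime) :
    Phi (∏ p ∈ S, p ^ (k + 1)) = ∏ p ∈ S, Phi (p ^ (k + 1)) := by
  classical
  induction S using Finset.induction_on with
  | empty => simp [Phi_one]
  | insert a S ha ih =>
    have hap := hS a (Finset.mem_insert_self a S)
    have hS' : ∀ p ∈ S, p.Prime := fun p hp => hS p (Finset.mem_insert_of_mem hp)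
    rw [Finset.prod_insert ha, Finset.prod_insert ha, Phi_mul, ih hS']
    · exact pow_pos hap.pos _
    · exact Finset.prod_pos fun p hp => pow_pos (hS' p hp).pos _
    · refine Nat.Coprime.prod_right fun p hp => ?_
      refine Nat.Coprime.pow _ _ ?_
      rw [Nat.coprime_primes hap (hS' p hp)]
      rintro rfl
      exact ha hp

theorem Phi_QQ (k : ℕ) :
    Phi (QQ k) = ∏ p ∈ (Finset.range (k + 1)).filter Nat.Prime, Phi (p ^ (k + 1)) := by
  rw [← Phi_prod k _ (fun p hp => (Finset.mem_filter.1 hp).2)]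
  unfold QQ primorial
  rw [Finset.prod_pow]

end AbcAsyQ
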