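import Pool.Agent.Work.MP_a793bb_nt.AsyQ.Area

/-!
# DCount: the number of lattice points of the region `x y (x + y) ≤ T`  (size M-L)

PROOF. Let `T > 0`, `τ = T ^ (1/3)`, `F x = τ fA (x / τ)` for `x > 0`. Then `x y (x + y) ≤ T` iff
`y ≤ F x` (for `x, y > 0`; `fA_spec` and monotonicity of `y ↦ x y (x + y)`), `F` is antitone on
`(0, ∞)`, `F x ≤ √(T / x)`, `F x ≤ T / x²` (`fA_le`), and `∫_0^∞ F = T ^ (2/3) AA` (linear
substitution, `integral_fA`). So `#DD T = ∑_{a ≥ 1} ⌊F a⌋`, where the terms with `a > √T` vanish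
(`F a ≤ T / a² < 1`). Let `N = ⌊√T⌋`. Upper bound: `∑_{a=1}^N F a ≤ ∫_0^N F ≤ T ^ (2/3) AA`
(`AntitoneOn.sum_le_integral` on `[1/n, N]`, or term by term `F a ≤ ∫_{a-1}^{a} F`).
Lower bound: `∑_{a=1}^N (F a - 1) ≥ ∫_1^{N+1} F - N ≥ T ^ (2/3) AA - ∫_0^1 F - ∫_{N+1}^∞ F - N`
`≥ T ^ (2/3) AA - 2 √T - √T - √T` (`∫_0^1 √(T/x) = 2 √T`, `∫_{√T}^∞ T / x² = √T`).
For `T < 2` the set is empty. `DD_bounds` gives the other two statements.
-/

set_option autoImplicit false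

open Filter Topology MeasureTheory

namespace AbcAsyQ

namespace DCt

theorem DD_le {T : ℝ} {p : ℕ × ℕ} (hp : p ∈ DD T) : (p.1 : ℝ) ≤ T ∧ (p.2 : ℝ) ≤ T := by
  obtain ⟨h1, h2, h3⟩ := hp
  have e1 : p.1 ≤ p.1 * p.2 * (p.1 + p.2) :=
    (Nat.le_mul_of_pos_right _ h2).trans (Nat.le_mul_of_pos_right _ (by omega))
  have e2 : p.2 ≤ p.1 * p.2 * (p.1 + p.2) :=
    (Nat.le_mul_of_pos_left _ h1).trans (Nat.le_mul_of_pos_right _ (by omega))
  exact ⟨le_trans (by exact_mod_cast e1) h3, le_trans (by exact_mod_cast e2) h3⟩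

end DCt

open DCt

theorem DD_finite (T : ℝ) : (DD T).Finite := by
  refine ((Set.finite_Iic ⌊T⌋₊).prod (Set.finite_Iic ⌊T⌋₊)).subset ?_
  intro p hp
  obtain ⟨h1, h2⟩ := DD_le hp
  exact ⟨Nat.le_floor h1, Nat.le_floor h2⟩

namespace DCt

/-- The positive `y` with `x y (x + y) = T`. -/
noncomputable def FT (T x : ℝ) : ℝ := T ^ (1 / 3 : ℝ) * fA (x / T ^ (1 / 3 : ℝ))

theorem tau_cube {T : ℝ} (hT : 0 < T) : (T ^ (1 / 3 : ℝ)) ^ 3 = T := by
  rw [← Real.rpow_natCast, ← Real.rpow_mul hT.le]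
  norm_num

theorem FT_spec {T x : ℝ} (hT : 0 < T) (hx : 0 < x) :
    0 < FT T x ∧ x * FT T x * (x + FT T x) = T := by
  have hτ : 0 < T ^ (1 / 3 : ℝ) := Real.rpow_pos_of_pos hT _
  obtain ⟨h1, h2⟩ := fA_spec (div_pos hx hτ)
  refine ⟨mul_pos hτ h1, ?_⟩
  have hx' : x = T ^ (1 / 3 : ℝ) * (x / T ^ (1 / 3 : ℝ)) := by field_simp
  have h3 := tau_cube hT
  unfold FT
  set τ := T ^ (1 / 3 : ℝ)
  set u := x / τ
  rw [hx']
  calc τ * u * (τ * fA u) * (τ * u + τ * fA u) = τ ^ 3 * (u * fA u * (u + fA u)) := by ring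
    _ = T := by rw [h2, h3, mul_one]

theorem FT_mem {T x y : ℝ} (hT : 0 < T) (hx : 0 < x) (hy : 0 < y) :
    x * y * (x + y) ≤ T ↔ y ≤ FT T x := by
  obtain ⟨h1, h2⟩ := FT_spec hT hx
  constructor
  · intro h
    by_contra hc
    push Not at hc
    have : x * FT T x * (x + FT T x) < x * y * (x + y) := by
      apply mul_lt_mul'' _ (by linarith) (by positivity) (by positivity)
      exact mul_lt_mul_of_pos_left hc hx
    linarith
  · intro h
    rw [← h2]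
    apply mul_le_mul _ (by linarith) (by positivity) (by positivity)
    exact mul_le_mul_of_nonneg_left h hx.le

theorem FT_anti {T : ℝ} (hT : 0 < T) : AntitoneOn (FT T) (Set.Ioi 0) := by
  intro x hx y hy hxy
  have hx' : 0 < x := hx
  have hy' : 0 < y := hy
  obtain ⟨h1, h2⟩ := FT_spec hT hy'
  rw [← FT_mem hT hx' h1]
  calc x * FT T y * (x + FT T y) ≤ y * FT T y * (y + FT T y) := by
        apply mul_le_mul _ (by linarith) (by positivity) (by positivity)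
        exact mul_le_mul_of_nonneg_right hxy h1.le
    _ = T := h2

theorem FT_le_sq {T x : ℝ} (hT : 0 < T) (hx : 0 < x) : FT T x ≤ T / x ^ 2 := by
  obtain ⟨h1, h2⟩ := FT_spec hT hx
  rw [le_div_iff₀ (by positivity)]
  nlinarith [mul_pos hx (mul_pos h1 h1)]

theorem FT_le_sqrt {T x : ℝ} (hT : 0 < T) (hx : 0 < x) :
    FT T x ≤ Real.sqrt T * x ^ (-(1 / 2) : ℝ) := by
  obtain ⟨h1, h2⟩ := FT_spec hT hx
  have h3 : x * FT T x ^ 2 ≤ T := by nlinarith [mul_pos (mul_pos hx hx) h1]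
  have h4 : x ^ (-(1 / 2) : ℝ) = (Real.sqrt x)⁻¹ := by
    rw [Real.rpow_neg hx.le, Real.sqrt_eq_rpow]
  rw [h4, ← div_eq_mul_inv, ← Real.sqrt_div' _ hx.le]
  apply Real.le_sqrt_of_sq_le
  rw [le_div_iff₀ hx]
  linarith

theorem FT_integrable {T : ℝ} (hT : 0 < T) : IntegrableOn (FT T) (Set.Ioi 0) := by
  have hτ : 0 < T ^ (1 / 3 : ℝ) := Real.rpow_pos_of_pos hT _
  have h := (integrableOn_Ioi_comp_mul_right_iff fA 0 (inv_pos.2 hτ)).2
    (by simpa using integrableOn_fA)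
  have := h.const_mul (T ^ (1 / 3 : ℝ))
  exact this

theorem FT_integral {T : ℝ} (hT : 0 < T) :
    ∫ x in Set.Ioi 0, FT T x = AA * T ^ (2 / 3 : ℝ) := by
  have hτ : 0 < T ^ (1 / 3 : ℝ) := Real.rpow_pos_of_pos hT _
  have h := integral_comp_mul_right_Ioi fA 0 (inv_pos.2 hτ)
  have e : T ^ (2 / 3 : ℝ) = T ^ (1 / 3 : ℝ) * T ^ (1 / 3 : ℝ) := by
    rw [← Real.rpow_add hT]; norm_num
  unfold FT
  rw [integral_const_mul]
  simp only [div_eq_mul_inv] at h ⊢
  rw [h]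
  simp only [zero_mul, inv_inv, smul_eq_mul]
  rw [integral_fA]
  simp only [div_eq_mul_inv] at e
  rw [e]
  ring

theorem FT_pos {T x : ℝ} (hT : 0 < T) (hx : 0 < x) : 0 < FT T x := (FT_spec hT hx).1

/-- the number of points as a sum -/
theorem DD_card {T : ℝ} (hT : 0 < T) :
    (DD T).ncard = ∑ a ∈ Finset.Icc 1 ⌊Real.sqrt T⌋₊, ⌊FT T a⌋₊ := by
  have h : DD T = ((Finset.Icc 1 ⌊Real.sqrt T⌋₊).sigma
      (fun a : ℕ => Finset.Icc 1 ⌊FT T a⌋₊)).map
        ⟨fun p : (_ : ℕ) × ℕ => (p.1, p.2), fun p q hpq => by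
          simp only [Prod.mk.injEq] at hpq
          exact Sigma.ext hpq.1 (heq_of_eq hpq.2)⟩ := by
    ext ⟨a, b⟩
    simp only [DD, Set.mem_ofPred_eq, Finset.coe_map, Set.mem_image, Finset.mem_coe,
      Finset.mem_sigma, Finset.mem_Icc]
    constructor
    · rintro ⟨ha, hb, hab⟩
      have ha' : (0 : ℝ) < a := by exact_mod_cast ha
      have hb' : (0 : ℝ) < b := by exact_mod_cast hb
      push_cast at hab
      have h1 : (b : ℝ) ≤ FT T a := (FT_mem hT ha' hb').1 hab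
      have hb1 : (1 : ℝ) ≤ b := by exact_mod_cast hb
      have h2 : (a : ℝ) ≤ Real.sqrt T := by
        apply Real.le_sqrt_of_sq_le
        nlinarith [mul_pos ha' hb', mul_pos ha' (mul_pos hb' hb'), mul_pos ha' ha']
      exact ⟨⟨a, b⟩, ⟨⟨ha, Nat.le_floor h2⟩, hb, Nat.le_floor h1⟩, rfl⟩
    · rintro ⟨⟨a', b'⟩, ⟨⟨ha, ha2⟩, hb, hb2⟩, h⟩
      obtain ⟨rfl, rfl⟩ := Prod.mk.inj h
      simp only at ha ha2 hb hb2 ⊢
      have ha' : (0 : ℝ) < a' := by exact_mod_cast ha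
      have hb' : (0 : ℝ) < b' := by exact_mod_cast hb
      refine ⟨ha, hb, ?_⟩
      push_cast
      rw [FT_mem hT ha' hb']
      exact (Nat.le_floor_iff (FT_pos hT ha').le).1 hb2
  rw [h, Set.ncard_coe_finset, Finset.card_map, Finset.card_sigma]
  simp

theorem FT_intervalIntegrable {T a b : ℝ} (hT : 0 < T) (ha : 0 ≤ a) (hb : 0 ≤ b) :
    IntervalIntegrable (FT T) volume a b := by
  constructor
  · exact (FT_integrable hT).mono_set (fun x hx => lt_of_le_of_lt ha hx.1)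
  · exact (FT_integrable hT).mono_set (fun x hx => lt_of_le_of_lt hb hx.1)

theorem FT_upper_term {T : ℝ} (hT : 0 < T) (k : ℕ) :
    FT T ((k + 1 : ℕ) : ℝ) ≤ ∫ x in (k : ℝ)..((k + 1 : ℕ) : ℝ), FT T x := by
  have h1 : ∫ _x in (k : ℝ)..((k + 1 : ℕ) : ℝ), FT T ((k + 1 : ℕ) : ℝ) =
      FT T ((k + 1 : ℕ) : ℝ) := by
    rw [intervalIntegral.integral_const]
    push_cast
    simp
  rw [← h1]
  apply intervalIntegral.integral_mono_on_of_le_Ioo (by push_cast; linarith)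
  · exact intervalIntegrable_const
  · exact FT_intervalIntegrable hT (by positivity) (by positivity)
  · intro x hx
    have hx0 : (0 : ℝ) < x := lt_of_le_of_lt (by positivity) hx.1
    exact FT_anti hT hx0 (by show (0 : ℝ) < _; positivity) hx.2.le

theorem FT_split {T a : ℝ} (hT : 0 < T) (ha : 0 ≤ a) :
    (∫ x in (0 : ℝ)..a, FT T x) + ∫ x in Set.Ioi a, FT T x = AA * T ^ (2 / 3 : ℝ) := by
  rw [← FT_integral hT]
  exact intervalIntegral.integral_interval_add_Ioi (FT_integrable hT)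
    ((FT_integrable hT).mono_set (Set.Ioi_subset_Ioi ha))

theorem FT_tail_nonneg {T a : ℝ} (hT : 0 < T) (ha : 0 ≤ a) :
    0 ≤ ∫ x in Set.Ioi a, FT T x := by
  apply setIntegral_nonneg measurableSet_Ioi
  intro x hx
  exact (FT_pos hT (lt_of_le_of_lt ha hx)).le

theorem FT_tail_le {T a : ℝ} (hT : 0 < T) (ha : 0 < a) :
    ∫ x in Set.Ioi a, FT T x ≤ T / a := by
  have h1 : ∫ x in Set.Ioi a, T * x ^ (-2 : ℝ) = T / a := by
    rw [integral_const_mul, integral_Ioi_rpow_of_lt (by norm_num) ha]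
    norm_num
    rw [Real.rpow_neg_one]
    rfl
  rw [← h1]
  apply setIntegral_mono_on
  · exact (FT_integrable hT).mono_set (Set.Ioi_subset_Ioi ha.le)
  · exact (integrableOn_Ioi_rpow_of_lt (by norm_num) ha).const_mul T
  · exact measurableSet_Ioi
  · intro x hx
    have hx0 : 0 < x := lt_trans ha hx
    have := FT_le_sq hT hx0
    rw [Real.rpow_neg hx0.le, ← div_eq_mul_inv]
    norm_cast at *

theorem FT_head_le {T : ℝ} (hT : 0 < T) :
    ∫ x in (0 : ℝ)..1, FT T x ≤ 2 * Real.sqrt T := by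
  have h1 : ∫ x in (0 : ℝ)..1, Real.sqrt T * x ^ (-(1 / 2) : ℝ) = 2 * Real.sqrt T := by
    rw [intervalIntegral.integral_const_mul, integral_rpow (Or.inl (by norm_num))]
    norm_num
    ring
  rw [← h1]
  apply intervalIntegral.integral_mono_on_of_le_Ioo (by norm_num)
  · exact FT_intervalIntegrable hT le_rfl (by norm_num)
  · exact (intervalIntegral.intervalIntegrable_rpow' (by norm_num)).const_mul _
  · intro x hx
    exact FT_le_sqrt hT hx.1

end DCt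

theorem DD_bounds (T : ℝ) (hT : 0 < T) :
    AA * T ^ (2 / 3 : ℝ) - 4 * Real.sqrt T ≤ ((DD T).ncard : ℝ) ∧
      ((DD T).ncard : ℝ) ≤ AA * T ^ (2 / 3 : ℝ) := by
  set N := ⌊Real.sqrt T⌋₊ with hN
  have hs : 0 < Real.sqrt T := Real.sqrt_pos.2 hT
  have hNle : (N : ℝ) ≤ Real.sqrt T := Nat.floor_le hs.le
  have hNlt : Real.sqrt T < (N : ℝ) + 1 := Nat.lt_floor_add_one _
  have hsum : ∀ f : ℕ → ℝ, ∑ a ∈ Finset.Icc 1 N, f a = ∑ i ∈ Finset.range N, f (i + 1) := by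
    intro f
    rw [Finset.range_eq_Ico, Finset.sum_Ico_add' f 0 N 1]
    rfl
  rw [DD_card hT]
  push_cast
  rw [hsum]
  constructor
  · have h1 : ∫ x in (1 : ℝ)..(1 + (N : ℝ)), FT T x ≤
        ∑ i ∈ Finset.range N, FT T (1 + (i : ℝ)) := by
      apply AntitoneOn.integral_le_sum
      exact (FT_anti hT).mono (fun x hx => lt_of_lt_of_le one_pos hx.1)
    have h2 : ∑ i ∈ Finset.range N, (FT T (1 + (i : ℝ)) - 1) ≤
        ∑ i ∈ Finset.range N, (⌊FT T ((i + 1 : ℕ) : ℝ)⌋₊ : ℝ) := by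
      apply Finset.sum_le_sum
      intro i _
      have := Nat.lt_floor_add_one (FT T ((i + 1 : ℕ) : ℝ))
      have e : (1 + (i : ℝ)) = ((i + 1 : ℕ) : ℝ) := by push_cast; ring
      rw [e]
      linarith
    rw [Finset.sum_sub_distrib] at h2
    simp only [Finset.sum_const, Finset.card_range, nsmul_eq_mul, mul_one] at h2
    have h3 := FT_split hT (a := 1 + (N : ℝ)) (by positivity)
    have h4 : (∫ x in (0 : ℝ)..1, FT T x) + ∫ x in (1 : ℝ)..(1 + (N : ℝ)), FT T x =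
        ∫ x in (0 : ℝ)..(1 + (N : ℝ)), FT T x :=
      intervalIntegral.integral_add_adjacent_intervals
        (FT_intervalIntegrable hT le_rfl (by norm_num))
        (FT_intervalIntegrable hT (by norm_num) (by positivity))
    have h5 := FT_head_le hT
    have h6 := FT_tail_le hT (a := 1 + (N : ℝ)) (by positivity)
    have h7 : T / (1 + (N : ℝ)) ≤ Real.sqrt T := by
      rw [div_le_iff₀ (by positivity)]
      nlinarith [Real.mul_self_sqrt hT.le]
    linarith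
  · have h1 : ∑ i ∈ Finset.range N, (⌊FT T ((i + 1 : ℕ) : ℝ)⌋₊ : ℝ) ≤
        ∑ i ∈ Finset.range N, ∫ x in ((i : ℕ) : ℝ)..((i + 1 : ℕ) : ℝ), FT T x := by
      apply Finset.sum_le_sum
      intro i _
      exact (Nat.floor_le (FT_pos hT (by positivity)).le).trans (FT_upper_term hT i)
    have h2 : ∑ i ∈ Finset.range N, ∫ x in ((i : ℕ) : ℝ)..((i + 1 : ℕ) : ℝ), FT T x =
        ∫ x in ((0 : ℕ) : ℝ)..((N : ℕ) : ℝ), FT T x := by
      apply intervalIntegral.sum_integral_adjacent_intervals (a := fun i : ℕ => (i : ℝ))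
      intro k _
      exact FT_intervalIntegrable hT (by positivity) (by positivity)
    have h3 := FT_split hT (a := (N : ℝ)) (by positivity)
    have h4 := FT_tail_nonneg hT (a := (N : ℝ)) (by positivity)
    rw [h2, Nat.cast_zero] at h1
    linarith

theorem DD_tendsto :
    Tendsto (fun T : ℝ => ((DD T).ncard : ℝ) / T ^ (2 / 3 : ℝ)) atTop (𝓝 AA) := by
  have h1 : Tendsto (fun T : ℝ => AA - 4 * T ^ (-(1 / 6) : ℝ)) atTop (𝓝 AA) := by
    have := (tendsto_rpow_neg_atTop (y := 1 / 6) (by norm_num)).const_mul (4 : ℝ)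
    simpa using this.const_sub AA
  refine tendsto_of_tendsto_of_tendsto_of_le_of_le' h1 tendsto_const_nhds ?_ ?_
  · filter_upwards [eventually_gt_atTop 0] with T hT
    rw [le_div_iff₀ (Real.rpow_pos_of_pos hT _)]
    have h2 := (DD_bounds T hT).1
    have h3 : T ^ (-(1 / 6) : ℝ) * T ^ (2 / 3 : ℝ) = Real.sqrt T := by
      rw [← Real.rpow_add hT, Real.sqrt_eq_rpow]; norm_num
    calc (AA - 4 * T ^ (-(1 / 6) : ℝ)) * T ^ (2 / 3 : ℝ)
        = AA * T ^ (2 / 3 : ℝ) - 4 * (T ^ (-(1 / 6) : ℝ) * T ^ (2 / 3 : ℝ)) := by ring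
      _ = AA * T ^ (2 / 3 : ℝ) - 4 * Real.sqrt T := by rw [h3]
      _ ≤ _ := h2
  · filter_upwards [eventually_gt_atTop 0] with T hT
    rw [div_le_iff₀ (Real.rpow_pos_of_pos hT _)]
    exact (DD_bounds T hT).2

end AbcAsyQ
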