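import Mathlib

/-!
# Asymptotic formula for the number of abc triples ordered by radical: definitions

THEOREM (Final). `#{(a, b) coprime positive : rad (a b (a + b)) ≤ R} ~ κ R ^ (2 / 3)` with
`κ = AA * ∏ E p`, `AA = Γ(1/3)^2 / (2 Γ(2/3)) = (1/2) B(1/3, 1/3)` and
`E p = (1 - 1/p) (1 - 2/p) + 3 (1 - 1/p)^2 / (p (1 - p ^ (-1/3)))`.

Plan. `n = rd n * qq n`, so the condition is `a b (a + b) ≤ R qq(a b (a + b))`. For a parameter
`k` the set `SolK k R` uses only the part of `qq` at the primes `p ≤ k` with exponents capped at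
`k`; it is a subset of `Sol R`, and it is a union of residue classes modulo `QQ k`, so that its
size is asymptotic to `kap k * R ^ (2 / 3)` (modules DSum, Area, DCount, Cls, Cop, SK).
`kap k → κ` (modules Crt, LocP, EulL). The difference `Sol R \ SolK k R` consists of pairs with
`a + b > R ^ (2 / 5)` (module High, from the theorem on the points ordered by radical) and of pairs
with `a + b ≤ R ^ (2 / 5)` one of whose squarefull parts is `> k` (modules SqSum, Box, Tail).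
-/

set_option autoImplicit false

namespace AbcAsyQ

open Filter Topology

/-- The radical of a natural number. -/
def rd (n : ℕ) : ℕ := ∏ p ∈ n.primeFactors, p

/-- `n / rad n`. -/
def qq (n : ℕ) : ℕ := ∏ p ∈ n.primeFactors, p ^ (n.factorization p - 1)

/-- Pairs of positive integers with `a b (a + b) ≤ T`. -/
def DD (T : ℝ) : Set (ℕ × ℕ) :=
  {p | 0 < p.1 ∧ 0 < p.2 ∧ ((p.1 * p.2 * (p.1 + p.2) : ℕ) : ℝ) ≤ T}

/-- The area of `{x, y > 0, x y (x + y) ≤ 1}`. -/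
noncomputable def AA : ℝ := Real.Gamma (1 / 3) ^ 2 / (2 * Real.Gamma (2 / 3))

/-- The modulus `(∏ p ≤ k, p) ^ (k + 1)`. -/
def QQ (k : ℕ) : ℕ := (primorial k) ^ (k + 1)

/-- All coprime pairs with `rad (a b (a + b)) ≤ R`. -/
def Sol (R : ℝ) : Set (ℕ × ℕ) :=
  {p | 0 < p.1 ∧ 0 < p.2 ∧ Nat.Coprime p.1 p.2 ∧ (rd (p.1 * p.2 * (p.1 + p.2)) : ℝ) ≤ R}

/-- The approximating set: only the primes `p ≤ k`, with capped exponents, are used in `qq`. -/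
def SolK (k : ℕ) (R : ℝ) : Set (ℕ × ℕ) :=
  {p | 0 < p.1 ∧ 0 < p.2 ∧ Nat.Coprime p.1 p.2 ∧ ((p.1 * p.2 * (p.1 + p.2) : ℕ) : ℝ) ≤
    R * (qq (Nat.gcd (p.1 * p.2 * (p.1 + p.2)) (QQ k)) : ℝ)}

/-- Weight of a pair of residues modulo `m`. -/
noncomputable def hh (m a b : ℕ) : ℝ :=
  if Nat.gcd (Nat.gcd a b) m = 1 then (qq (Nat.gcd (a * b * (a + b)) m) : ℝ) ^ (2 / 3 : ℝ) else 0

/-- Mean value of `hh m`. -/
noncomputable def Phi (m : ℕ) : ℝ :=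
  (∑ a ∈ Finset.range m, ∑ b ∈ Finset.range m, hh m a b) / (m : ℝ) ^ 2

/-- `∏ (1 - p^(-2))` over the primes not dividing `m`, as a sum. -/
noncomputable def cst (m : ℕ) : ℝ :=
  ∑' d : ℕ, if Nat.Coprime d m then (ArithmeticFunction.moebius d : ℝ) / (d : ℝ) ^ 2 else 0

/-- The constant of `SolK k`. -/
noncomputable def kap (k : ℕ) : ℝ := AA * Phi (QQ k) * cst (QQ k)

/-- The Euler factor with exponents capped at `k`. -/
noncomputable def EpK (p k : ℕ) : ℝ :=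
  (1 - 1 / (p : ℝ)) * (1 - 2 / (p : ℝ)) +
    3 * (1 - 1 / (p : ℝ)) ^ 2 *
      (∑ e ∈ Finset.range k, (p : ℝ) ^ (-((e : ℝ) + 1)) * (p : ℝ) ^ (2 * (e : ℝ) / 3)) +
    3 * (1 - 1 / (p : ℝ)) * (p : ℝ) ^ (-((k : ℝ) + 1)) * (p : ℝ) ^ (2 * (k : ℝ) / 3)

/-- The Euler factor. -/
noncomputable def Ep (p : ℕ) : ℝ :=
  (1 - 1 / (p : ℝ)) * (1 - 2 / (p : ℝ)) +
    3 * (1 - 1 / (p : ℝ)) ^ 2 / ((p : ℝ) * (1 - (p : ℝ) ^ (-(1 / 3) : ℝ)))

/-- Squarefull numbers. -/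
def SQ (s : ℕ) : Prop := s ≠ 0 ∧ ∀ p : ℕ, p.Prime → p ∣ s → p ^ 2 ∣ s

/-- The squarefull part of `n`. -/
def sf (n : ℕ) : ℕ :=
  ∏ p ∈ n.primeFactors.filter (fun p => p ^ 2 ∣ n), p ^ (n.factorization p)

/-- The positive solution `y` of `x y (x + y) = 1`. -/
noncomputable def fA (x : ℝ) : ℝ := (-x + Real.sqrt (x ^ 2 + 4 / x)) / 2

open Classical in
/-- The weight `q(s)^(2/3) / s` on squarefull numbers. -/
noncomputable def ww (s : ℕ) : ℝ := if SQ s then (qq s : ℝ) ^ (2 / 3 : ℝ) / (s : ℝ) else 0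

/-- Pairs in the dyadic box `[U, 2U) × [V, 2V)` with `s₁ ∣ a`, `s₂ ∣ b`, `s₃ ∣ a + b`. -/
def Box (s₁ s₂ s₃ U V : ℕ) : Set (ℕ × ℕ) :=
  {p | U ≤ p.1 ∧ p.1 < 2 * U ∧ V ≤ p.2 ∧ p.2 < 2 * V ∧ s₁ ∣ p.1 ∧ s₂ ∣ p.2 ∧ s₃ ∣ p.1 + p.2}

/-- The tail of the sum of `ww`. -/
noncomputable def tl (k : ℕ) : ℝ := ∑' s : ℕ, if k < s then ww s else 0

end AbcAsyQ
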