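import Mathlib

/-!
# Dyad: two dyadic sums  (size S-M)

PROOF. `dyadic_sum`: put `j = i + d`. For fixed `d` the terms with `2 ^ (3 i + 2 d) ≤ T` are
`2 ^ (2 i + d)`, a geometric progression of ratio `4`, so their sum is at most `4/3` times the last
one, and the last one is `(2 ^ (3 i + 2 d)) ^ (2/3) 2 ^ (-d/3) ≤ T ^ (2/3) 2 ^ (-d/3)`. Sum over
`d ≥ 0`: `(4/3) / (1 - 2 ^ (-1/3)) < 8` (`2 ^ (-1/3) < 4/5`: `1 / (1 - 4/5) = 5`, `20/3 < 8`).
`dyadic_sum2`: `2 ^ (i + 2 j) ^ (11/20)`, `i, j < N`, is a product of two geometric sums, the first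
`≤ 2 ^ (11 N / 20) / (2 ^ (11/20) - 1) ≤ 3 * 2 ^ (11 N / 20)`, the second
`≤ 4 ^ (11 N / 20) / (4 ^ (11/20) - 1) ≤ 4 ^ (11 N / 20)`; the product is at most
`3 * (2 ^ N) ^ (33/20)`.
-/

set_option autoImplicit false

namespace AbcAsyQ

private theorem geo_trunc (r X : ℝ) (hr : 1 < r) (hX : 0 ≤ X) (N : ℕ) :
    ∑ i ∈ Finset.range N, (if r ^ i ≤ X then r ^ i else 0) ≤ r * X / (r - 1) := by
  have hr1 : 0 < r - 1 := by linarith
  have h : ∑ i ∈ Finset.range N, (if r ^ i ≤ X then r ^ i else 0) ≤ r ^ N / (r - 1) ∧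
      ∑ i ∈ Finset.range N, (if r ^ i ≤ X then r ^ i else 0) ≤ r * X / (r - 1) := by
    induction N with
    | zero =>
      simp only [Finset.range_zero, Finset.sum_empty]
      exact ⟨by positivity, by positivity⟩
    | succ N ih =>
      obtain ⟨h1, h2⟩ := ih
      rw [Finset.sum_range_succ]
      by_cases hc : r ^ N ≤ X
      · rw [if_pos hc]
        have h3 : r ^ N / (r - 1) + r ^ N = r ^ (N + 1) / (r - 1) := by
          field_simp
          ring
        have h4 : r ^ (N + 1) / (r - 1) ≤ r * X / (r - 1) := by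
          apply div_le_div_of_nonneg_right _ hr1.le
          rw [pow_succ, mul_comm]
          exact mul_le_mul_of_nonneg_left hc (by linarith)
        exact ⟨by linarith, by linarith⟩
      · rw [if_neg hc, add_zero]
        refine ⟨h1.trans ?_, h2⟩
        apply div_le_div_of_nonneg_right _ hr1.le
        exact pow_le_pow_right₀ hr.le (Nat.le_succ N)
  exact h.2

theorem dyadic_sum (T : ℝ) (hT : 0 ≤ T) (N : ℕ) :
    ∑ i ∈ Finset.range N, ∑ j ∈ Finset.range N,
      (if i ≤ j ∧ (2 : ℝ) ^ (i + 2 * j) ≤ T then (2 : ℝ) ^ (i + j) else 0) ≤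
        8 * T ^ (2 / 3 : ℝ) := by
  set t : ℝ := T ^ (1 / 6 : ℝ) with ht
  have ht0 : 0 ≤ t := Real.rpow_nonneg hT _
  have ht6 : T = t ^ 6 := by
    rw [ht, ← Real.rpow_natCast, ← Real.rpow_mul hT]
    norm_num
  have ht4 : T ^ (2 / 3 : ℝ) = t ^ 4 := by
    rw [ht, ← Real.rpow_natCast, ← Real.rpow_mul hT]
    norm_num
  set s : ℝ := Real.sqrt 2 with hs
  have hs2 : s ^ 2 = 2 := Real.sq_sqrt (by norm_num)
  have hs0 : 0 < s := Real.sqrt_pos.2 (by norm_num)
  have hs43 : 4 / 3 ≤ s := by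
    rw [hs]
    exact Real.le_sqrt_of_sq_le (by norm_num)
  have hs1 : 1 < s := by linarith
  have key : ∀ i j : ℕ,
      (if i ≤ j ∧ (2 : ℝ) ^ (i + 2 * j) ≤ T then (2 : ℝ) ^ (i + j) else 0) ≤
        (if s ^ i ≤ t then s ^ (2 * i) * (if (2 : ℝ) ^ j ≤ t ^ 3 / s ^ i then (2 : ℝ) ^ j else 0)
          else 0) := by
    intro i j
    by_cases hc : i ≤ j ∧ (2 : ℝ) ^ (i + 2 * j) ≤ T
    · rw [if_pos hc]
      obtain ⟨hij, hle⟩ := hc
      have h1 : (s ^ (i + 2 * j)) ^ 2 ≤ (t ^ 3) ^ 2 := by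
        rw [← pow_mul, mul_comm (i + 2 * j) 2, pow_mul, hs2, ← pow_mul]
        rw [ht6] at hle
        exact hle
      have h2 : s ^ (i + 2 * j) ≤ t ^ 3 := by
        exact (pow_le_pow_iff_left₀ (by positivity) (by positivity) (by norm_num)).1 h1
      have h3 : s ^ i ≤ t := by
        refine (pow_le_pow_iff_left₀ (n := 3) (by positivity) ht0 (by norm_num)).1 ?_
        refine le_trans ?_ h2
        rw [← pow_mul]
        exact pow_le_pow_right₀ hs1.le (by omega)
      have h4 : (2 : ℝ) ^ j ≤ t ^ 3 / s ^ i := by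
        rw [le_div_iff₀ (by positivity)]
        refine le_trans (le_of_eq ?_) h2
        rw [pow_add, pow_mul, hs2, mul_comm]
      rw [if_pos h3, if_pos h4, pow_add]
      refine le_of_eq ?_
      rw [pow_mul, hs2]
    · rw [if_neg hc]
      split_ifs <;> positivity
  calc ∑ i ∈ Finset.range N, ∑ j ∈ Finset.range N,
        (if i ≤ j ∧ (2 : ℝ) ^ (i + 2 * j) ≤ T then (2 : ℝ) ^ (i + j) else 0)
      ≤ ∑ i ∈ Finset.range N, ∑ j ∈ Finset.range N,
        (if s ^ i ≤ t then s ^ (2 * i) * (if (2 : ℝ) ^ j ≤ t ^ 3 / s ^ i then (2 : ℝ) ^ j else 0)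
          else 0) := Finset.sum_le_sum fun i _ => Finset.sum_le_sum fun j _ => key i j
    _ ≤ ∑ i ∈ Finset.range N, (2 * t ^ 3) * (if s ^ i ≤ t then s ^ i else 0) := by
        refine Finset.sum_le_sum fun i _ => ?_
        by_cases hc : s ^ i ≤ t
        · simp only [if_pos hc]
          rw [← Finset.mul_sum]
          have h1 := geo_trunc 2 (t ^ 3 / s ^ i) (by norm_num) (by positivity) N
          have h2 : s ^ (2 * i) * (2 * (t ^ 3 / s ^ i) / (2 - 1)) = 2 * t ^ 3 * s ^ i := by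
            rw [two_mul i, pow_add]
            field_simp
            ring
          calc s ^ (2 * i) * _ ≤ s ^ (2 * i) * (2 * (t ^ 3 / s ^ i) / (2 - 1)) :=
                mul_le_mul_of_nonneg_left h1 (by positivity)
            _ = _ := h2
        · simp only [if_neg hc]
          simp
    _ = (2 * t ^ 3) * ∑ i ∈ Finset.range N, (if s ^ i ≤ t then s ^ i else 0) :=
        (Finset.mul_sum _ _ _).symm
    _ ≤ (2 * t ^ 3) * (s * t / (s - 1)) :=
        mul_le_mul_of_nonneg_left (geo_trunc s t hs1 ht0 N) (by positivity)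
    _ ≤ (2 * t ^ 3) * (4 * t) := by
        refine mul_le_mul_of_nonneg_left ?_ (by positivity)
        rw [div_le_iff₀ (by linarith)]
        nlinarith
    _ = 8 * T ^ (2 / 3 : ℝ) := by rw [ht4]; ring

theorem dyadic_sum2 (N : ℕ) :
    ∑ i ∈ Finset.range N, ∑ j ∈ Finset.range N, ((2 : ℝ) ^ (i + 2 * j)) ^ (11 / 20 : ℝ) ≤
      3 * ((2 : ℝ) ^ N) ^ (33 / 20 : ℝ) := by
  set r : ℝ := (2 : ℝ) ^ (11 / 20 : ℝ) with hr
  have hr0 : 0 < r := Real.rpow_pos_of_pos (by norm_num) _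
  have hpow : ∀ n : ℕ, ((2 : ℝ) ^ n) ^ (11 / 20 : ℝ) = r ^ n := by
    intro n
    rw [hr, ← Real.rpow_natCast, ← Real.rpow_natCast, ← Real.rpow_mul (by norm_num),
      ← Real.rpow_mul (by norm_num), mul_comm]
  have h43 : 4 / 3 ≤ r := by
    have h1 : ((4 / 3 : ℝ) ^ 20) ≤ r ^ 20 := by
      have : r ^ 20 = 2 ^ 11 := by
        rw [hr, ← Real.rpow_natCast, ← Real.rpow_mul (by norm_num)]
        norm_num
      rw [this]
      norm_num
    exact (pow_le_pow_iff_left₀ (by norm_num) hr0.le (by norm_num)).1 h1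
  have h2 : 2 ≤ r ^ 2 := by
    have : r ^ 2 = (2 : ℝ) ^ (11 / 10 : ℝ) := by
      rw [hr, ← Real.rpow_natCast, ← Real.rpow_mul (by norm_num)]
      norm_num
    rw [this]
    calc (2 : ℝ) = (2 : ℝ) ^ (1 : ℝ) := (Real.rpow_one 2).symm
      _ ≤ _ := Real.rpow_le_rpow_of_exponent_le (by norm_num) (by norm_num)
  have hlast : ((2 : ℝ) ^ N) ^ (33 / 20 : ℝ) = r ^ N * (r ^ 2) ^ N := by
    rw [← pow_mul, ← pow_add, ← hpow, ← Real.rpow_natCast, ← Real.rpow_natCast,
      ← Real.rpow_mul (by norm_num), ← Real.rpow_mul (by norm_num)]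
    congr 1
    push_cast
    ring
  have hgeo : ∀ q : ℝ, 1 < q → ∑ i ∈ Finset.range N, q ^ i ≤ q ^ N / (q - 1) := by
    intro q hq
    rw [geom_sum_eq hq.ne']
    apply div_le_div_of_nonneg_right _ (by linarith)
    linarith
  calc ∑ i ∈ Finset.range N, ∑ j ∈ Finset.range N, ((2 : ℝ) ^ (i + 2 * j)) ^ (11 / 20 : ℝ)
      = (∑ i ∈ Finset.range N, r ^ i) * ∑ j ∈ Finset.range N, (r ^ 2) ^ j := by
        rw [Finset.sum_mul_sum]
        refine Finset.sum_congr rfl fun i _ => Finset.sum_congr rfl fun j _ => ?_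
        rw [hpow, pow_add, pow_mul]
    _ ≤ (r ^ N / (r - 1)) * ((r ^ 2) ^ N / (r ^ 2 - 1)) := by
        refine mul_le_mul (hgeo r (by linarith)) (hgeo (r ^ 2) (by linarith)) ?_ ?_
        · exact Finset.sum_nonneg fun j _ => by positivity
        · exact div_nonneg (by positivity) (by linarith)
    _ ≤ (3 * r ^ N) * ((r ^ 2) ^ N) := by
        refine mul_le_mul ?_ ?_ ?_ (by positivity)
        · rw [div_le_iff₀ (by linarith)]
          have : 0 < r ^ N := by positivity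
          nlinarith
        · exact div_le_self (by positivity) (by linarith)
        · exact div_nonneg (by positivity) (by linarith)
    _ = 3 * ((2 : ℝ) ^ N) ^ (33 / 20 : ℝ) := by rw [hlast]; ring

end AbcAsyQ
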