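import Pool.Agent.Work.MP_a793bb_nt.AsyQ.Defs

/-!
# EulA: the Euler product of `cst m`  (size M)

PROOF. `f d = μ(d) / d²` if `d` is coprime to `m` and `0` otherwise is multiplicative with
`f 1 = 1` (for `m ≥ 1`) and absolutely summable (`|f d| ≤ 1 / d²`). By
`EulerProduct.eulerProduct_hasProd` the product of `∑' e, f (p ^ e)` over the primes is `∑' f`, and
`∑' e, f (p ^ e) = 1 + f p` (as `μ (p ^ e) = 0` for `e ≥ 2`), `f p = -1/p²` if `p ∤ m`, `0` if `p ∣ m`.
`cst_QQ`: `p ∣ QQ k` iff `p ≤ k` (`k ≥ 0`; for a prime `p`).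
-/

set_option autoImplicit false

namespace AbcAsyQ

private noncomputable def ff (m : ℕ) (d : ℕ) : ℝ :=
  if Nat.Coprime d m then (ArithmeticFunction.moebius d : ℝ) / (d : ℝ) ^ 2 else 0

private theorem ff_one (m : ℕ) : ff m 1 = 1 := by
  simp [ff]

private theorem ff_zero (m : ℕ) : ff m 0 = 0 := by
  simp [ff]

private theorem ff_mul (m : ℕ) {a b : ℕ} (h : Nat.Coprime a b) :
    ff m (a * b) = ff m a * ff m b := by
  unfold ff
  by_cases ha : Nat.Coprime a m
  · by_cases hb : Nat.Coprime b m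
    · rw [if_pos (Nat.coprime_mul_iff_left.2 ⟨ha, hb⟩), if_pos ha, if_pos hb,
        ArithmeticFunction.isMultiplicative_moebius.map_mul_of_coprime h]
      push_cast
      rw [mul_pow, mul_div_mul_comm]
    · rw [if_neg (fun h2 => hb (Nat.coprime_mul_iff_left.1 h2).2), if_neg hb, mul_zero]
  · rw [if_neg (fun h2 => ha (Nat.coprime_mul_iff_left.1 h2).1), if_neg ha, zero_mul]

private theorem ff_summable (m : ℕ) : Summable fun d => ‖ff m d‖ := by
  have h1 : Summable fun d : ℕ => 1 / (d : ℝ) ^ 2 := Real.summable_one_div_nat_pow.2 (by norm_num)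
  refine Summable.of_nonneg_of_le (fun d => norm_nonneg _) (fun d => ?_) h1
  unfold ff
  split_ifs
  · rw [Real.norm_eq_abs, abs_div, abs_of_nonneg (by positivity : (0 : ℝ) ≤ (d : ℝ) ^ 2)]
    have h2 : |(ArithmeticFunction.moebius d : ℝ)| ≤ 1 := by
      exact_mod_cast ArithmeticFunction.abs_moebius_le_one
    gcongr
  · rw [norm_zero]
    positivity

private theorem ff_prime (m : ℕ) (p : ℕ) (hp : p.Prime) :
    ∑' e : ℕ, ff m (p ^ e) = if p ∣ m then (1 : ℝ) else 1 - 1 / (p : ℝ) ^ 2 := by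
  rw [tsum_eq_sum (s := Finset.range 2)]
  · rw [Finset.sum_range_succ, Finset.sum_range_succ, Finset.sum_range_zero, zero_add, pow_zero,
      ff_one, pow_one]
    unfold ff
    by_cases h : p ∣ m
    · rw [if_pos h, if_neg, add_zero]
      rw [hp.coprime_iff_not_dvd]
      exact fun h2 => h2 h
    · rw [if_neg h, if_pos ((hp.coprime_iff_not_dvd).2 h),
        ArithmeticFunction.moebius_apply_prime hp]
      push_cast
      ring
  · intro e he
    rw [Finset.mem_range, not_lt] at he
    unfold ff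
    have h2 : ArithmeticFunction.moebius (p ^ e) = 0 := by
      rw [ArithmeticFunction.moebius_apply_prime_pow hp (by omega), if_neg (by omega)]
    rw [h2]
    simp

theorem cst_hasProd (m : ℕ) (hm : m ≠ 0) :
    HasProd (fun p : Nat.Primes => if (p : ℕ) ∣ m then (1 : ℝ) else 1 - 1 / (p : ℝ) ^ 2)
      (cst m) := by
  have h := EulerProduct.eulerProduct_hasProd (ff_one m) (fun {a b} => ff_mul m) (ff_summable m)
    (ff_zero m)
  have h1 : (fun p : Nat.Primes => ∑' e : ℕ, ff m ((p : ℕ) ^ e)) =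
      fun p : Nat.Primes => if (p : ℕ) ∣ m then (1 : ℝ) else 1 - 1 / (p : ℝ) ^ 2 := by
    funext p
    exact ff_prime m p p.2
  rw [h1] at h
  exact h

theorem cst_QQ (k : ℕ) :
    HasProd (fun p : Nat.Primes => if (p : ℕ) ≤ k then (1 : ℝ) else 1 - 1 / (p : ℝ) ^ 2)
      (cst (QQ k)) := by
  have h0 : QQ k ≠ 0 := (pow_pos (primorial_pos k) _).ne'
  have h := cst_hasProd (QQ k) h0
  have h1 : ∀ p : Nat.Primes, (p : ℕ) ∣ QQ k ↔ (p : ℕ) ≤ k := by
    intro p
    constructor
    · intro hd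
      have h2 : (p : ℕ) ∣ primorial k := p.2.dvd_of_dvd_pow hd
      unfold primorial at h2
      rw [Prime.dvd_finset_prod_iff p.2.prime] at h2
      obtain ⟨q, hq, hpq⟩ := h2
      rw [Finset.mem_filter, Finset.mem_range] at hq
      have := (Nat.prime_dvd_prime_iff_eq p.2 hq.2).1 hpq
      omega
    · intro hle
      refine dvd_pow ?_ (Nat.succ_ne_zero k)
      unfold primorial
      refine Finset.dvd_prod_of_mem (fun p => p) ?_
      rw [Finset.mem_filter, Finset.mem_range]
      exact ⟨by omega, p.2⟩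
  simp only [h1] at h
  exact h

end AbcAsyQ
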