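import Pool.Agent.Work.MP_a793bb_nt.AsyQ.Defs

/-!
# EulB: estimates for the Euler factors  (size M)

PROOF. Put `x = p ^ (-1/3)`, `0 < x < 1`; `p ^ (-(e+1)) p ^ (2e/3) = x ^ 3 x ^ e` (`e ≥ 0`), so
`EpK p k = (1 - 1/p) (1 - 2/p) + 3 (1 - 1/p)² x³ (1 - x^k) / (1 - x) + 3 (1 - 1/p) x³ x^k`, and
`Ep p` is the same with `x ^ k` replaced by `0` (`1/p = x³`). `EpK_tendsto`: `x ^ k → 0`.
`EpK_zero`: `(1 - 1/p)(1 - 2/p) + 3 (1 - 1/p)/p = (1 - 1/p)(1 + 1/p) = 1 - 1/p²`.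
`EpK_mono`: `EpK p (k+1) - EpK p k = 3 (1-1/p) x³ x^k [(1 - 1/p) - (1 - x)]
= 3 (1-1/p) x³ x^k (x - x³) ≥ 0`. Hence `1 - 1/p² ≤ EpK p k ≤ Ep p`.
`Ep_le`: `Ep p = (1-1/p) [ (1 - 2/p) + 3 (1 - x³) x³ / (1 - x) ]
= (1 - x³) [1 - 2 x³ + 3 x³ (1 + x + x²)] = (1 - x³)(1 + x³ + 3 x⁴ + 3 x⁵) ≤ 1 + 6 x⁴
= 1 + 6 p ^ (-4/3)`.
`Ep_ge`: `Ep p ≥ 1 - 1/p²`; more precisely `Ep p - 1 = 3 x⁴ + 3 x⁵ - x⁶ - 3 x⁷ - 3 x⁸ ≥ 0`? (not needed).
`multipliable_Ep`: `∑ |Ep p - 1| < ∞` by `Ep_le`, `Ep_ge`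
(`Real.multipliable_one_add_of_summable` / `multipliable_one_add_of_summable`).
-/

set_option autoImplicit false

open Filter Topology

namespace AbcAsyQ

private noncomputable def xx (p : ℕ) : ℝ := (p : ℝ) ^ (-(1 / 3) : ℝ)

private theorem xx_pos {p : ℕ} (hp : p.Prime) : 0 < xx p :=
  Real.rpow_pos_of_pos (by exact_mod_cast hp.pos) _

private theorem xx_lt_one {p : ℕ} (hp : p.Prime) : xx p < 1 :=
  Real.rpow_lt_one_of_one_lt_of_neg (by exact_mod_cast hp.one_lt) (by norm_num)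

private theorem xx_cube {p : ℕ} (hp : p.Prime) : 1 / (p : ℝ) = xx p ^ 3 := by
  have hp0 : (0 : ℝ) < p := by exact_mod_cast hp.pos
  rw [xx, ← Real.rpow_natCast, ← Real.rpow_mul hp0.le, one_div, ← Real.rpow_neg_one]
  norm_num

private theorem xx_term {p : ℕ} (hp : p.Prime) (e : ℕ) :
    (p : ℝ) ^ (-((e : ℝ) + 1)) * (p : ℝ) ^ (2 * (e : ℝ) / 3) = xx p ^ 3 * xx p ^ e := by
  have hp0 : (0 : ℝ) < p := by exact_mod_cast hp.pos
  rw [xx, ← Real.rpow_natCast, ← Real.rpow_natCast, ← Real.rpow_mul hp0.le,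
    ← Real.rpow_mul hp0.le, ← Real.rpow_add hp0, ← Real.rpow_add hp0]
  congr 1
  push_cast
  ring

private theorem EpK_eq {p : ℕ} (hp : p.Prime) (k : ℕ) :
    EpK p k = (1 - xx p ^ 3) * (1 - 2 * xx p ^ 3) +
      3 * (1 - xx p ^ 3) ^ 2 * (∑ e ∈ Finset.range k, xx p ^ 3 * xx p ^ e) +
      3 * (1 - xx p ^ 3) * (xx p ^ 3 * xx p ^ k) := by
  unfold EpK
  rw [mul_assoc (3 * (1 - 1 / (p : ℝ)))]
  simp only [xx_term hp]
  rw [show (2 : ℝ) / (p : ℝ) = 2 * (1 / (p : ℝ)) by ring, xx_cube hp]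

private theorem Ep_eq {p : ℕ} (hp : p.Prime) :
    Ep p = (1 - xx p ^ 3) * (1 + xx p ^ 3 + 3 * xx p ^ 4 + 3 * xx p ^ 5) := by
  have hp0 : (0 : ℝ) < p := by exact_mod_cast hp.pos
  have h1 := xx_lt_one hp
  have h0 := xx_pos hp
  have h2 : (1 : ℝ) - xx p ≠ 0 := by linarith
  have h3 : Ep p = (1 - 1 / (p : ℝ)) * (1 - 2 * (1 / (p : ℝ))) +
      3 * (1 - 1 / (p : ℝ)) ^ 2 * (1 / (p : ℝ)) / (1 - xx p) := by
    unfold Ep
    rw [show (p : ℝ) ^ (-(1 / 3) : ℝ) = xx p from rfl]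
    have : (p : ℝ) ≠ 0 := hp0.ne'
    field_simp
  rw [h3, xx_cube hp]
  field_simp
  ring

theorem EpK_zero {p : ℕ} (hp : p.Prime) : EpK p 0 = 1 - 1 / (p : ℝ) ^ 2 := by
  rw [EpK_eq hp, show 1 / (p : ℝ) ^ 2 = (1 / (p : ℝ)) ^ 2 by rw [one_div_pow], xx_cube hp]
  simp only [Finset.range_zero, Finset.sum_empty, pow_zero]
  ring

theorem EpK_mono {p : ℕ} (hp : p.Prime) : Monotone (EpK p) := by
  refine monotone_nat_of_le_succ fun k => ?_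
  have h0 := xx_pos hp
  have h1 := xx_lt_one hp
  rw [EpK_eq hp, EpK_eq hp, Finset.sum_range_succ]
  have h3 : xx p ^ 3 ≤ xx p := by
    calc xx p ^ 3 ≤ xx p ^ 1 := pow_le_pow_of_le_one h0.le h1.le (by norm_num)
      _ = xx p := pow_one _
  have h4 : 0 ≤ 3 * (1 - xx p ^ 3) * (xx p ^ 3 * xx p ^ k) * (xx p - xx p ^ 3) := by
    refine mul_nonneg (mul_nonneg (mul_nonneg (by norm_num) (by linarith)) (by positivity)) ?_
    linarith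
  have h5 : 3 * (1 - xx p ^ 3) * (xx p ^ 3 * xx p ^ k) * (xx p - xx p ^ 3) =
      ((1 - xx p ^ 3) * (1 - 2 * xx p ^ 3) +
        3 * (1 - xx p ^ 3) ^ 2 * (∑ e ∈ Finset.range k, xx p ^ 3 * xx p ^ e +
          xx p ^ 3 * xx p ^ k) + 3 * (1 - xx p ^ 3) * (xx p ^ 3 * xx p ^ (k + 1))) -
      ((1 - xx p ^ 3) * (1 - 2 * xx p ^ 3) +
        3 * (1 - xx p ^ 3) ^ 2 * (∑ e ∈ Finset.range k, xx p ^ 3 * xx p ^ e) +
        3 * (1 - xx p ^ 3) * (xx p ^ 3 * xx p ^ k)) := by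
    rw [pow_succ (xx p) k]
    ring
  linarith

theorem EpK_tendsto {p : ℕ} (hp : p.Prime) : Tendsto (EpK p) atTop (𝓝 (Ep p)) := by
  have h0 := xx_pos hp
  have h1 := xx_lt_one hp
  have hk : Tendsto (fun k : ℕ => xx p ^ k) atTop (𝓝 0) :=
    tendsto_pow_atTop_nhds_zero_of_lt_one h0.le h1
  have hg : Tendsto (fun k : ℕ => ∑ e ∈ Finset.range k, xx p ^ e) atTop (𝓝 (1 - xx p)⁻¹) :=
    (hasSum_geometric_of_lt_one h0.le h1).tendsto_sum_nat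
  have hE : EpK p = fun k => (1 - xx p ^ 3) * (1 - 2 * xx p ^ 3) +
      3 * (1 - xx p ^ 3) ^ 2 * (xx p ^ 3 * ∑ e ∈ Finset.range k, xx p ^ e) +
      3 * (1 - xx p ^ 3) * (xx p ^ 3 * xx p ^ k) := by
    funext k
    rw [EpK_eq hp, ← Finset.mul_sum]
  rw [hE]
  have h2 : (1 : ℝ) - xx p ≠ 0 := by linarith
  have hlim : Ep p = (1 - xx p ^ 3) * (1 - 2 * xx p ^ 3) +
      3 * (1 - xx p ^ 3) ^ 2 * (xx p ^ 3 * (1 - xx p)⁻¹) +
      3 * (1 - xx p ^ 3) * (xx p ^ 3 * 0) := by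
    rw [Ep_eq hp]
    field_simp
    ring
  rw [hlim]
  exact (tendsto_const_nhds.add ((hg.const_mul _).const_mul _)).add ((hk.const_mul _).const_mul _)

private theorem xx_four {p : ℕ} (hp : p.Prime) : (p : ℝ) ^ (-(4 / 3) : ℝ) = xx p ^ 4 := by
  have hp0 : (0 : ℝ) < p := by exact_mod_cast hp.pos
  rw [xx, ← Real.rpow_natCast, ← Real.rpow_mul hp0.le]
  norm_num

theorem Ep_le {p : ℕ} (hp : p.Prime) : Ep p ≤ 1 + 6 * (p : ℝ) ^ (-(4 / 3) : ℝ) := by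
  have h0 := xx_pos hp
  have h1 := xx_lt_one hp
  rw [Ep_eq hp, xx_four hp]
  have h5 : xx p ^ 5 ≤ xx p ^ 4 := pow_le_pow_of_le_one h0.le h1.le (by norm_num)
  have h6 : 0 ≤ xx p ^ 6 := by positivity
  have h7 : 0 ≤ xx p ^ 7 := by positivity
  have h8 : 0 ≤ xx p ^ 8 := by positivity
  nlinarith

theorem Ep_ge {p : ℕ} (hp : p.Prime) : 1 - 1 / (p : ℝ) ^ 2 ≤ Ep p := by
  rw [← EpK_zero hp]
  exact (EpK_mono hp).ge_of_tendsto (EpK_tendsto hp) 0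

theorem multipliable_Ep : Multipliable (fun p : Nat.Primes => Ep p) := by
  have h1 : Summable (fun p : Nat.Primes => Ep p - 1) := by
    have hs : Summable (fun n : ℕ => 6 * (n : ℝ) ^ (-(4 / 3) : ℝ)) :=
      (Real.summable_nat_rpow.2 (by norm_num)).mul_left 6
    have hs2 : Summable (fun p : Nat.Primes => 6 * ((p : ℕ) : ℝ) ^ (-(4 / 3) : ℝ)) :=
      hs.comp_injective (i := fun p : Nat.Primes => (p : ℕ)) Subtype.val_injective
    refine Summable.of_norm_bounded hs2 fun p => ?_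
    have hp := p.2
    have h3 := Ep_le hp
    have h4 := Ep_ge hp
    have h0 := xx_pos hp
    have h1 := xx_lt_one hp
    rw [Real.norm_eq_abs, abs_le]
    constructor
    · have h5 : 1 / (p : ℝ) ^ 2 ≤ 6 * (p : ℝ) ^ (-(4 / 3) : ℝ) := by
        rw [xx_four hp, show 1 / (p : ℝ) ^ 2 = (1 / (p : ℝ)) ^ 2 by rw [one_div_pow], xx_cube hp,
          ← pow_mul]
        have : xx p ^ (3 * 2) ≤ xx p ^ 4 := pow_le_pow_of_le_one h0.le h1.le (by norm_num)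
        have h7 : 0 ≤ xx p ^ 4 := by positivity
        linarith
      linarith
    · linarith
  have := Real.multipliable_one_add_of_summable h1
  simpa using this

end AbcAsyQ
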