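import Pool.Agent.Work.MP_a793bb_nt.AsyQ.LocP
import Pool.Agent.Work.MP_a793bb_nt.AsyQ.EulA
import Pool.Agent.Work.MP_a793bb_nt.AsyQ.EulB

/-!
# EulL: `kap k → κ`  (size M-L)

PROOF. By `Phi_QQ`, `Phi_prime_pow`, `cst_QQ`: `kap k = AA * ∏' p, u k p` over all primes, with
`u k p = EpK p k` for `p ≤ k` and `u k p = 1 - 1/p² = EpK p 0` for `p > k` (finite product times a
`HasProd`: `HasProd.mul` with the function `p ↦ if p ≤ k then EpK p k else 1`, which has finite
support, and the function of `cst_QQ`). For every `p`: `u k p → Ep p` (`k → ∞`), and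
`1 - 1/p² ≤ u k p ≤ Ep p ≤ 1 + 6 p ^ (-4/3)` (`EpK_mono`, `EpK_zero`, `EpK_tendsto`, `Ep_le`), so
`|u k p - 1| ≤ 6 p ^ (-4/3)` is dominated by a summable function, and `u k p ≥ 3/4 > 0`.
So `log (u k p)` is dominated by `C p ^ (-4/3)` and by dominated convergence
(`tendsto_tsum_of_dominated_convergence`) `∑' log (u k p) → ∑' log (Ep p)`; exponentiate
(`Real.exp_tsum`/`Real.rexp_tsum_eq_tprod`). (If Mathlib has a dominated convergence theorem
for products, `tendsto_tprod_of_dominated...`, use it.)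
-/

set_option autoImplicit false

open Filter Topology

namespace AbcAsyQ

/-- the factors of `kap k` -/
private noncomputable def uu (k : ℕ) (p : Nat.Primes) : ℝ :=
  if (p : ℕ) ≤ k then EpK p k else 1 - 1 / ((p : ℕ) : ℝ) ^ 2

private theorem uu_hasProd (k : ℕ) : HasProd (uu k) (Phi (QQ k) * cst (QQ k)) := by
  have h1 : HasProd (fun p : Nat.Primes => if (p : ℕ) ≤ k then EpK p k else 1) (Phi (QQ k)) := by
    have h2 : Phi (QQ k) = ∏ p ∈ (Finset.range (k + 1)).subtype Nat.Prime,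
        (if (p : ℕ) ≤ k then EpK p k else 1) := by
      rw [Phi_QQ, Finset.prod_subtype_eq_prod_filter (s := Finset.range (k + 1))
        (p := Nat.Prime) (fun p : ℕ => if p ≤ k then EpK p k else 1)]
      refine Finset.prod_congr rfl fun p hp => ?_
      rw [Finset.mem_filter, Finset.mem_range] at hp
      rw [Phi_prime_pow hp.2, if_pos (by omega)]
    rw [h2]
    refine hasProd_prod_of_ne_finset_one fun p hp => ?_
    rw [if_neg]
    intro h
    apply hp
    exact Finset.mem_subtype.2 (Finset.mem_range.2 (by omega))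
  have h3 := h1.mul (cst_QQ k)
  convert h3 using 2 with p
  unfold uu
  split_ifs
  · rw [mul_one]
  · rw [one_mul]

private theorem uu_bounds (k : ℕ) (p : Nat.Primes) :
    1 - 1 / ((p : ℕ) : ℝ) ^ 2 ≤ uu k p ∧ uu k p ≤ 1 + 6 * ((p : ℕ) : ℝ) ^ (-(4 / 3) : ℝ) := by
  have hp := p.2
  unfold uu
  split_ifs
  · constructor
    · rw [← EpK_zero hp]
      exact EpK_mono hp (Nat.zero_le k)
    · exact ((EpK_mono hp).ge_of_tendsto (EpK_tendsto hp) k).trans (Ep_le hp)
  · exact ⟨le_rfl, (Ep_ge hp).trans (Ep_le hp)⟩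

private theorem log_bound {p : ℕ} (hp : p.Prime) {x : ℝ} (h1 : 1 - 1 / (p : ℝ) ^ 2 ≤ x)
    (h2 : x ≤ 1 + 6 * (p : ℝ) ^ (-(4 / 3) : ℝ)) :
    3 / 4 ≤ x ∧ |Real.log x| ≤ 6 * (p : ℝ) ^ (-(4 / 3) : ℝ) := by
  have hp2 : (2 : ℝ) ≤ p := by exact_mod_cast hp.two_le
  have hp0 : (0 : ℝ) < p := by linarith
  have h3 : 1 / (p : ℝ) ^ 2 ≤ 1 / 4 := by
    apply one_div_le_one_div_of_le (by norm_num)
    nlinarith
  have h4 : 3 / 4 ≤ x := by linarith
  have hx : 0 < x := by linarith
  refine ⟨h4, abs_le.2 ⟨?_, ?_⟩⟩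
  · have h5 := Real.one_sub_inv_le_log_of_pos hx
    have h6 : 1 / (p : ℝ) ^ 2 ≤ (p : ℝ) ^ (-(4 / 3) : ℝ) := by
      rw [one_div, ← Real.rpow_natCast, ← Real.rpow_neg hp0.le]
      exact Real.rpow_le_rpow_of_exponent_le (by linarith) (by norm_num)
    have h7 : x⁻¹ - 1 ≤ 4 / 3 * (1 / (p : ℝ) ^ 2) := by
      have h8 : x⁻¹ - 1 = (1 - x) / x := by field_simp
      rw [h8, div_le_iff₀ hx]
      have h9 : 0 ≤ 1 / (p : ℝ) ^ 2 := by positivity
      nlinarith
    have h10 : 0 ≤ 1 / (p : ℝ) ^ 2 := by positivity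
    linarith
  · have := Real.log_le_sub_one_of_pos hx
    linarith

theorem kap_tendsto : Tendsto kap atTop (𝓝 (AA * ∏' p : Nat.Primes, Ep p)) := by
  have hS : Summable (fun p : Nat.Primes => 6 * ((p : ℕ) : ℝ) ^ (-(4 / 3) : ℝ)) := by
    have hs : Summable (fun n : ℕ => 6 * (n : ℝ) ^ (-(4 / 3) : ℝ)) :=
      (Real.summable_nat_rpow.2 (by norm_num)).mul_left 6
    exact hs.comp_injective (i := fun p : Nat.Primes => (p : ℕ)) Subtype.val_injective
  have hu : ∀ k (p : Nat.Primes), 3 / 4 ≤ uu k p ∧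
      |Real.log (uu k p)| ≤ 6 * ((p : ℕ) : ℝ) ^ (-(4 / 3) : ℝ) := fun k p =>
    log_bound p.2 (uu_bounds k p).1 (uu_bounds k p).2
  have hE : ∀ p : Nat.Primes, 3 / 4 ≤ Ep p ∧
      |Real.log (Ep p)| ≤ 6 * ((p : ℕ) : ℝ) ^ (-(4 / 3) : ℝ) := fun p =>
    log_bound p.2 (Ep_ge p.2) (Ep_le p.2)
  have hsumu : ∀ k, Summable fun p => Real.log (uu k p) := fun k =>
    Summable.of_norm_bounded hS fun p => by
      rw [Real.norm_eq_abs]
      exact (hu k p).2
  have hsumE : Summable fun p : Nat.Primes => Real.log (Ep p) :=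
    Summable.of_norm_bounded hS fun p => by
      rw [Real.norm_eq_abs]
      exact (hE p).2
  have h1 : Tendsto (fun k => ∑' p : Nat.Primes, Real.log (uu k p)) atTop
      (𝓝 (∑' p : Nat.Primes, Real.log (Ep p))) := by
    refine tendsto_tsum_of_dominated_convergence hS ?_ ?_
    · intro p
      refine (Real.continuousAt_log (by linarith [(hE p).1])).tendsto.comp ?_
      refine (EpK_tendsto p.2).congr' ?_
      filter_upwards [eventually_ge_atTop (p : ℕ)] with k hk
      unfold uu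
      rw [if_pos hk]
    · filter_upwards with k p
      rw [Real.norm_eq_abs]
      exact (hu k p).2
  have h2 := (Real.continuous_exp.tendsto _).comp h1
  have h3 : Real.exp (∑' p : Nat.Primes, Real.log (Ep p)) = ∏' p : Nat.Primes, Ep p :=
    Real.rexp_tsum_eq_tprod (fun p => by linarith [(hE p).1]) hsumE
  rw [h3] at h2
  have h4 : kap = fun k => AA * Real.exp (∑' p : Nat.Primes, Real.log (uu k p)) := by
    funext k
    rw [Real.rexp_tsum_eq_tprod (fun p => by linarith [(hu k p).1]) (hsumu k),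
      (uu_hasProd k).tprod_eq, kap, mul_assoc]
  rw [h4]
  exact h2.const_mul AA

end AbcAsyQ
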