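import Pool.Agent.Work.MP_a793bb_nt.AsyQ.HalfT

/-!
# Tail: solutions with `a + b ≤ R ^ (2/5)` outside the approximating set  (size S-M)

PROOF. `tl_tendsto`: the tail of a convergent series (`tendsto_tsum_compl_atTop_zero`, or dominated
convergence). Let `(a, b) ∈ Sol R \ SolK k R`, `c = a + b`. If `sf a, sf b, sf c ≤ k` then
`qq(gcd(abc, QQ k)) = qq(abc)` (`qq_gcd_QQ3`) and `abc = rd(abc) qq(abc) ≤ R qq(abc)`
(`rd_mul_qq`), so `(a, b) ∈ SolK k R`, contradiction. So one of the three is `> k`, and `(a, b)` or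
`(b, a)` is in the set of `half_tail` with `X = R ^ (2/5)`: the size is at most
`2 C tl k R ^ (2/3) + 2 C R ^ (33/50)` (`(R ^ (2/5)) ^ (33/20) = R ^ (33/50)`). For `k` with
`2 C tl k ≤ ε / 2` and `R` with `2 C R ^ (33/50) ≤ (ε/2) R ^ (2/3)` this is `≤ ε R ^ (2/3)`.
-/

set_option autoImplicit false

open Filter Topology

namespace AbcAsyQ

theorem tl_tendsto : Tendsto tl atTop (𝓝 0) := by
  have h := tendsto_tsum_of_dominated_convergence (𝓕 := atTop)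
    (f := fun (k : ℕ) (s : ℕ) => if k < s then ww s else 0) (g := fun _ => (0 : ℝ))
    (bound := ww) summable_ww (fun s => by
      refine tendsto_const_nhds.congr' ?_
      filter_upwards [eventually_ge_atTop s] with k hk
      rw [if_neg (by omega)]) (Eventually.of_forall fun k s => by
      split_ifs
      · rw [Real.norm_of_nonneg (ww_nonneg s)]
      · rw [norm_zero]
        exact ww_nonneg s)
  rw [tsum_zero] at h
  exact h

theorem tail_finite (R : ℝ) (X : ℝ) : {p ∈ Sol R | ((p.1 + p.2 : ℕ) : ℝ) ≤ X}.Finite := by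
  refine ((Finset.range (⌊X⌋₊ + 1) ×ˢ Finset.range (⌊X⌋₊ + 1)).finite_toSet).subset ?_
  rintro ⟨a, b⟩ ⟨_, h⟩
  simp only [Finset.coe_product, Set.mem_prod, Finset.mem_coe, Finset.mem_range]
  have h1 : a + b ≤ ⌊X⌋₊ := Nat.le_floor h
  omega

private theorem swap_sol {R : ℝ} {a b : ℕ} (h : (a, b) ∈ Sol R) : (b, a) ∈ Sol R := by
  obtain ⟨h1, h2, h3, h4⟩ := h
  refine ⟨h2, h1, h3.symm, ?_⟩
  have e : b * a * (b + a) = a * b * (a + b) := by ring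
  change (rd (b * a * (b + a)) : ℝ) ≤ R
  rw [e]
  exact h4

private theorem solk_of {R : ℝ} {k a b : ℕ} (h : (a, b) ∈ Sol R) (ha : sf a ≤ k) (hb : sf b ≤ k)
    (hc : sf (a + b) ≤ k) : (a, b) ∈ SolK k R := by
  obtain ⟨h1, h2, h3, h4⟩ := h
  have h1' : 0 < a := h1
  have h2' : 0 < b := h2
  have h3' : Nat.Coprime a b := h3
  refine ⟨h1, h2, h3, ?_⟩
  have e1 : Nat.Coprime a (a + b) := by
    rw [Nat.coprime_self_add_right]
    exact h3'
  have e2 : Nat.Coprime b (a + b) := by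
    rw [Nat.coprime_add_self_right]
    exact h3'.symm
  have e3 := qq_gcd_QQ3 (k := k) (by omega : a ≠ 0) (by omega : b ≠ 0) (by omega : a + b ≠ 0)
    h3' e1 e2 ha hb hc
  have hn : a * b * (a + b) ≠ 0 := by positivity
  have e4 := rd_mul_qq hn
  change ((a * b * (a + b) : ℕ) : ℝ) ≤ R * (qq (Nat.gcd (a * b * (a + b)) (QQ k)) : ℝ)
  rw [e3]
  have e5 : ((a * b * (a + b) : ℕ) : ℝ) =
      (rd (a * b * (a + b)) : ℝ) * (qq (a * b * (a + b)) : ℝ) := by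
    rw [← Nat.cast_mul, e4]
  rw [e5]
  exact mul_le_mul_of_nonneg_right h4 (Nat.cast_nonneg _)

theorem tail (ε : ℝ) (hε : 0 < ε) : ∀ᶠ k : ℕ in atTop, ∀ᶠ R : ℝ in atTop,
    ((({p ∈ Sol R | ((p.1 + p.2 : ℕ) : ℝ) ≤ R ^ (2 / 5 : ℝ)} \ SolK k R).ncard : ℕ) : ℝ) ≤
      ε * R ^ (2 / 3 : ℝ) := by
  obtain ⟨C, hC, h⟩ := half_tail
  have h1 : ∀ᶠ k : ℕ in atTop, tl k < ε / (4 * C) :=
    tl_tendsto.eventually_lt_const (by positivity)
  have h2 : ∀ᶠ R : ℝ in atTop, 2 * C * R ^ (33 / 50 : ℝ) ≤ (ε / 2) * R ^ (2 / 3 : ℝ) := by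
    have h3 : Tendsto (fun R : ℝ => R ^ (-(1 / 150) : ℝ)) atTop (𝓝 0) :=
      tendsto_rpow_neg_atTop (by norm_num)
    filter_upwards [h3.eventually_lt_const (by positivity : 0 < ε / (4 * C)),
      eventually_gt_atTop 0] with R hR hR0
    have e : R ^ (33 / 50 : ℝ) = R ^ (-(1 / 150) : ℝ) * R ^ (2 / 3 : ℝ) := by
      rw [← Real.rpow_add hR0]
      norm_num
    rw [e]
    have h4 : 0 < R ^ (2 / 3 : ℝ) := Real.rpow_pos_of_pos hR0 _
    have h5 : 2 * C * R ^ (-(1 / 150) : ℝ) ≤ ε / 2 := by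
      calc 2 * C * R ^ (-(1 / 150) : ℝ) ≤ 2 * C * (ε / (4 * C)) :=
            mul_le_mul_of_nonneg_left hR.le (by positivity)
        _ = ε / 2 := by field_simp; ring
    calc 2 * C * (R ^ (-(1 / 150) : ℝ) * R ^ (2 / 3 : ℝ)) =
          (2 * C * R ^ (-(1 / 150) : ℝ)) * R ^ (2 / 3 : ℝ) := by ring
      _ ≤ (ε / 2) * R ^ (2 / 3 : ℝ) := mul_le_mul_of_nonneg_right h5 h4.le
  filter_upwards [h1] with k hk
  filter_upwards [h2, eventually_ge_atTop 1] with R hR hR1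
  have hX : 1 ≤ R ^ (2 / 5 : ℝ) := Real.one_le_rpow hR1 (by norm_num)
  obtain ⟨hf, hb⟩ := h k R (R ^ (2 / 5 : ℝ)) hR1 hX
  set H : Set (ℕ × ℕ) := {p : ℕ × ℕ | p ∈ Sol R ∧ p.1 ≤ p.2 ∧
    ((p.1 + p.2 : ℕ) : ℝ) ≤ R ^ (2 / 5 : ℝ) ∧
      (k < sf p.1 ∨ k < sf p.2 ∨ k < sf (p.1 + p.2))} with hH
  have hsub : ({p ∈ Sol R | ((p.1 + p.2 : ℕ) : ℝ) ≤ R ^ (2 / 5 : ℝ)} \ SolK k R) ⊆
      H ∪ Prod.swap '' H := by
    rintro ⟨a, b⟩ ⟨⟨hS, hX'⟩, hK⟩
    have hor : k < sf a ∨ k < sf b ∨ k < sf (a + b) := by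
      by_contra hcon
      push Not at hcon
      exact hK (solk_of hS hcon.1 hcon.2.1 hcon.2.2)
    rcases le_total a b with hab | hab
    · exact Or.inl ⟨hS, hab, hX', hor⟩
    · refine Or.inr ⟨(b, a), ⟨swap_sol hS, hab, ?_, ?_⟩, rfl⟩
      · have e : b + a = a + b := add_comm _ _
        change ((b + a : ℕ) : ℝ) ≤ _
        rw [e]
        exact hX'
      · change k < sf b ∨ k < sf a ∨ k < sf (b + a)
        rw [add_comm b a]
        tauto
  have hcard : ({p ∈ Sol R | ((p.1 + p.2 : ℕ) : ℝ) ≤ R ^ (2 / 5 : ℝ)} \ SolK k R).ncard ≤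
      H.ncard + H.ncard := by
    refine (Set.ncard_le_ncard hsub (hf.union (hf.image _))).trans ?_
    refine (Set.ncard_union_le _ _).trans ?_
    exact Nat.add_le_add_left (Set.ncard_image_le hf) _
  have hcard' : ((({p ∈ Sol R | ((p.1 + p.2 : ℕ) : ℝ) ≤ R ^ (2 / 5 : ℝ)} \
      SolK k R).ncard : ℕ) : ℝ) ≤ 2 * (H.ncard : ℝ) := by
    refine (Nat.cast_le.2 hcard).trans ?_
    rw [Nat.cast_add]
    linarith
  have hXpow : (R ^ (2 / 5 : ℝ)) ^ (33 / 20 : ℝ) = R ^ (33 / 50 : ℝ) := by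
    rw [← Real.rpow_mul (by linarith)]
    norm_num
  rw [hXpow] at hb
  have hR23 : 0 < R ^ (2 / 3 : ℝ) := Real.rpow_pos_of_pos (by linarith) _
  have h6 : 2 * (C * tl k * R ^ (2 / 3 : ℝ)) ≤ (ε / 2) * R ^ (2 / 3 : ℝ) := by
    have h7 : 2 * (C * tl k) ≤ ε / 2 := by
      calc 2 * (C * tl k) ≤ 2 * (C * (ε / (4 * C))) := by
            have := mul_le_mul_of_nonneg_left hk.le hC.le
            linarith
        _ = ε / 2 := by field_simp; ring
    calc 2 * (C * tl k * R ^ (2 / 3 : ℝ)) = (2 * (C * tl k)) * R ^ (2 / 3 : ℝ) := by ring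
      _ ≤ (ε / 2) * R ^ (2 / 3 : ℝ) := mul_le_mul_of_nonneg_right h7 hR23.le
  linarith

end AbcAsyQ
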