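import Pool.Agent.Work.MP_a793bb_nt.AsyQ.SK
import Pool.Agent.Work.MP_a793bb_nt.AsyQ.EulL
import Pool.Agent.Work.MP_a793bb_nt.AsyQ.Tail

/-!
# Fin: assembly  (size S-M)

PROOF. Let `κ = AA * ∏' Ep`, `ε > 0`. Choose `k` with `|kap k - κ| ≤ ε/4` (`kap_tendsto`) and
`tail (ε/4)`. For large `R`: `|#SolK k R / R^(2/3) - kap k| ≤ ε/4`, the tail part is
`≤ (ε/4) R^(2/3)`, the part with `a + b > R^(2/5)` is `≤ (ε/4) R^(2/3)` (`hhigh`). As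
`SolK k R ⊆ Sol R ⊆ SolK k R ∪ (tail part) ∪ (high part)`, the claim follows.
-/

set_option autoImplicit false

open Filter Topology

namespace AbcAsyQ

theorem assembly (hfin : ∀ R : ℝ, (Sol R).Finite)
    (hhigh : Tendsto (fun R : ℝ =>
      (({p ∈ Sol R | R ^ (2 / 5 : ℝ) < ((p.1 + p.2 : ℕ) : ℝ)}.ncard : ℕ) : ℝ) /
        R ^ (2 / 3 : ℝ)) atTop (𝓝 0)) :
    Tendsto (fun R : ℝ => ((Sol R).ncard : ℝ) / R ^ (2 / 3 : ℝ)) atTop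
      (𝓝 (AA * ∏' p : Nat.Primes, Ep p)) := by
  obtain ⟨κ, hκ⟩ : ∃ κ : ℝ, κ = AA * ∏' p : Nat.Primes, Ep p := ⟨_, rfl⟩
  rw [← hκ, Metric.tendsto_nhds]
  intro ε hε
  have hk := kap_tendsto
  rw [← hκ, Metric.tendsto_nhds] at hk
  obtain ⟨k, hk1, hk2⟩ := ((hk (ε / 4) (by linarith)).and (tail (ε / 4) (by linarith))).exists
  have hS := Metric.tendsto_nhds.1 (SolK_tendsto k) (ε / 4) (by linarith)
  have hH := Metric.tendsto_nhds.1 hhigh (ε / 4) (by linarith)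
  filter_upwards [hk2, hS, hH, eventually_gt_atTop (0 : ℝ)] with R h2 h3 h4 hR
  have hD : 0 < R ^ (2 / 3 : ℝ) := Real.rpow_pos_of_pos hR _
  have hsub : SolK k R ⊆ Sol R := SolK_subset k R hR.le
  have e1 : ((SolK k R).ncard : ℝ) ≤ ((Sol R).ncard : ℝ) := by
    exact_mod_cast Set.ncard_le_ncard hsub (hfin R)
  have hcov : Sol R ⊆ (SolK k R ∪
      ({p ∈ Sol R | ((p.1 + p.2 : ℕ) : ℝ) ≤ R ^ (2 / 5 : ℝ)} \ SolK k R)) ∪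
      {p ∈ Sol R | R ^ (2 / 5 : ℝ) < ((p.1 + p.2 : ℕ) : ℝ)} := by
    intro p hp
    by_cases h5 : p ∈ SolK k R
    · exact Or.inl (Or.inl h5)
    · rcases le_or_gt ((p.1 + p.2 : ℕ) : ℝ) (R ^ (2 / 5 : ℝ)) with h6 | h6
      · exact Or.inl (Or.inr ⟨⟨hp, h6⟩, h5⟩)
      · exact Or.inr ⟨hp, h6⟩
  have hfinU : ((SolK k R ∪
      ({p ∈ Sol R | ((p.1 + p.2 : ℕ) : ℝ) ≤ R ^ (2 / 5 : ℝ)} \ SolK k R)) ∪
      {p ∈ Sol R | R ^ (2 / 5 : ℝ) < ((p.1 + p.2 : ℕ) : ℝ)}).Finite := by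
    refine (hfin R).subset ?_
    rintro p ((h5 | h5) | h5)
    · exact hsub h5
    · exact h5.1.1
    · exact h5.1
  have e2 := (Set.ncard_le_ncard hcov hfinU).trans ((Set.ncard_union_le _ _).trans
    (Nat.add_le_add_right (Set.ncard_union_le _ _) _))
  have e3 : ((Sol R).ncard : ℝ) ≤ ((SolK k R).ncard : ℝ) +
      ((({p ∈ Sol R | ((p.1 + p.2 : ℕ) : ℝ) ≤ R ^ (2 / 5 : ℝ)} \ SolK k R).ncard : ℕ) : ℝ) +
      (({p ∈ Sol R | R ^ (2 / 5 : ℝ) < ((p.1 + p.2 : ℕ) : ℝ)}.ncard : ℕ) : ℝ) := by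
    exact_mod_cast e2
  rw [Real.dist_eq, abs_lt] at h3 h4 hk1 ⊢
  rw [sub_zero] at h4
  have e4 : ((SolK k R).ncard : ℝ) / R ^ (2 / 3 : ℝ) ≤ ((Sol R).ncard : ℝ) / R ^ (2 / 3 : ℝ) :=
    div_le_div_of_nonneg_right e1 hD.le
  have e5 : ((Sol R).ncard : ℝ) / R ^ (2 / 3 : ℝ) ≤ ((SolK k R).ncard : ℝ) / R ^ (2 / 3 : ℝ) +
      ε / 4 + (({p ∈ Sol R | R ^ (2 / 5 : ℝ) < ((p.1 + p.2 : ℕ) : ℝ)}.ncard : ℕ) : ℝ) /
        R ^ (2 / 3 : ℝ) := by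
    have e6 := div_le_div_of_nonneg_right e3 hD.le
    have e7 := div_le_div_of_nonneg_right h2 hD.le
    rw [mul_div_cancel_right₀ _ hD.ne'] at e7
    rw [add_div, add_div] at e6
    linarith
  constructor
  · linarith [h3.1, h4.1, hk1.1]
  · linarith [h3.2, h4.2, hk1.2]

end AbcAsyQ
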