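import Pool.Agent.Work.MP_a793bb_nt.AsyQ.Alg

/-!
# SqSum: two sums over squarefull numbers converge  (size M)

PROOF. Both functions `f` are non-negative, multiplicative (`f 1 = 1`, `f (m n) = f m f n` for
coprime `m, n`: `SQ (m n) ↔ SQ m ∧ SQ n` for coprime `m, n`, `qq_mul`), so by
`EulerProduct.summable_and_hasSum_smoothNumbers_prod_primesBelow_tsum` the sum over the `N`-smooth
numbers is `∏ p < N, ∑' e, f (p ^ e)`. For `ww`: `ww (p ^ 0) = 1`, `ww p = 0`,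
`ww (p ^ e) = p ^ (2 (e - 1) / 3 - e) = p ^ (-(e + 2) / 3)` for `e ≥ 2`, so
`∑' e, ww (p ^ e) = 1 + p ^ (-4/3) / (1 - p ^ (-1/3)) ≤ 1 + 5 p ^ (-4/3)` (`2 ^ (-1/3) < 4/5`) and
`∏ (1 + 5 p ^ (-4/3)) ≤ exp (5 ∑ n ^ (-4/3))` is bounded independently of `N`. The finite partial
sums of `ww` over `{0, ..., M}` are bounded by the sum over the `N`-smooth numbers with `N > M`;
so `ww` is summable (`summable_of_sum_le` or `summable_of_sum_range_le`). The same for
`s ^ (-11/20)`: the local sum is `1 + ∑ e ≥ 2, p ^ (-11 e / 20) ≤ 1 + 4 p ^ (-11/10)`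
(`2 ^ (-11/20) < 3/4`), and `∑ n ^ (-11/10)` converges. Alternative for the second one: every
squarefull `s` is `x ^ 2 y ^ 3`, and `∑ x ^ (-11/10) y ^ (-33/20)` converges.
-/

set_option autoImplicit false

namespace AbcAsyQ

open Classical in
theorem ww_nonneg (s : ℕ) : 0 ≤ ww s := by
  unfold ww
  split_ifs
  · positivity
  · exact le_rfl

private theorem summable_local (f : ℕ → ℝ) (h0 : ∀ n, 0 ≤ f n) (hf0 : f 0 = 0) (hf1 : f 1 = 1)
    (hmul : ∀ m n : ℕ, Nat.Coprime m n → f (m * n) = f m * f n) (C θ : ℝ) (hC : 0 ≤ C)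
    (hθ : 1 < θ) (hsum : ∀ p : ℕ, p.Prime → Summable (fun n : ℕ => f (p ^ n)))
    (hloc : ∀ p : ℕ, p.Prime → ∑' n : ℕ, f (p ^ n) ≤ 1 + C * (p : ℝ) ^ (-θ)) : Summable f := by
  have hS : Summable (fun n : ℕ => C * (n : ℝ) ^ (-θ)) :=
    (Real.summable_nat_rpow.2 (by linarith)).mul_left C
  refine summable_of_sum_le (c := Real.exp (∑' n : ℕ, C * (n : ℝ) ^ (-θ))) h0 fun u => ?_
  obtain ⟨N, hN⟩ : ∃ N : ℕ, ∀ n ∈ u, n < N := ⟨u.sup id + 1, fun n hn =>
    Nat.lt_succ_of_le (Finset.le_sup (f := id) hn)⟩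
  have h1 := (EulerProduct.summable_and_hasSum_smoothNumbers_prod_primesBelow_tsum hf1
    (fun {m n} => hmul m n) (fun {p} hp => by
      simpa only [Real.norm_of_nonneg (h0 _)] using hsum p hp) N).2
  have h2 : HasSum ((N.smoothNumbers : Set ℕ).indicator f)
      (∏ p ∈ N.primesBelow, ∑' n : ℕ, f (p ^ n)) :=
    (hasSum_subtype_iff_indicator (f := f) (s := N.smoothNumbers)).1 h1
  have h3 : ∑ n ∈ u, f n = ∑ n ∈ u, (N.smoothNumbers : Set ℕ).indicator f n := by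
    refine Finset.sum_congr rfl fun n hn => ?_
    rcases Nat.eq_zero_or_pos n with h | h
    · rw [h, hf0, Set.indicator_apply, hf0, ite_self]
    · rw [Set.indicator_of_mem (Nat.mem_smoothNumbers_of_lt h (hN n hn))]
  rw [h3]
  calc ∑ n ∈ u, (N.smoothNumbers : Set ℕ).indicator f n
      ≤ ∏ p ∈ N.primesBelow, ∑' n : ℕ, f (p ^ n) :=
        sum_le_hasSum u (fun n _ => Set.indicator_nonneg (fun m _ => h0 m) n) h2
    _ ≤ ∏ p ∈ N.primesBelow, Real.exp (C * (p : ℝ) ^ (-θ)) := by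
        refine Finset.prod_le_prod (fun p _ => tsum_nonneg fun n => h0 _) fun p hp => ?_
        refine (hloc p (Nat.prime_of_mem_primesBelow hp)).trans ?_
        have := Real.add_one_le_exp (C * (p : ℝ) ^ (-θ))
        linarith
    _ = Real.exp (∑ p ∈ N.primesBelow, C * (p : ℝ) ^ (-θ)) := (Real.exp_sum _ _).symm
    _ ≤ _ := by
        refine Real.exp_le_exp.2 (hS.sum_le_tsum _ fun n _ => by positivity)

private theorem SQ_one : SQ 1 :=
  ⟨one_ne_zero, fun p hp h => (hp.one_lt.ne' (Nat.dvd_one.1 h)).elim⟩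

private theorem not_SQ_zero : ¬ SQ 0 := fun h => h.1 rfl

private theorem SQ_mul {m n : ℕ} (h : Nat.Coprime m n) : SQ (m * n) ↔ SQ m ∧ SQ n := by
  constructor
  · rintro ⟨h0, h1⟩
    have hm : m ≠ 0 := fun h => h0 (by rw [h, zero_mul])
    have hn : n ≠ 0 := fun h => h0 (by rw [h, mul_zero])
    refine ⟨⟨hm, fun p hp hpm => ?_⟩, ⟨hn, fun p hp hpn => ?_⟩⟩
    · have h2 := h1 p hp (dvd_mul_of_dvd_left hpm n)
      have h3 : Nat.Coprime (p ^ 2) n :=
        Nat.Coprime.pow_left 2 (Nat.Coprime.coprime_dvd_left hpm h)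
      exact h3.dvd_of_dvd_mul_right h2
    · have h2 := h1 p hp (dvd_mul_of_dvd_right hpn m)
      have h3 : Nat.Coprime (p ^ 2) m :=
        Nat.Coprime.pow_left 2 (Nat.Coprime.coprime_dvd_left hpn h.symm)
      exact h3.dvd_of_dvd_mul_left h2
  · rintro ⟨⟨hm, h1⟩, ⟨hn, h2⟩⟩
    refine ⟨mul_ne_zero hm hn, fun p hp hpd => ?_⟩
    rcases hp.dvd_mul.1 hpd with h3 | h3
    · exact dvd_mul_of_dvd_left (h1 p hp h3) n
    · exact dvd_mul_of_dvd_right (h2 p hp h3) m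

private theorem not_SQ_prime {p : ℕ} (hp : p.Prime) : ¬ SQ p := by
  intro h
  have h1 := Nat.le_of_dvd hp.pos (h.2 p hp dvd_rfl)
  have h2 := hp.one_lt
  nlinarith

private theorem SQ_prime_pow {p : ℕ} (hp : p.Prime) (n : ℕ) : SQ (p ^ (n + 2)) := by
  refine ⟨pow_ne_zero _ hp.ne_zero, fun q hq h => ?_⟩
  have h1 : q = p := (Nat.prime_dvd_prime_iff_eq hq hp).1 (hq.dvd_of_dvd_pow h)
  rw [h1]
  exact pow_dvd_pow p (by omega)

/-- The local sums. -/
private theorem local_hasSum {g : ℕ → ℝ} {y : ℝ} (k : ℕ) (h0 : g 0 = 1) (h1 : g 1 = 0)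
    (h2 : ∀ n, g (n + 2) = y ^ k * y ^ n) (hy0 : 0 ≤ y) (hy1 : y < 1) :
    HasSum g (y ^ k * (1 - y)⁻¹ + 1) := by
  have h3 : HasSum (fun n => g (n + 2)) (y ^ k * (1 - y)⁻¹) := by
    simp only [h2]
    exact (hasSum_geometric_of_lt_one hy0 hy1).mul_left _
  have h4 := (hasSum_nat_add_iff 2).1 h3
  simpa [Finset.sum_range_succ, h0, h1] using h4

open Classical in
theorem summable_ww : Summable ww := by
  have hy0 : ∀ p : ℕ, p.Prime → 0 < (p : ℝ) ^ (-(1 / 3) : ℝ) := fun p hp =>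
    Real.rpow_pos_of_pos (by exact_mod_cast hp.pos) _
  have hy3 : ∀ p : ℕ, p.Prime → ((p : ℝ) ^ (-(1 / 3) : ℝ)) ^ 3 = 1 / (p : ℝ) := by
    intro p hp
    have hp0 : (0 : ℝ) < p := by exact_mod_cast hp.pos
    rw [← Real.rpow_natCast, ← Real.rpow_mul hp0.le]
    norm_num
    rw [Real.rpow_neg_one]
  have hy45 : ∀ p : ℕ, p.Prime → (p : ℝ) ^ (-(1 / 3) : ℝ) ≤ 4 / 5 := by
    intro p hp
    have h2 : (2 : ℝ) ≤ p := by exact_mod_cast hp.two_le
    refine (pow_le_pow_iff_left₀ (hy0 p hp).le (by norm_num) (n := 3) (by norm_num)).1 ?_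
    rw [hy3 p hp, div_le_iff₀ (by linarith)]
    nlinarith
  have hval : ∀ p : ℕ, p.Prime → ∀ n : ℕ, ww (p ^ (n + 2)) =
      ((p : ℝ) ^ (-(1 / 3) : ℝ)) ^ 4 * ((p : ℝ) ^ (-(1 / 3) : ℝ)) ^ n := by
    intro p hp n
    have hp0 : (0 : ℝ) < p := by exact_mod_cast hp.pos
    rw [ww, if_pos (SQ_prime_pow hp n), qq_prime_pow hp]
    push_cast
    rw [div_eq_mul_inv, ← Real.rpow_natCast, ← Real.rpow_natCast,
      ← Real.rpow_natCast, ← Real.rpow_natCast, ← Real.rpow_mul hp0.le, ← Real.rpow_mul hp0.le,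
      ← Real.rpow_mul hp0.le, ← Real.rpow_neg hp0.le, ← Real.rpow_add hp0, ← Real.rpow_add hp0]
    congr 1
    push_cast
    ring
  have hs : ∀ p : ℕ, p.Prime → HasSum (fun n : ℕ => ww (p ^ n))
      (((p : ℝ) ^ (-(1 / 3) : ℝ)) ^ 4 * (1 - (p : ℝ) ^ (-(1 / 3) : ℝ))⁻¹ + 1) := by
    intro p hp
    refine local_hasSum 4 ?_ ?_ (hval p hp) (hy0 p hp).le (by linarith [hy45 p hp])
    · rw [pow_zero, ww, if_pos SQ_one]
      have : qq 1 = 1 := by simpa using qq_prime_pow (e := 0) hp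
      rw [this]
      simp
    · rw [pow_one, ww, if_neg (not_SQ_prime hp)]
  refine summable_local ww ww_nonneg ?_ ?_ ?_ 5 (4 / 3) (by norm_num) (by norm_num)
    (fun p hp => (hs p hp).summable) ?_
  · rw [ww, if_neg not_SQ_zero]
  · rw [ww, if_pos SQ_one]
    have : qq 1 = 1 := by simpa using qq_prime_pow (e := 0) Nat.prime_two
    rw [this]
    simp
  · intro m n h
    unfold ww
    by_cases h1 : SQ m
    · by_cases h2 : SQ n
      · rw [if_pos h1, if_pos h2, if_pos ((SQ_mul h).2 ⟨h1, h2⟩), qq_mul h]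
        push_cast
        rw [Real.mul_rpow (by positivity) (by positivity), mul_div_mul_comm]
      · rw [if_neg h2, if_neg fun h3 => h2 ((SQ_mul h).1 h3).2, mul_zero]
    · rw [if_neg h1, if_neg fun h3 => h1 ((SQ_mul h).1 h3).1, zero_mul]
  · intro p hp
    rw [(hs p hp).tsum_eq]
    have hp0 : (0 : ℝ) < p := by exact_mod_cast hp.pos
    have h4 : (p : ℝ) ^ (-(4 / 3) : ℝ) = ((p : ℝ) ^ (-(1 / 3) : ℝ)) ^ 4 := by
      rw [← Real.rpow_natCast, ← Real.rpow_mul hp0.le]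
      norm_num
    rw [h4, add_comm]
    refine add_le_add_right ?_ _
    rw [mul_comm]
    refine mul_le_mul_of_nonneg_right ?_ (pow_nonneg (hy0 p hp).le _)
    rw [inv_le_comm₀ (by linarith [hy45 p hp]) (by norm_num)]
    linarith [hy45 p hp]

open Classical in
theorem summable_sq : Summable (fun s : ℕ => if SQ s then (s : ℝ) ^ (-(11 / 20) : ℝ) else 0) := by
  have hy0 : ∀ p : ℕ, p.Prime → 0 < (p : ℝ) ^ (-(11 / 20) : ℝ) := fun p hp =>
    Real.rpow_pos_of_pos (by exact_mod_cast hp.pos) _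
  have hy34 : ∀ p : ℕ, p.Prime → (p : ℝ) ^ (-(11 / 20) : ℝ) ≤ 3 / 4 := by
    intro p hp
    have h2 : (2 : ℝ) ≤ p := by exact_mod_cast hp.two_le
    have hp0 : (0 : ℝ) < p := by linarith
    refine (pow_le_pow_iff_left₀ (hy0 p hp).le (by norm_num) (n := 20) (by norm_num)).1 ?_
    have h3 : ((p : ℝ) ^ (-(11 / 20) : ℝ)) ^ 20 = ((p : ℝ) ^ 11)⁻¹ := by
      rw [← Real.rpow_natCast, ← Real.rpow_mul hp0.le, ← Real.rpow_natCast,
        ← Real.rpow_neg hp0.le]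
      norm_num
    rw [h3]
    calc ((p : ℝ) ^ 11)⁻¹ ≤ ((2 : ℝ) ^ 11)⁻¹ :=
          inv_anti₀ (by positivity) (pow_le_pow_left₀ (by norm_num) h2 _)
      _ ≤ _ := by norm_num
  have hs : ∀ p : ℕ, p.Prime →
      HasSum (fun n : ℕ => if SQ (p ^ n) then ((p ^ n : ℕ) : ℝ) ^ (-(11 / 20) : ℝ) else 0)
      (((p : ℝ) ^ (-(11 / 20) : ℝ)) ^ 2 * (1 - (p : ℝ) ^ (-(11 / 20) : ℝ))⁻¹ + 1) := by
    intro p hp
    have hp0 : (0 : ℝ) < p := by exact_mod_cast hp.pos
    refine local_hasSum 2 ?_ ?_ ?_ (hy0 p hp).le (by linarith [hy34 p hp])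
    · rw [pow_zero, if_pos SQ_one]
      simp
    · rw [pow_one, if_neg (not_SQ_prime hp)]
    · intro n
      rw [if_pos (SQ_prime_pow hp n)]
      push_cast
      rw [← pow_add, ← Real.rpow_natCast, ← Real.rpow_natCast, ← Real.rpow_mul hp0.le,
        ← Real.rpow_mul hp0.le]
      congr 1
      push_cast
      ring
  refine summable_local _ ?_ ?_ ?_ ?_ 4 (11 / 10) (by norm_num) (by norm_num)
    (fun p hp => (hs p hp).summable) ?_
  · intro n
    split_ifs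
    · positivity
    · exact le_rfl
  · rw [if_neg not_SQ_zero]
  · rw [if_pos SQ_one]
    simp
  · intro m n h
    by_cases h1 : SQ m
    · by_cases h2 : SQ n
      · rw [if_pos h1, if_pos h2, if_pos ((SQ_mul h).2 ⟨h1, h2⟩)]
        push_cast
        rw [Real.mul_rpow (by positivity) (by positivity)]
      · rw [if_neg h2, if_neg fun h3 => h2 ((SQ_mul h).1 h3).2, mul_zero]
    · rw [if_neg h1, if_neg fun h3 => h1 ((SQ_mul h).1 h3).1, zero_mul]
  · intro p hp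
    rw [(hs p hp).tsum_eq]
    have hp0 : (0 : ℝ) < p := by exact_mod_cast hp.pos
    have h4 : (p : ℝ) ^ (-(11 / 10) : ℝ) = ((p : ℝ) ^ (-(11 / 20) : ℝ)) ^ 2 := by
      rw [← Real.rpow_natCast, ← Real.rpow_mul hp0.le]
      norm_num
    rw [h4, add_comm]
    refine add_le_add_right ?_ _
    rw [mul_comm]
    refine mul_le_mul_of_nonneg_right ?_ (pow_nonneg (hy0 p hp).le _)
    rw [inv_le_comm₀ (by linarith [hy34 p hp]) (by norm_num)]
    linarith [hy34 p hp]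

end AbcAsyQ
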