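import Pool.Agent.Work.MP_a793bb_nt.AsyQ.Alg
import Pool.Agent.Work.MP_a793bb_nt.AsyQ.SqSum
import Pool.Agent.Work.MP_a793bb_nt.AsyQ.BoxC
import Pool.Agent.Work.MP_a793bb_nt.AsyQ.Dyad

/-!
# HalfT: pairs with a large squarefull part, `a ≤ b`, `a + b ≤ X`  (size L)

PROOF. Let `N` with `X < 2 ^ N ≤ 2 X` (`X ≥ 1`). Let `(a, b)` be in the set, `c = a + b`,
`i = Nat.log 2 a`, `j = Nat.log 2 b`, `U = 2 ^ i ≤ a < 2U`, `V = 2 ^ j ≤ b < 2V`, `i ≤ j < N`,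
`s = (sf a, sf b, sf c)`: squarefull (`SQ_sf`), pairwise coprime (divisors of the pairwise coprime
`a, b, c`), `s₁ < 2U`, `s₂ < 2V`, `s₃ ≤ c < 4V`. Moreover `a b c = rd(abc) qq(abc)
≤ R qq(s₁) qq(s₂) qq(s₃)` (`qq_mul`, `qq_sf`) and `a b c ≥ U V V`, so
`(*) 2 ^ (i + 2 j) ≤ R qq(s₁) qq(s₂) qq(s₃)`. So the set is contained in the union of
`Box s₁ s₂ s₃ (2 ^ i) (2 ^ j)` over `i ≤ j < N` and squarefull pairwise coprime `s` with these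
inequalities and some `s_l > k`; by `box_count` its size is at most `A + B`,
`A = 7 ∑_s ∑_{i ≤ j < N, (*)} 2 ^ (i+j) / (s₁ s₂ s₃) ≤ 56 ∑_s (R qq(s₁) qq(s₂) qq(s₃)) ^ (2/3) /
(s₁ s₂ s₃) = 56 R ^ (2/3) ∑_{s : some s_l > k} ww(s₁) ww(s₂) ww(s₃) ≤ 168 W² tl k R ^ (2/3)`
(`dyadic_sum`; finite sums over `range M`, `M > 4 * 2 ^ N`, bounded by the `tsum`s; `W = ∑' ww`),
`B = 7 ∑_{i, j < N} ∑_s (2 ^ (i + 2 j) / (s₁ s₂ s₃)) ^ (1/3)`. With `s ^ (-1/3) ≤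
y ^ (13/60) s ^ (-11/20)` for `s ≤ y`, `y = 2U, 2V, 4V`, and `W' = ∑' s ^ (-11/20)` over squarefull
`s` (`summable_sq`), the inner sum is at most
`(UV²) ^ (1/3) (16 U V²) ^ (13/60) W'³ ≤ 2 W'³ (U V²) ^ (11/20)` (`16 ^ (13/60) < 2`), so
`B ≤ 14 W'³ * 3 * (2 ^ N) ^ (33/20) ≤ 42 W'³ 4 X ^ (33/20)` (`dyadic_sum2`, `2 ^ (33/20) < 4`).
-/

set_option autoImplicit false

namespace AbcAsyQ

open Classical in
/-- The weight in the second sum. -/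
private noncomputable def w2 (s : ℕ) : ℝ := if SQ s then (s : ℝ) ^ (-(11 / 20) : ℝ) else 0

private theorem w2_nonneg (s : ℕ) : 0 ≤ w2 s := by
  unfold w2
  split_ifs
  · positivity
  · exact le_rfl

open Classical in
/-- The index set. -/
private noncomputable def FF (k N M : ℕ) (R : ℝ) : Finset ((ℕ × ℕ) × (ℕ × ℕ × ℕ)) :=
  ((Finset.range N ×ˢ Finset.range N) ×ˢ
    (Finset.range M ×ˢ (Finset.range M ×ˢ Finset.range M))).filter fun x =>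
    x.1.1 ≤ x.1.2 ∧ SQ x.2.1 ∧ SQ x.2.2.1 ∧ SQ x.2.2.2 ∧ Nat.Coprime x.2.1 x.2.2.1 ∧
    Nat.Coprime x.2.1 x.2.2.2 ∧ Nat.Coprime x.2.2.1 x.2.2.2 ∧
    (2 : ℝ) ^ (x.1.1 + 2 * x.1.2) ≤ R * (qq x.2.1 * qq x.2.2.1 * qq x.2.2.2) ∧
    (k < x.2.1 ∨ k < x.2.2.1 ∨ k < x.2.2.2) ∧
    x.2.1 < 2 * 2 ^ x.1.1 ∧ x.2.2.1 < 2 * 2 ^ x.1.2 ∧ x.2.2.2 < 4 * 2 ^ x.1.2

private theorem cover (k N : ℕ) (R X : ℝ) (hX : X < (2 : ℝ) ^ N) :
    {p : ℕ × ℕ | p ∈ Sol R ∧ p.1 ≤ p.2 ∧ ((p.1 + p.2 : ℕ) : ℝ) ≤ X ∧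
      (k < sf p.1 ∨ k < sf p.2 ∨ k < sf (p.1 + p.2))} ⊆
    ⋃ x ∈ FF k N (4 * 2 ^ N) R, Box x.2.1 x.2.2.1 x.2.2.2 (2 ^ x.1.1) (2 ^ x.1.2) := by
  classical
  rintro ⟨a, b⟩ ⟨⟨ha, hb, hab, hrd⟩, hle, hc, hk⟩
  simp only at ha hb hab hrd hle hc hk
  have hc0 : 0 < a + b := by omega
  have hcN : a + b < 2 ^ N := by
    have : ((a + b : ℕ) : ℝ) < ((2 ^ N : ℕ) : ℝ) := by
      push_cast at hc ⊢
      linarith
    exact_mod_cast this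
  have hi1 : 2 ^ Nat.log 2 a ≤ a := Nat.pow_log_le_self 2 ha.ne'
  have hi2 : a < 2 ^ (Nat.log 2 a + 1) := Nat.lt_pow_succ_log_self (by norm_num) a
  have hj1 : 2 ^ Nat.log 2 b ≤ b := Nat.pow_log_le_self 2 hb.ne'
  have hj2 : b < 2 ^ (Nat.log 2 b + 1) := Nat.lt_pow_succ_log_self (by norm_num) b
  have hij : Nat.log 2 a ≤ Nat.log 2 b := Nat.log_mono_right hle
  rw [pow_succ] at hi2 hj2
  have hiN : Nat.log 2 a < N := by
    rw [← Nat.pow_lt_pow_iff_right (a := 2) (by norm_num)]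
    omega
  have hjN : Nat.log 2 b < N := by
    rw [← Nat.pow_lt_pow_iff_right (a := 2) (by norm_num)]
    omega
  have hs1 : sf a ≤ a := Nat.le_of_dvd ha (sf_dvd a)
  have hs2 : sf b ≤ b := Nat.le_of_dvd hb (sf_dvd b)
  have hs3 : sf (a + b) ≤ a + b := Nat.le_of_dvd hc0 (sf_dvd (a + b))
  have hac : Nat.Coprime a (a + b) := by simpa using hab
  have hbc : Nat.Coprime b (a + b) := by simpa using hab.symm
  have hq : qq (a * b * (a + b)) = qq (sf a) * qq (sf b) * qq (sf (a + b)) := by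
    rw [qq_mul (Nat.Coprime.mul_left hac hbc), qq_mul hab, qq_sf ha.ne', qq_sf hb.ne',
      qq_sf hc0.ne']
  have hn0 : a * b * (a + b) ≠ 0 := by positivity
  have hprod : ((a * b * (a + b) : ℕ) : ℝ) ≤
      R * (qq (sf a) * qq (sf b) * qq (sf (a + b))) := by
    have h1 := rd_mul_qq hn0
    have h2 : ((a * b * (a + b) : ℕ) : ℝ) =
        (rd (a * b * (a + b)) : ℝ) * (qq (sf a) * qq (sf b) * qq (sf (a + b)) : ℕ) := by
      rw [← hq]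
      exact_mod_cast h1.symm
    rw [h2]
    push_cast
    exact mul_le_mul_of_nonneg_right hrd (by positivity)
  have hlow : (2 : ℝ) ^ (Nat.log 2 a + 2 * Nat.log 2 b) ≤ ((a * b * (a + b) : ℕ) : ℝ) := by
    have h1 : 2 ^ (Nat.log 2 a + 2 * Nat.log 2 b) ≤ a * b * (a + b) := by
      calc 2 ^ (Nat.log 2 a + 2 * Nat.log 2 b)
          = 2 ^ Nat.log 2 a * 2 ^ Nat.log 2 b * 2 ^ Nat.log 2 b := by
            rw [two_mul, pow_add, pow_add]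
            ring
        _ ≤ a * b * (a + b) := by
            gcongr
            omega
    exact_mod_cast h1
  refine Set.mem_iUnion₂.mpr ⟨((Nat.log 2 a, Nat.log 2 b), (sf a, sf b, sf (a + b))), ?_, ?_⟩
  · simp only [FF, Finset.mem_filter, Finset.mem_product, Finset.mem_range]
    refine ⟨⟨⟨hiN, hjN⟩, ?_, ?_, ?_⟩, hij, SQ_sf ha.ne', SQ_sf hb.ne', SQ_sf hc0.ne', ?_, ?_, ?_,
      hlow.trans hprod, hk, ?_, ?_, ?_⟩
    · omega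
    · omega
    · omega
    · exact Nat.Coprime.coprime_dvd_left (sf_dvd a) (Nat.Coprime.coprime_dvd_right (sf_dvd b) hab)
    · exact Nat.Coprime.coprime_dvd_left (sf_dvd a)
        (Nat.Coprime.coprime_dvd_right (sf_dvd (a + b)) hac)
    · exact Nat.Coprime.coprime_dvd_left (sf_dvd b)
        (Nat.Coprime.coprime_dvd_right (sf_dvd (a + b)) hbc)
    · omega
    · omega
    · omega
  · refine ⟨hi1, ?_, hj1, ?_, sf_dvd a, sf_dvd b, sf_dvd (a + b)⟩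
    · simp only
      omega
    · simp only
      omega

/-- Truncated weight. -/
private noncomputable def tt (k s : ℕ) : ℝ := if k < s then ww s else 0

private theorem tt_nonneg (k s : ℕ) : 0 ≤ tt k s := by
  unfold tt
  split_ifs
  · exact ww_nonneg s
  · exact le_rfl

private theorem sum_tt (k M : ℕ) : ∑ s ∈ Finset.range M, tt k s ≤ tl k := by
  have h : Summable (tt k) := by
    refine Summable.of_nonneg_of_le (tt_nonneg k) (fun s => ?_) summable_ww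
    unfold tt
    split_ifs
    · exact le_rfl
    · exact ww_nonneg s
  exact h.sum_le_tsum _ fun s _ => tt_nonneg k s

private theorem sum_ww (M : ℕ) : ∑ s ∈ Finset.range M, ww s ≤ ∑' s, ww s :=
  summable_ww.sum_le_tsum _ fun s _ => ww_nonneg s

private theorem sum_w2 (M : ℕ) : ∑ s ∈ Finset.range M, w2 s ≤ ∑' s, w2 s := by
  have h : Summable w2 := summable_sq
  exact h.sum_le_tsum _ fun s _ => w2_nonneg s

private theorem sum3 (M : ℕ) (f g h : ℕ → ℝ) :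
    ∑ s ∈ Finset.range M ×ˢ (Finset.range M ×ˢ Finset.range M), f s.1 * g s.2.1 * h s.2.2 =
      (∑ s ∈ Finset.range M, f s) * (∑ s ∈ Finset.range M, g s) *
        ∑ s ∈ Finset.range M, h s := by
  rw [Finset.sum_product, Finset.sum_mul_sum, Finset.sum_mul]
  refine Finset.sum_congr rfl fun a _ => ?_
  rw [Finset.sum_product, Finset.sum_mul]
  refine Finset.sum_congr rfl fun b _ => ?_
  rw [Finset.mul_sum]

/-- The first sum. -/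
private theorem sumA (k N M : ℕ) (R : ℝ) (hR : 1 ≤ R) :
    ∑ x ∈ FF k N M R, 7 * (((2 ^ x.1.1 : ℕ) : ℝ) * ((2 ^ x.1.2 : ℕ) : ℝ) /
      ((x.2.1 : ℝ) * x.2.2.1 * x.2.2.2)) ≤
      168 * (∑' s, ww s) ^ 2 * tl k * R ^ (2 / 3 : ℝ) := by
  classical
  set P := (Finset.range M ×ˢ (Finset.range M ×ˢ Finset.range M)) with hP
  set I := (Finset.range N ×ˢ Finset.range N) with hI
  -- the bound of one term
  have key : ∀ s : ℕ × ℕ × ℕ, SQ s.1 → SQ s.2.1 → SQ s.2.2 →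
      (k < s.1 ∨ k < s.2.1 ∨ k < s.2.2) →
      7 * (8 * (R * (qq s.1 * qq s.2.1 * qq s.2.2)) ^ (2 / 3 : ℝ)) /
        ((s.1 : ℝ) * s.2.1 * s.2.2) ≤
      56 * R ^ (2 / 3 : ℝ) * (tt k s.1 * ww s.2.1 * ww s.2.2 + ww s.1 * tt k s.2.1 * ww s.2.2 +
        ww s.1 * ww s.2.1 * tt k s.2.2) := by
    rintro ⟨s1, s2, s3⟩ h1 h2 h3 hk
    simp only at h1 h2 h3 hk ⊢
    have e : 7 * (8 * (R * (qq s1 * qq s2 * qq s3)) ^ (2 / 3 : ℝ)) /
        ((s1 : ℝ) * s2 * s3) = 56 * R ^ (2 / 3 : ℝ) * (ww s1 * ww s2 * ww s3) := by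
      have p1 : (s1 : ℝ) ≠ 0 := by exact_mod_cast h1.1
      have p2 : (s2 : ℝ) ≠ 0 := by exact_mod_cast h2.1
      have p3 : (s3 : ℝ) ≠ 0 := by exact_mod_cast h3.1
      unfold ww
      rw [if_pos h1, if_pos h2, if_pos h3, Real.mul_rpow (by linarith) (by positivity),
        Real.mul_rpow (by positivity) (by positivity), Real.mul_rpow (by positivity)
        (by positivity)]
      field_simp
      ring
    rw [e]
    refine mul_le_mul_of_nonneg_left ?_ (by positivity)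
    have a1 := ww_nonneg s1
    have a2 := ww_nonneg s2
    have a3 := ww_nonneg s3
    have b1 := tt_nonneg k s1
    have b2 := tt_nonneg k s2
    have b3 := tt_nonneg k s3
    have c1 : 0 ≤ tt k s1 * ww s2 * ww s3 := by positivity
    have c2 : 0 ≤ ww s1 * tt k s2 * ww s3 := by positivity
    have c3 : 0 ≤ ww s1 * ww s2 * tt k s3 := by positivity
    rcases hk with hk | hk | hk
    · have : tt k s1 = ww s1 := if_pos hk
      rw [this] at c1 ⊢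
      linarith
    · have : tt k s2 = ww s2 := if_pos hk
      rw [this] at c2 ⊢
      linarith
    · have : tt k s3 = ww s3 := if_pos hk
      rw [this] at c3 ⊢
      linarith
  have step1 : ∑ x ∈ FF k N M R, 7 * (((2 ^ x.1.1 : ℕ) : ℝ) * ((2 ^ x.1.2 : ℕ) : ℝ) /
      ((x.2.1 : ℝ) * x.2.2.1 * x.2.2.2)) ≤
      ∑ x ∈ I ×ˢ P, (if SQ x.2.1 ∧ SQ x.2.2.1 ∧ SQ x.2.2.2 ∧
          (k < x.2.1 ∨ k < x.2.2.1 ∨ k < x.2.2.2) then
        7 * (if x.1.1 ≤ x.1.2 ∧ (2 : ℝ) ^ (x.1.1 + 2 * x.1.2) ≤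
          R * (qq x.2.1 * qq x.2.2.1 * qq x.2.2.2) then (2 : ℝ) ^ (x.1.1 + x.1.2) else 0) /
          ((x.2.1 : ℝ) * x.2.2.1 * x.2.2.2) else 0) := by
    unfold FF
    rw [Finset.sum_filter]
    refine Finset.sum_le_sum fun x _ => ?_
    split_ifs with h1 h2 h3 h3 h2
    · push_cast
      rw [pow_add]
      apply le_of_eq
      ring
    · exact absurd ⟨h1.1, h1.2.2.2.2.2.2.2.1⟩ h3
    · exact absurd ⟨h1.2.1, h1.2.2.1, h1.2.2.2.1, h1.2.2.2.2.2.2.2.2.1⟩ h2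
    · positivity
    · simp
    · exact le_rfl
  refine step1.trans ?_
  rw [Finset.sum_product_right]
  have step2 : ∀ s ∈ P, ∑ x ∈ I, (if SQ s.1 ∧ SQ s.2.1 ∧ SQ s.2.2 ∧
          (k < s.1 ∨ k < s.2.1 ∨ k < s.2.2) then
        7 * (if x.1 ≤ x.2 ∧ (2 : ℝ) ^ (x.1 + 2 * x.2) ≤
          R * (qq s.1 * qq s.2.1 * qq s.2.2) then (2 : ℝ) ^ (x.1 + x.2) else 0) /
          ((s.1 : ℝ) * s.2.1 * s.2.2) else 0) ≤
      56 * R ^ (2 / 3 : ℝ) * (tt k s.1 * ww s.2.1 * ww s.2.2 + ww s.1 * tt k s.2.1 * ww s.2.2 +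
        ww s.1 * ww s.2.1 * tt k s.2.2) := by
    intro s _
    by_cases h : SQ s.1 ∧ SQ s.2.1 ∧ SQ s.2.2 ∧ (k < s.1 ∨ k < s.2.1 ∨ k < s.2.2)
    · simp only [if_pos h]
      refine le_trans ?_ (key s h.1 h.2.1 h.2.2.1 h.2.2.2)
      rw [← Finset.sum_div]
      refine div_le_div_of_nonneg_right ?_ (by positivity)
      rw [← Finset.mul_sum]
      refine mul_le_mul_of_nonneg_left ?_ (by norm_num)
      rw [hI, Finset.sum_product]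
      exact dyadic_sum _ (by positivity) N
    · simp only [if_neg h, Finset.sum_const_zero]
      have a1 := ww_nonneg s.1
      have a2 := ww_nonneg s.2.1
      have a3 := ww_nonneg s.2.2
      have b1 := tt_nonneg k s.1
      have b2 := tt_nonneg k s.2.1
      have b3 := tt_nonneg k s.2.2
      positivity
  refine (Finset.sum_le_sum step2).trans ?_
  rw [← Finset.mul_sum, Finset.sum_add_distrib, Finset.sum_add_distrib, hP,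
    sum3 M (tt k) ww ww, sum3 M ww (tt k) ww, sum3 M ww ww (tt k)]
  have hT := sum_tt k M
  have hW := sum_ww M
  have hT0 : 0 ≤ ∑ s ∈ Finset.range M, tt k s := Finset.sum_nonneg fun s _ => tt_nonneg k s
  have hW0 : 0 ≤ ∑ s ∈ Finset.range M, ww s := Finset.sum_nonneg fun s _ => ww_nonneg s
  have hW1 : 0 ≤ ∑' s, ww s := hW0.trans hW
  have hT1 : 0 ≤ tl k := hT0.trans hT
  have e1 : (∑ s ∈ Finset.range M, tt k s) * (∑ s ∈ Finset.range M, ww s) *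
      (∑ s ∈ Finset.range M, ww s) ≤ tl k * (∑' s, ww s) * (∑' s, ww s) := by gcongr
  have e2 : 56 * R ^ (2 / 3 : ℝ) * (3 * (tl k * (∑' s, ww s) * (∑' s, ww s))) =
      168 * (∑' s, ww s) ^ 2 * tl k * R ^ (2 / 3 : ℝ) := by ring
  rw [← e2]
  refine mul_le_mul_of_nonneg_left ?_ (by positivity)
  linarith [mul_comm (∑ s ∈ Finset.range M, ww s) (∑ s ∈ Finset.range M, tt k s),
    mul_comm ((∑ s ∈ Finset.range M, ww s) * (∑ s ∈ Finset.range M, ww s))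
      (∑ s ∈ Finset.range M, tt k s),
    mul_assoc (∑ s ∈ Finset.range M, tt k s) (∑ s ∈ Finset.range M, ww s)
      (∑ s ∈ Finset.range M, ww s)]

private theorem rho_bound {ρ : ℝ} (h : 1 / 16 ≤ ρ) :
    ρ ^ (1 / 3 : ℝ) ≤ 2 * ρ ^ (11 / 20 : ℝ) := by
  have h0 : 0 < ρ := by linarith
  have e : ρ ^ (1 / 3 : ℝ) = ρ ^ (-(13 / 60) : ℝ) * ρ ^ (11 / 20 : ℝ) := by
    rw [← Real.rpow_add h0]
    norm_num
  have h1 : ρ ^ (-(13 / 60) : ℝ) ≤ (1 / 16 : ℝ) ^ (-(13 / 60) : ℝ) :=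
    Real.rpow_le_rpow_of_nonpos (by norm_num) h (by norm_num)
  have h2 : (1 / 16 : ℝ) ^ (-(13 / 60) : ℝ) ≤ 2 := by
    have h3 : (1 / 16 : ℝ) ^ (-(13 / 60) : ℝ) = (2 : ℝ) ^ (13 / 15 : ℝ) := by
      have : (1 / 16 : ℝ) = (2 : ℝ) ^ (-4 : ℝ) := by
        rw [Real.rpow_neg (by norm_num)]
        norm_num
      rw [this, ← Real.rpow_mul (by norm_num)]
      norm_num
    rw [h3]
    calc (2 : ℝ) ^ (13 / 15 : ℝ) ≤ (2 : ℝ) ^ (1 : ℝ) :=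
          Real.rpow_le_rpow_of_exponent_le (by norm_num) (by norm_num)
      _ = 2 := Real.rpow_one 2
  rw [e]
  exact mul_le_mul_of_nonneg_right (h1.trans h2) (by positivity)

/-- The second sum. -/
private theorem sumB (k N M : ℕ) (R : ℝ) :
    ∑ x ∈ FF k N M R, 7 * (((2 ^ x.1.1 : ℕ) : ℝ) * ((2 ^ x.1.2 : ℕ) : ℝ) ^ 2 /
      ((x.2.1 : ℝ) * x.2.2.1 * x.2.2.2)) ^ (1 / 3 : ℝ) ≤
      42 * (∑' s, w2 s) ^ 3 * ((2 : ℝ) ^ N) ^ (33 / 20 : ℝ) := by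
  classical
  set P := (Finset.range M ×ˢ (Finset.range M ×ˢ Finset.range M)) with hP
  set I := (Finset.range N ×ˢ Finset.range N) with hI
  have step1 : ∑ x ∈ FF k N M R, 7 * (((2 ^ x.1.1 : ℕ) : ℝ) * ((2 ^ x.1.2 : ℕ) : ℝ) ^ 2 /
      ((x.2.1 : ℝ) * x.2.2.1 * x.2.2.2)) ^ (1 / 3 : ℝ) ≤
      ∑ x ∈ I ×ˢ P, 14 * ((2 : ℝ) ^ (x.1.1 + 2 * x.1.2)) ^ (11 / 20 : ℝ) *
        (w2 x.2.1 * w2 x.2.2.1 * w2 x.2.2.2) := by
    unfold FF
    rw [Finset.sum_filter]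
    refine Finset.sum_le_sum fun x _ => ?_
    split_ifs with h
    · obtain ⟨_, h1, h2, h3, _, _, _, _, _, l1, l2, l3⟩ := h
      have p1 : (0 : ℝ) < x.2.1 := by exact_mod_cast Nat.pos_of_ne_zero h1.1
      have p2 : (0 : ℝ) < x.2.2.1 := by exact_mod_cast Nat.pos_of_ne_zero h2.1
      have p3 : (0 : ℝ) < x.2.2.2 := by exact_mod_cast Nat.pos_of_ne_zero h3.1
      have q1 : (x.2.1 : ℝ) ≤ 2 * 2 ^ x.1.1 := by exact_mod_cast l1.le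
      have q2 : (x.2.2.1 : ℝ) ≤ 2 * 2 ^ x.1.2 := by exact_mod_cast l2.le
      have q3 : (x.2.2.2 : ℝ) ≤ 4 * 2 ^ x.1.2 := by exact_mod_cast l3.le
      have hT : ((2 ^ x.1.1 : ℕ) : ℝ) * ((2 ^ x.1.2 : ℕ) : ℝ) ^ 2 =
          (2 : ℝ) ^ (x.1.1 + 2 * x.1.2) := by
        push_cast
        rw [pow_add, mul_comm 2 x.1.2, pow_mul]
      have hS : (x.2.1 : ℝ) * x.2.2.1 * x.2.2.2 ≤ 16 * (2 : ℝ) ^ (x.1.1 + 2 * x.1.2) := by
        calc (x.2.1 : ℝ) * x.2.2.1 * x.2.2.2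
            ≤ (2 * 2 ^ x.1.1) * (2 * 2 ^ x.1.2) * (4 * 2 ^ x.1.2) := by gcongr
          _ = 16 * (2 : ℝ) ^ (x.1.1 + 2 * x.1.2) := by
            rw [pow_add, mul_comm 2 x.1.2, pow_mul]
            ring
      have hw : w2 x.2.1 * w2 x.2.2.1 * w2 x.2.2.2 =
          ((x.2.1 : ℝ) * x.2.2.1 * x.2.2.2) ^ (-(11 / 20) : ℝ) := by
        unfold w2
        rw [if_pos h1, if_pos h2, if_pos h3, Real.mul_rpow (by positivity) (by positivity),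
          Real.mul_rpow (by positivity) (by positivity)]
      rw [hT, hw]
      have hT0 : (0 : ℝ) < (2 : ℝ) ^ (x.1.1 + 2 * x.1.2) := by positivity
      have hS0 : 0 < (x.2.1 : ℝ) * x.2.2.1 * x.2.2.2 := by positivity
      have hb := rho_bound (ρ := (2 : ℝ) ^ (x.1.1 + 2 * x.1.2) /
        ((x.2.1 : ℝ) * x.2.2.1 * x.2.2.2)) (by
          rw [div_le_div_iff₀ (by norm_num) hS0]
          linarith)
      rw [Real.div_rpow hT0.le hS0.le _] at hb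
      rw [Real.div_rpow hT0.le hS0.le _] at hb ⊢
      rw [Real.rpow_neg hS0.le, ← div_eq_mul_inv]
      have e : 14 * ((2 : ℝ) ^ (x.1.1 + 2 * x.1.2)) ^ (11 / 20 : ℝ) /
          ((x.2.1 : ℝ) * x.2.2.1 * x.2.2.2) ^ (11 / 20 : ℝ) =
          7 * (2 * (((2 : ℝ) ^ (x.1.1 + 2 * x.1.2)) ^ (11 / 20 : ℝ) /
          ((x.2.1 : ℝ) * x.2.2.1 * x.2.2.2) ^ (11 / 20 : ℝ))) := by ring
      rw [e]
      linarith
    · have a1 := w2_nonneg x.2.1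
      have a2 := w2_nonneg x.2.2.1
      have a3 := w2_nonneg x.2.2.2
      positivity
  refine step1.trans ?_
  rw [Finset.sum_product]
  simp_rw [← Finset.mul_sum]
  rw [← Finset.sum_mul, ← Finset.mul_sum, hP, sum3 M w2 w2 w2, hI, Finset.sum_product]
  have hd := dyadic_sum2 N
  have hW := sum_w2 M
  have hW0 : 0 ≤ ∑ s ∈ Finset.range M, w2 s := Finset.sum_nonneg fun s _ => w2_nonneg s
  have e : 42 * (∑' s, w2 s) ^ 3 * ((2 : ℝ) ^ N) ^ (33 / 20 : ℝ) =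
      14 * (3 * ((2 : ℝ) ^ N) ^ (33 / 20 : ℝ)) *
        ((∑' s, w2 s) * (∑' s, w2 s) * (∑' s, w2 s)) := by ring
  rw [e]
  have hW1 : 0 ≤ ∑' s, w2 s := hW0.trans hW
  gcongr

theorem half_tail : ∃ C : ℝ, 0 < C ∧ ∀ (k : ℕ) (R X : ℝ), 1 ≤ R → 1 ≤ X →
    ({p : ℕ × ℕ | p ∈ Sol R ∧ p.1 ≤ p.2 ∧ ((p.1 + p.2 : ℕ) : ℝ) ≤ X ∧
      (k < sf p.1 ∨ k < sf p.2 ∨ k < sf (p.1 + p.2))}.Finite) ∧
    (({p : ℕ × ℕ | p ∈ Sol R ∧ p.1 ≤ p.2 ∧ ((p.1 + p.2 : ℕ) : ℝ) ≤ X ∧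
      (k < sf p.1 ∨ k < sf p.2 ∨ k < sf (p.1 + p.2))}.ncard : ℕ) : ℝ) ≤
      C * tl k * R ^ (2 / 3 : ℝ) + C * X ^ (33 / 20 : ℝ) := by
  classical
  have hW1 : 0 ≤ ∑' s, ww s := tsum_nonneg ww_nonneg
  have hW2 : 0 ≤ ∑' s, w2 s := tsum_nonneg w2_nonneg
  refine ⟨168 * (∑' s, ww s) ^ 2 + 168 * (∑' s, w2 s) ^ 3 + 1, by positivity, ?_⟩
  intro k R X hR hX
  -- choice of N
  set N := Nat.log 2 ⌊X⌋₊ + 1 with hN
  have hX0 : (0 : ℝ) ≤ X := by linarith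
  have hfl : ⌊X⌋₊ ≠ 0 := by
    have : 1 ≤ ⌊X⌋₊ := Nat.le_floor (by simpa using hX)
    omega
  have hN1 : X < (2 : ℝ) ^ N := by
    have h1 : ⌊X⌋₊ < 2 ^ N := Nat.lt_pow_succ_log_self (by norm_num) _
    have h2 : X < ⌊X⌋₊ + 1 := Nat.lt_floor_add_one X
    have h3 : ((⌊X⌋₊ + 1 : ℕ) : ℝ) ≤ ((2 ^ N : ℕ) : ℝ) := by exact_mod_cast h1
    push_cast at h3
    linarith
  have hN2 : (2 : ℝ) ^ N ≤ 2 * X := by
    have h1 : 2 ^ Nat.log 2 ⌊X⌋₊ ≤ ⌊X⌋₊ := Nat.pow_log_le_self 2 hfl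
    have h2 : ((2 ^ Nat.log 2 ⌊X⌋₊ : ℕ) : ℝ) ≤ (⌊X⌋₊ : ℝ) := by exact_mod_cast h1
    have h3 : (⌊X⌋₊ : ℝ) ≤ X := Nat.floor_le hX0
    rw [hN, pow_succ]
    push_cast at h2
    linarith
  have hcov := cover k N R X hN1
  have hfinU : (⋃ x ∈ FF k N (4 * 2 ^ N) R,
      Box x.2.1 x.2.2.1 x.2.2.2 (2 ^ x.1.1) (2 ^ x.1.2)).Finite :=
    Set.Finite.biUnion (Finset.finite_toSet _) fun x _ => Box_finite _ _ _ _ _
  refine ⟨hfinU.subset hcov, ?_⟩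
  have h1 : (({p : ℕ × ℕ | p ∈ Sol R ∧ p.1 ≤ p.2 ∧ ((p.1 + p.2 : ℕ) : ℝ) ≤ X ∧
      (k < sf p.1 ∨ k < sf p.2 ∨ k < sf (p.1 + p.2))}.ncard : ℕ) : ℝ) ≤
      ∑ x ∈ FF k N (4 * 2 ^ N) R,
        ((Box x.2.1 x.2.2.1 x.2.2.2 (2 ^ x.1.1) (2 ^ x.1.2)).ncard : ℝ) := by
    have h2 := Set.ncard_le_ncard hcov hfinU
    have h3 := Finset.set_ncard_biUnion_le (FF k N (4 * 2 ^ N) R)
      (fun x => Box x.2.1 x.2.2.1 x.2.2.2 (2 ^ x.1.1) (2 ^ x.1.2))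
    exact_mod_cast h2.trans h3
  refine h1.trans ?_
  have h2 : ∀ x ∈ FF k N (4 * 2 ^ N) R,
      ((Box x.2.1 x.2.2.1 x.2.2.2 (2 ^ x.1.1) (2 ^ x.1.2)).ncard : ℝ) ≤
      7 * (((2 ^ x.1.1 : ℕ) : ℝ) * ((2 ^ x.1.2 : ℕ) : ℝ) /
        ((x.2.1 : ℝ) * x.2.2.1 * x.2.2.2)) +
      7 * (((2 ^ x.1.1 : ℕ) : ℝ) * ((2 ^ x.1.2 : ℕ) : ℝ) ^ 2 /
        ((x.2.1 : ℝ) * x.2.2.1 * x.2.2.2)) ^ (1 / 3 : ℝ) := by
    intro x hx
    simp only [FF, Finset.mem_filter] at hx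
    obtain ⟨_, hij, s1, s2, s3, c12, c13, c23, _⟩ := hx
    exact box_count (Nat.pos_of_ne_zero s1.1) (Nat.pos_of_ne_zero s2.1)
      (Nat.pos_of_ne_zero s3.1) c12 c13 c23 (by positivity)
      (Nat.pow_le_pow_right (by norm_num) hij)
  refine (Finset.sum_le_sum h2).trans ?_
  rw [Finset.sum_add_distrib]
  have hA := sumA k N (4 * 2 ^ N) R hR
  have hB := sumB k N (4 * 2 ^ N) R
  have hT1 : 0 ≤ tl k := by
    have := sum_tt k 0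
    simpa using this
  have hX2 : ((2 : ℝ) ^ N) ^ (33 / 20 : ℝ) ≤ 4 * X ^ (33 / 20 : ℝ) := by
    calc ((2 : ℝ) ^ N) ^ (33 / 20 : ℝ) ≤ (2 * X) ^ (33 / 20 : ℝ) :=
          Real.rpow_le_rpow (by positivity) hN2 (by norm_num)
      _ = 2 ^ (33 / 20 : ℝ) * X ^ (33 / 20 : ℝ) := Real.mul_rpow (by norm_num) hX0
      _ ≤ 4 * X ^ (33 / 20 : ℝ) := by
        refine mul_le_mul_of_nonneg_right ?_ (by positivity)
        calc (2 : ℝ) ^ (33 / 20 : ℝ) ≤ (2 : ℝ) ^ (2 : ℝ) :=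
              Real.rpow_le_rpow_of_exponent_le (by norm_num) (by norm_num)
          _ = 4 := by norm_num
  have hB2 : 42 * (∑' s, w2 s) ^ 3 * ((2 : ℝ) ^ N) ^ (33 / 20 : ℝ) ≤
      168 * (∑' s, w2 s) ^ 3 * X ^ (33 / 20 : ℝ) := by
    calc 42 * (∑' s, w2 s) ^ 3 * ((2 : ℝ) ^ N) ^ (33 / 20 : ℝ)
        ≤ 42 * (∑' s, w2 s) ^ 3 * (4 * X ^ (33 / 20 : ℝ)) := by gcongr
      _ = 168 * (∑' s, w2 s) ^ 3 * X ^ (33 / 20 : ℝ) := by ring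
  have hR0 : 0 ≤ R ^ (2 / 3 : ℝ) := by positivity
  have hX3 : 0 ≤ X ^ (33 / 20 : ℝ) := by positivity
  have e1 : 0 ≤ (168 * (∑' s, w2 s) ^ 3 + 1) * tl k * R ^ (2 / 3 : ℝ) := by positivity
  have e2 : 0 ≤ (168 * (∑' s, ww s) ^ 2 + 1) * X ^ (33 / 20 : ℝ) := by positivity
  calc _ ≤ 168 * (∑' s, ww s) ^ 2 * tl k * R ^ (2 / 3 : ℝ) +
        168 * (∑' s, w2 s) ^ 3 * X ^ (33 / 20 : ℝ) := add_le_add hA (hB.trans hB2)
    _ ≤ 168 * (∑' s, ww s) ^ 2 * tl k * R ^ (2 / 3 : ℝ) +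
        (168 * (∑' s, w2 s) ^ 3 + 1) * tl k * R ^ (2 / 3 : ℝ) +
        (168 * (∑' s, w2 s) ^ 3 * X ^ (33 / 20 : ℝ) +
        (168 * (∑' s, ww s) ^ 2 + 1) * X ^ (33 / 20 : ℝ)) := by linarith
    _ = _ := by ring

end AbcAsyQ
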