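import Pool.Agent.Work.MP_a793bb_nt.AsyQ.LinkQ
import Pool.Agent.Work.MP_a793bb_nt.AsyQ.Fin
import Pool.Agent.Work.MP_a793bb_nt.OrdM.FinalM
import Pool.Agent.Work.MP_a793bb_nt.OrdH.FinalH

/-!
# HighQ: the solutions with `a + b > R ^ (2 / 5)`, and the final theorem over `ℚ`

Proof. `(a, b) ↦ t = a / (a + b)` is injective on coprime pairs of positive integers, `t ≠ 0, 1`,
`hh t = log (a + b)`, `Rs (Ip t) = log (rad (a b (a + b)))`. With `ℓ = log R` and
`2 / 5 = 1 / 3 + 1 / 15` the set is covered by the sets of `partII_affine` and `partIII_affine`.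
-/

set_option autoImplicit false

open LinearAlgebra.Projectivization Pool.Agent.Work.MP_a793bb_nt
  Pool.Agent.Work.MP_a793bb_nt.BPlus Filter Topology

namespace AbcAsyQ

private theorem tq_hh {a b : ℕ} (ha : 0 < a) (hb : 0 < b) (h : Nat.Coprime a b) :
    BPlus.hh ((a : ℚ) / ((a : ℚ) + b)) = Real.log ((a + b : ℕ) : ℝ) := by
  have h1 := ht_coprime ha hb h
  have hc : (-((a : ℚ) + b)) ≠ 0 := by
    have : (0 : ℚ) < (a : ℚ) + b := by positivity
    intro h0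
    linarith
  have hs : (a : ℚ) + b + (-((a : ℚ) + b)) = 0 := by ring
  rw [ht, logHeight_affine hc hs] at h1
  have h2 : (-(a : ℚ) / -((a : ℚ) + b)) = (a : ℚ) / ((a : ℚ) + b) := neg_div_neg_eq _ _
  rw [h2, Module.finrank_self, Nat.cast_one, div_one] at h1
  exact h1

private theorem tq_rs {a b : ℕ} (ha : 0 < a) (hb : 0 < b) (h : Nat.Coprime a b) :
    Rs (Ip ((a : ℚ) / ((a : ℚ) + b))) = Real.log ((rd (a * b * (a + b)) : ℕ) : ℝ) := by
  have h1 := rad_coprime ha hb h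
  have hc : (-((a : ℚ) + b)) ≠ 0 := by
    have : (0 : ℚ) < (a : ℚ) + b := by positivity
    intro h0
    linarith
  have hs : (a : ℚ) + b + (-((a : ℚ) + b)) = 0 := by ring
  rw [rad_affine hc hs] at h1
  have h2 : (-(a : ℚ) / -((a : ℚ) + b)) = (a : ℚ) / ((a : ℚ) + b) := neg_div_neg_eq _ _
  rw [h2, Module.finrank_self, Nat.cast_one, div_one] at h1
  exact h1

private theorem tq_inj {a b a' b' : ℕ} (hb : 0 < b) (hb' : 0 < b') (h : Nat.Coprime a b)
    (h' : Nat.Coprime a' b')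
    (he : (a : ℚ) / ((a : ℚ) + b) = (a' : ℚ) / ((a' : ℚ) + b')) : a = a' ∧ b = b' := by
  have p1 : (0 : ℚ) < (a : ℚ) + b := by positivity
  have p2 : (0 : ℚ) < (a' : ℚ) + b' := by positivity
  rw [div_eq_div_iff p1.ne' p2.ne'] at he
  have h1 : a * b' = a' * b := by
    have : (a : ℚ) * b' = a' * b := by linarith
    exact_mod_cast this
  have d1 : a ∣ a' := by
    have : a ∣ a' * b := ⟨b', h1.symm⟩
    exact h.dvd_of_dvd_mul_right this
  have d2 : a' ∣ a := by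
    have : a' ∣ a * b' := ⟨b, h1⟩
    exact h'.dvd_of_dvd_mul_right this
  have e1 : a = a' := Nat.dvd_antisymm d1 d2
  refine ⟨e1, ?_⟩
  subst e1
  rcases Nat.eq_zero_or_pos a with h0 | h0
  · subst h0
    rw [Nat.coprime_zero_left] at h h'
    rw [h, h']
  · exact (Nat.eq_of_mul_eq_mul_left h0 h1).symm

theorem high_tendsto :
    Tendsto (fun R : ℝ =>
      (({p ∈ Sol R | R ^ (2 / 5 : ℝ) < ((p.1 + p.2 : ℕ) : ℝ)}.ncard : ℕ) : ℝ) /
        R ^ (2 / 3 : ℝ)) atTop (𝓝 0) := by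
  obtain ⟨Lam, η₁, C₁, hLam, hη₁, h1⟩ := partIII_affine ℚ
  obtain ⟨η₂, C₂, hη₂, h2⟩ := partII_affine ℚ Lam (1 / 15) hLam (by norm_num)
  -- the bound
  have key : ∀ R : ℝ, 1 ≤ R →
      (({p ∈ Sol R | R ^ (2 / 5 : ℝ) < ((p.1 + p.2 : ℕ) : ℝ)}.ncard : ℕ) : ℝ) ≤
        C₁ * R ^ (2 / 3 - η₁) + C₂ * R ^ (2 / 3 - η₂) := by
    intro R hR
    have hR0 : 0 < R := by linarith
    have hl : 0 ≤ Real.log R := Real.log_nonneg hR
    obtain ⟨f1, c1⟩ := h1 (Real.log R) hl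
    obtain ⟨f2, c2⟩ := h2 (Real.log R) hl
    have e1 : ∀ x : ℝ, Real.exp (x * Real.log R) = R ^ x := by
      intro x
      rw [Real.rpow_def_of_pos hR0, mul_comm]
    rw [e1] at c1 c2
    set A := {t : ℚ | t ≠ 0 ∧ t ≠ 1 ∧ Rs (Ip t) ≤ Real.log R ∧ Lam * Real.log R ≤ BPlus.hh t} with hA
    set B := {t : ℚ | t ≠ 0 ∧ t ≠ 1 ∧ Rs (Ip t) ≤ Real.log R ∧
      (1 / 3 + 1 / 15) * Real.log R ≤ BPlus.hh t ∧ BPlus.hh t ≤ Lam * Real.log R} with hB
    have hle : {p ∈ Sol R | R ^ (2 / 5 : ℝ) < ((p.1 + p.2 : ℕ) : ℝ)}.ncard ≤ (A ∪ B).ncard := by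
      refine Set.ncard_le_ncard_of_injOn (fun p => (p.1 : ℚ) / ((p.1 : ℚ) + p.2)) ?_ ?_
        (f1.union f2)
      · rintro ⟨a, b⟩ ⟨⟨ha, hb, hab, hrd⟩, hgt⟩
        simp only at ha hb hab hrd hgt ⊢
        have pa : (0 : ℚ) < a := by exact_mod_cast ha
        have pb : (0 : ℚ) < b := by exact_mod_cast hb
        have t0 : (a : ℚ) / ((a : ℚ) + b) ≠ 0 := by positivity
        have t1 : (a : ℚ) / ((a : ℚ) + b) ≠ 1 := by
          intro h0
          rw [div_eq_one_iff_eq (by positivity)] at h0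
          linarith
        have t2 : Rs (Ip ((a : ℚ) / ((a : ℚ) + b))) ≤ Real.log R := by
          rw [tq_rs ha hb hab]
          refine Real.log_le_log ?_ hrd
          exact_mod_cast rd_pos _
        have t3 : (1 / 3 + 1 / 15) * Real.log R ≤ BPlus.hh ((a : ℚ) / ((a : ℚ) + b)) := by
          rw [tq_hh ha hb hab]
          have e : (1 / 3 + 1 / 15 : ℝ) = 2 / 5 := by norm_num
          rw [e, ← Real.log_rpow hR0]
          exact Real.log_le_log (by positivity) hgt.le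
        rcases le_total (Lam * Real.log R) (BPlus.hh ((a : ℚ) / ((a : ℚ) + b))) with h | h
        · exact Or.inl ⟨t0, t1, t2, h⟩
        · exact Or.inr ⟨t0, t1, t2, t3, h⟩
      · rintro ⟨a, b⟩ ⟨⟨ha, hb, hab, _⟩, _⟩ ⟨a', b'⟩ ⟨⟨ha', hb', hab', _⟩, _⟩ he
        simp only at ha hb hab ha' hb' hab' he
        obtain ⟨r1, r2⟩ := tq_inj hb hb' hab hab' he
        rw [r1, r2]
    have hun := Set.ncard_union_le A B
    have h3 : (({p ∈ Sol R | R ^ (2 / 5 : ℝ) < ((p.1 + p.2 : ℕ) : ℝ)}.ncard : ℕ) : ℝ) ≤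
        (A.ncard : ℝ) + (B.ncard : ℝ) := by exact_mod_cast hle.trans hun
    linarith
  have lim : ∀ (C η : ℝ), 0 < η →
      Tendsto (fun R : ℝ => C * R ^ (-η)) atTop (𝓝 0) := by
    intro C η hη
    have := (tendsto_rpow_neg_atTop hη).const_mul C
    simpa using this
  have lim2 := (lim C₁ η₁ hη₁).add (lim C₂ η₂ hη₂)
  rw [add_zero] at lim2
  refine squeeze_zero' ?_ ?_ lim2
  · filter_upwards [eventually_ge_atTop 1] with R hR
    have hR0 : 0 < R := by linarith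
    positivity
  · filter_upwards [eventually_ge_atTop 1] with R hR
    have hR0 : 0 < R := by linarith
    rw [div_le_iff₀ (by positivity)]
    refine (key R hR).trans (le_of_eq ?_)
    rw [add_mul, mul_assoc, mul_assoc, ← Real.rpow_add hR0, ← Real.rpow_add hR0]
    congr 3 <;> ring

/-- The asymptotic formula over `ℚ`. -/
theorem main_asymptotic :
    Tendsto (fun R : ℝ => ((Sol R).ncard : ℝ) / R ^ (2 / 3 : ℝ)) atTop
      (𝓝 (AA * ∏' p : Nat.Primes, Ep p)) :=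
  assembly Sol_finite high_tendsto

end AbcAsyQ
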