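import Pool.Agent.Work.MP_a793bb_nt.RadE.FinalE
import Pool.Agent.Work.MP_a793bb_nt.AsyQ.Defs

/-!
# LinkQ: coprime pairs and points of the abc line over `ℚ`  (size M)

PROOF. The map `(a, b) ↦ (a : b : -(a + b))`, from `Sol R` to `abcPts ℚ R`. It is injective on coprime pairs of
positive integers (if `(a' , b') = λ (a, b)` with `λ ∈ ℚ`, then `a b' = a' b`, so `a = a'`, `b = b'` by
coprimality and positivity). The height: `ht a b (-(a+b)) = log (a + b)` (at the finite places the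
maximum is `1` by coprimality; degree `1`; Mathlib has the logHeight of coprime integers, otherwise
use the modules `HtEq` of RadK), `rad a b (-(a+b)) = log (rd (a b (a + b)))` (a prime `p` of `ℤ`
is in `I_ℚ` iff `p ∣ a b (a + b)`; norm `p`). Compare with the earlier bridge between `ℕ × ℕ` and
number fields in `Rad/`, `RadL/`, `TR/` or ask helper1.
-/

set_option autoImplicit false

open LinearAlgebra.Projectivization Pool.Agent.Work.MP_a793bb_nt

namespace AbcAsyQ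

open NumberField IsDedekindDomain Rat.HeightOneSpectrum

private theorem lq_gcd {a b : ℕ} (h : Nat.Coprime a b) :
    (Finset.univ : Finset (Fin 3)).gcd (![(a : ℤ), (b : ℤ), -((a : ℤ) + b)] : Fin 3 → ℤ) = 1 := by
  have h0 : (Finset.univ : Finset (Fin 3)).gcd (![(a : ℤ), (b : ℤ), -((a : ℤ) + b)] :
      Fin 3 → ℤ) ∣ 1 := by
    have h1 := Finset.gcd_dvd (f := (![(a : ℤ), (b : ℤ), -((a : ℤ) + b)] : Fin 3 → ℤ))
      (Finset.mem_univ (0 : Fin 3))
    have h2 := Finset.gcd_dvd (f := (![(a : ℤ), (b : ℤ), -((a : ℤ) + b)] : Fin 3 → ℤ))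
      (Finset.mem_univ (1 : Fin 3))
    simp only [Matrix.cons_val_zero, Matrix.cons_val_one] at h1 h2
    have h3 : IsCoprime (a : ℤ) (b : ℤ) := Nat.isCoprime_iff_coprime.2 h
    obtain ⟨u, v, huv⟩ := h3
    rw [← huv]
    exact dvd_add (h1.mul_left _) (h2.mul_left _)
  have h4 : normalize ((Finset.univ : Finset (Fin 3)).gcd
      (![(a : ℤ), (b : ℤ), -((a : ℤ) + b)] : Fin 3 → ℤ)) = 1 :=
    normalize_eq_one.2 (isUnit_of_dvd_one h0)
  rwa [Finset.normalize_gcd] at h4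

theorem ht_coprime {a b : ℕ} (ha : 0 < a) (hb : 0 < b) (h : Nat.Coprime a b) :
    ht (a : ℚ) (b : ℚ) (-((a : ℚ) + b)) = Real.log ((a + b : ℕ) : ℝ) := by
  have h1 := Rat.logHeight_eq_max_abs_of_gcd_eq_one (lq_gcd h)
  have h2 : (((↑) : ℤ → ℚ) ∘ ![(a : ℤ), (b : ℤ), -((a : ℤ) + b)]) =
      ![(a : ℚ), (b : ℚ), -((a : ℚ) + b)] := by
    ext i
    fin_cases i <;> simp
  have h3 : (⨆ i, |(![(a : ℤ), (b : ℤ), -((a : ℤ) + b)] : Fin 3 → ℤ) i|) = ((a + b : ℕ) : ℤ) := by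
    apply le_antisymm
    · refine ciSup_le fun i => ?_
      fin_cases i
      · simp
      · simp
      · simp only [Fin.reduceFinMk, Matrix.cons_val, abs_neg]
        rw [abs_of_nonneg (by positivity)]
        push_cast
        exact le_rfl
    · refine le_ciSup_of_le (Set.finite_range _).bddAbove (2 : Fin 3) ?_
      simp only [Matrix.cons_val, abs_neg]
      rw [abs_of_nonneg (by positivity)]
      push_cast
      exact le_rfl
  rw [h2, h3] at h1
  rw [ht, h1, Module.finrank_self]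
  push_cast
  rw [div_one]

private theorem lq_mem (p : HeightOneSpectrum (𝓞 ℚ)) (n : ℕ) :
    (n : 𝓞 ℚ) ∈ p.asIdeal ↔ natGenerator p ∣ n := by
  rw [natGenerator_dvd_iff, ← map_natCast (Rat.IsIntegralClosure.intEquiv (𝓞 ℚ)) n,
    Ideal.apply_mem_of_equiv_iff]

private theorem lq_val (p : HeightOneSpectrum (𝓞 ℚ)) (n : ℕ) :
    p.valuation ℚ (n : ℚ) = 1 ↔ ¬ natGenerator p ∣ n := by
  have e : (algebraMap (𝓞 ℚ) ℚ) (n : 𝓞 ℚ) = (n : ℚ) := map_natCast (algebraMap (𝓞 ℚ) ℚ) n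
  have h1 : p.valuation ℚ (algebraMap (𝓞 ℚ) ℚ (n : 𝓞 ℚ)) ≤ 1 := p.valuation_le_one _
  have h2 : p.valuation ℚ (algebraMap (𝓞 ℚ) ℚ (n : 𝓞 ℚ)) < 1 ↔ (n : 𝓞 ℚ) ∈ p.asIdeal :=
    p.valuation_lt_one_iff_mem _
  rw [← lq_mem, ← h2, not_lt, ← e]
  exact ⟨fun h => h.ge, fun h => le_antisymm h1 h⟩

private theorem lq_norm (p : HeightOneSpectrum (𝓞 ℚ)) :
    Ideal.absNorm p.asIdeal = natGenerator p := by
  have h1 : Ideal.span {((natGenerator p : ℕ) : 𝓞 ℚ)} ≤ p.asIdeal := by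
    rw [Ideal.span_singleton_le_iff_mem, lq_mem]
  have h2 : Ideal.absNorm p.asIdeal ∣ natGenerator p := by
    have h3 := Ideal.absNorm_dvd_absNorm_of_le h1
    rwa [Ideal.absNorm_span_natCast, NumberField.RingOfIntegers.rank, Module.finrank_self,
      pow_one] at h3
  rcases (Nat.dvd_prime (prime_natGenerator p)).1 h2 with h4 | h4
  · exact absurd (Ideal.absNorm_eq_one_iff.1 h4) p.isPrime.ne_top
  · exact h4

private theorem lq_bad (p : HeightOneSpectrum (𝓞 ℚ)) {a b : ℕ} (h : Nat.Coprime a b) :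
    p ∈ badPrimes (a : ℚ) (b : ℚ) (-((a : ℚ) + b)) ↔ natGenerator p ∣ a * b * (a + b) := by
  have hq : (natGenerator p).Prime := prime_natGenerator p
  have hc : (p.valuation ℚ) (-((a : ℚ) + b)) = p.valuation ℚ (((a + b : ℕ) : ℚ)) := by
    rw [Valuation.map_neg, Nat.cast_add]
  have hab : ¬ (natGenerator p ∣ a ∧ natGenerator p ∣ b) := fun hh =>
    hq.one_lt.ne' (Nat.dvd_one.1 (h ▸ Nat.dvd_gcd hh.1 hh.2))
  have hva := lq_val p a
  have hvb := lq_val p b
  have hvc := lq_val p (a + b)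
  show ¬ _ ↔ _
  rw [hc, hq.dvd_mul, hq.dvd_mul]
  constructor
  · intro hne
    by_contra hcon
    rw [not_or, not_or] at hcon
    rw [hva.2 hcon.1.1, hvb.2 hcon.1.2, hvc.2 hcon.2] at hne
    exact hne ⟨rfl, rfl⟩
  · rintro hd ⟨h1, h2⟩
    rw [← h1] at hvb
    rw [← h2, ← h1] at hvc
    have e1 : natGenerator p ∣ a ↔ natGenerator p ∣ b := by
      have := hva.symm.trans hvb
      tauto
    have e2 : natGenerator p ∣ a ↔ natGenerator p ∣ a + b := by
      have := hva.symm.trans hvc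
      tauto
    have e3 : natGenerator p ∣ a := by tauto
    exact hab ⟨e3, e1.1 e3⟩

theorem rad_coprime {a b : ℕ} (ha : 0 < a) (hb : 0 < b) (h : Nat.Coprime a b) :
    rad (a : ℚ) (b : ℚ) (-((a : ℚ) + b)) = Real.log ((rd (a * b * (a + b)) : ℕ) : ℝ) := by
  have hn : a * b * (a + b) ≠ 0 := by positivity
  rw [rad, Module.finrank_self, Nat.cast_one, div_one, rd, Nat.cast_prod, Real.log_prod]
  · have h1 : (∑ᶠ (p : HeightOneSpectrum (𝓞 ℚ)) (_ : p ∈ badPrimes (a : ℚ) (b : ℚ)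
        (-((a : ℚ) + b))), Real.log (Ideal.absNorm p.asIdeal)) =
        ∑ᶠ (q : Nat.Primes) (_ : (q : ℕ) ∣ a * b * (a + b)), Real.log (q : ℕ) := by
      refine finsum_eq_of_bijective (primesEquiv (R := 𝓞 ℚ)) (primesEquiv (R := 𝓞 ℚ)).bijective ?_
      intro p
      have h2 : ((primesEquiv p : Nat.Primes) : ℕ) = natGenerator p := rfl
      rw [h2, lq_norm]
      exact finsum_congr_Prop (propext (lq_bad p h)) (fun _ => rfl)
    have h3 : (∑ᶠ (q : Nat.Primes) (_ : (q : ℕ) ∣ a * b * (a + b)), Real.log (q : ℕ)) =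
        ∑ q ∈ (a * b * (a + b)).primeFactors.subtype Nat.Prime, Real.log ((q : ℕ) : ℝ) := by
      rw [← finsum_mem_coe_finset]
      refine finsum_congr fun q => finsum_congr_Prop (propext ?_) (fun _ => rfl)
      exact ⟨fun h4 => Finset.mem_coe.2 (Finset.mem_subtype.2
          (Nat.mem_primeFactors.2 ⟨q.2, h4, hn⟩)),
        fun h4 => (Nat.mem_primeFactors.1 (Finset.mem_subtype.1 (Finset.mem_coe.1 h4))).2.1⟩
    rw [h1, h3]
    exact Finset.sum_subtype_of_mem (fun x : ℕ => Real.log (x : ℝ))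
      (fun x hx => Nat.prime_of_mem_primeFactors hx)
  · intro p hp
    exact_mod_cast (Nat.prime_of_mem_primeFactors hp).ne_zero

theorem Sol_finite (R : ℝ) : (Sol R).Finite := by
  obtain ⟨C, hC1, hC⟩ := AbcRadK.eff_height ℚ
  obtain ⟨ℓ, hℓ⟩ : ∃ ℓ : ℝ, ℓ = max (Real.log R) 1 := ⟨_, rfl⟩
  have hℓ1 : 1 ≤ ℓ := by
    rw [hℓ]
    exact le_max_right _ _
  have hℓR : Real.log R ≤ ℓ := by
    rw [hℓ]
    exact le_max_left _ _
  obtain ⟨N, hN⟩ : ∃ N : ℕ, Real.exp (Real.exp (C * ℓ ^ 2)) ≤ N := exists_nat_ge _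
  refine ((Set.finite_Iic N).prod (Set.finite_Iic N)).subset ?_
  rintro ⟨a, b⟩ ⟨ha, hb, hcop, hrd⟩
  replace ha : 0 < a := ha
  replace hb : 0 < b := hb
  replace hcop : Nat.Coprime a b := hcop
  replace hrd : (rd (a * b * (a + b)) : ℝ) ≤ R := hrd
  have hrd0 : 0 < rd (a * b * (a + b)) :=
    Finset.prod_pos fun p hp => (Nat.prime_of_mem_primeFactors hp).pos
  have ha' : (a : ℚ) ≠ 0 := by positivity
  have hb' : (b : ℚ) ≠ 0 := by positivity
  have hc' : -((a : ℚ) + b) ≠ 0 := by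
    rw [neg_ne_zero]
    positivity
  have habc : (a : ℚ) + b + -((a : ℚ) + b) = 0 := by ring
  have h1 : Rs (Ip (-(a : ℚ) / -((a : ℚ) + b))) ≤ ℓ := by
    have h2 := rad_affine hc' habc
    rw [Module.finrank_self, Nat.cast_one, div_one, rad_coprime ha hb hcop] at h2
    rw [← h2]
    refine (Real.log_le_log ?_ hrd).trans hℓR
    exact_mod_cast hrd0
  have h3 := hC ℓ _ hℓ1 (affine_ne_zero ha' hc') (affine_ne_one hb' hc' habc) h1
  have h4 : ht (a : ℚ) (b : ℚ) (-((a : ℚ) + b)) = BPlus.hh (-(a : ℚ) / -((a : ℚ) + b)) := by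
    rw [ht, logHeight_affine hc' habc, Module.finrank_self, Nat.cast_one, div_one]
    rfl
  rw [← h4, ht_coprime ha hb hcop] at h3
  have h5 : ((a + b : ℕ) : ℝ) ≤ N := by
    refine le_trans ?_ hN
    rw [← Real.log_le_iff_le_exp (by positivity)]
    exact h3
  have h6 : a + b ≤ N := by exact_mod_cast h5
  exact ⟨show a ≤ N by omega, show b ≤ N by omega⟩

end AbcAsyQ
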