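import Pool.Agent.Work.MP_a793bb_nt.AsyQ.Crt

/-!
# LocP: the local factor  (size M-L)

PROOF. Let `m = p ^ (k + 1)`. In `Phi m` only pairs `(a, b)` not both divisible by `p` count. Split
them into four disjoint sets: `p` divides none of `a, b, a + b`; `p ∣ a`, `p ∤ b`; `p ∤ a`, `p ∣ b`;
`p ∤ a, b` and `p ∣ a + b`. First set: `gcd(a b (a+b), m) = 1`, `hh = 1`, number of pairs
`p ^ (2k) (p - 1) (p - 2)`. Second set: `gcd(a b (a+b), m) = gcd(a, m)`; the number of `a ∈ range m`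
with `gcd(a, m) = p ^ (e+1)`, `0 ≤ e < k`, is `p ^ (k-e) - p ^ (k-e-1)`, and with
`gcd(a, m) = p ^ (k+1)` it is `1` (`a = 0`); the number of `b` is `p ^ (k+1) - p ^ k`; the value of
`hh` is `(p ^ e) ^ (2/3)` and `(p ^ k) ^ (2/3)`. Dividing by `m² = p ^ (2k+2)` the second set
contributes `(1 - 1/p)² ∑_{e<k} p ^ (-(e+1)) p ^ (2e/3) + (1 - 1/p) p ^ (-(k+1)) p ^ (2k/3)`.
Third set: symmetric. Fourth set: `(a, b) ↦ (a + b mod m, b)` is a bijection to the second set and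
`gcd(a b (a+b), m) = gcd(a + b, m)`. The sum is `EpK p k`.
HINT: prove a lemma for the sum over `a ∈ range m` of `F (gcd(a, m))` with `F` supported on
multiples of `p`, by induction on `k` or by `Nat.card_multiples`/`Nat.filter_dvd...`.
-/

set_option autoImplicit false

namespace AbcAsyQ

private noncomputable def w (m x : ℕ) : ℝ := (qq (Nat.gcd x m) : ℝ) ^ (2 / 3 : ℝ)

private theorem w_one {m x : ℕ} (h : Nat.Coprime x m) : w m x = 1 := by
  have h1 : qq 1 = 1 := by simp [qq]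
  unfold w
  rw [Nat.Coprime] at h
  rw [h, h1]
  simp

private theorem w_add (m x : ℕ) : w m (m + x) = w m x := by
  unfold w
  simp

private theorem sum_shift (m b : ℕ) :
    ∑ a ∈ Finset.range m, w m (a + b) = ∑ a ∈ Finset.range m, w m a := by
  induction b with
  | zero => simp
  | succ b ih =>
    rw [← ih]
    have h1 := Finset.sum_range_succ (fun a => w m (a + b)) m
    have h2 := Finset.sum_range_succ' (fun a => w m (a + b)) m
    rw [h1] at h2
    have h3 : w m (m + b) = w m (0 + b) := by rw [w_add, zero_add]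
    rw [h3] at h2
    have h4 := add_right_cancel h2
    rw [h4]
    refine Finset.sum_congr rfl fun a _ => ?_
    congr 1
    omega

private theorem split_sum {p : ℕ} (hp : 0 < p) (n : ℕ) (F : ℕ → ℝ) (hF : ∀ a, ¬ p ∣ a → F a = 1) :
    ∑ a ∈ Finset.range (p * n), F a = (p : ℝ) * n - n + ∑ a ∈ Finset.range n, F (p * a) := by
  have h1 : ∑ a ∈ Finset.range (p * n), (F a - 1) = ∑ a ∈ Finset.range n, (F (p * a) - 1) := by
    have h2 : ∑ a ∈ Finset.range n, (F (p * a) - 1) =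
        ∑ a ∈ (Finset.range n).image (fun a => p * a), (F a - 1) := by
      rw [Finset.sum_image]
      intro a _ b _ h
      exact Nat.eq_of_mul_eq_mul_left hp h
    rw [h2]
    symm
    refine Finset.sum_subset ?_ ?_
    · intro x hx
      obtain ⟨a, ha, rfl⟩ := Finset.mem_image.1 hx
      rw [Finset.mem_range] at ha ⊢
      exact Nat.mul_lt_mul_of_pos_left ha hp
    · intro x hx hnx
      rw [hF x, sub_self]
      rintro ⟨a, rfl⟩
      apply hnx
      rw [Finset.mem_image]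
      refine ⟨a, ?_, rfl⟩
      rw [Finset.mem_range] at hx ⊢
      exact lt_of_mul_lt_mul_left hx (Nat.zero_le p)
  rw [Finset.sum_sub_distrib, Finset.sum_sub_distrib] at h1
  simp only [Finset.sum_const, Finset.card_range, nsmul_eq_mul, mul_one] at h1
  push_cast at h1
  linarith

private theorem copr {p x : ℕ} (hp : p.Prime) (k : ℕ) (h : ¬ p ∣ x) : Nat.Coprime x (p ^ (k + 1)) :=
  Nat.Coprime.pow_right _ ((Nat.coprime_comm.1 ((hp.coprime_iff_not_dvd).2 h)))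

private noncomputable def G (p k : ℕ) : ℝ :=
  ∑ a ∈ Finset.range (p ^ k), ((Nat.gcd a (p ^ k) : ℕ) : ℝ) ^ (2 / 3 : ℝ)

private theorem G_zero (p : ℕ) : G p 0 = 1 := by
  simp [G]

private theorem G_succ {p : ℕ} (hp : p.Prime) (k : ℕ) :
    G p (k + 1) = (p : ℝ) ^ (k + 1) - (p : ℝ) ^ k + (p : ℝ) ^ (2 / 3 : ℝ) * G p k := by
  unfold G
  have h := split_sum hp.pos (p ^ k) (fun a => ((Nat.gcd a (p ^ (k + 1)) : ℕ) : ℝ) ^ (2 / 3 : ℝ))
    (fun a ha => by
      have h1 := copr hp k ha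
      rw [Nat.Coprime] at h1
      simp only [h1]
      simp)
  rw [← pow_succ' p k] at h
  rw [h, Finset.mul_sum]
  congr 1
  · push_cast
    ring
  · refine Finset.sum_congr rfl fun a _ => ?_
    rw [pow_succ' p k, Nat.gcd_mul_left, Nat.cast_mul,
      Real.mul_rpow (Nat.cast_nonneg _) (Nat.cast_nonneg _)]

private theorem U_eq {p : ℕ} (hp : p.Prime) (k : ℕ) :
    ∑ a ∈ Finset.range (p ^ (k + 1)), w (p ^ (k + 1)) a =
      (p : ℝ) ^ (k + 1) - (p : ℝ) ^ k + G p k := by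
  have h := split_sum hp.pos (p ^ k) (fun a => w (p ^ (k + 1)) a)
    (fun a ha => w_one (copr hp k ha))
  rw [← pow_succ' p k] at h
  rw [h, G]
  congr 1
  · push_cast
    ring
  · refine Finset.sum_congr rfl fun a _ => ?_
    unfold w
    rw [pow_succ' p k, Nat.gcd_mul_left]
    obtain ⟨e, _, he⟩ := (Nat.dvd_prime_pow hp).1 (Nat.gcd_dvd_right a (p ^ k))
    rw [he, ← pow_succ', qq_prime_pow hp, Nat.add_sub_cancel]

private theorem count_eq {p : ℕ} (hp : p.Prime) (k : ℕ) :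
    ∑ a ∈ Finset.range (p ^ (k + 1)), (if p ∣ a then (0 : ℝ) else 1) =
      (p : ℝ) ^ (k + 1) - (p : ℝ) ^ k := by
  have h := split_sum hp.pos (p ^ k) (fun a => if p ∣ a then (0 : ℝ) else 1)
    (fun a ha => by simp only [if_neg ha])
  rw [← pow_succ' p k] at h
  have h2 : ∀ a : ℕ, (if p ∣ p * a then (0 : ℝ) else 1) = 0 := fun a => if_pos (Dvd.intro a rfl)
  rw [h]
  simp only [h2, Finset.sum_const_zero, add_zero]
  push_cast
  ring

private theorem hh_eq {p : ℕ} (hp : p.Prime) (k a b : ℕ) :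
    hh (p ^ (k + 1)) a b = if p ∣ b then (if p ∣ a then (0 : ℝ) else 1) * w (p ^ (k + 1)) b else
      w (p ^ (k + 1)) a + w (p ^ (k + 1)) (a + b) - 1 := by
  have hiff : Nat.gcd (Nat.gcd a b) (p ^ (k + 1)) = 1 ↔ ¬ (p ∣ a ∧ p ∣ b) := by
    rw [← Nat.dvd_gcd_iff]
    constructor
    · intro h hd
      have h1 : p ∣ Nat.gcd (Nat.gcd a b) (p ^ (k + 1)) :=
        Nat.dvd_gcd hd (dvd_pow_self p (Nat.succ_ne_zero k))
      rw [h] at h1
      exact hp.one_lt.ne' (Nat.dvd_one.1 h1)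
    · intro h
      exact copr hp k h
  unfold hh
  by_cases hb : p ∣ b
  · rw [if_pos hb]
    by_cases ha : p ∣ a
    · rw [if_neg (fun h => hiff.1 h ⟨ha, hb⟩), if_pos ha, zero_mul]
    · rw [if_pos (hiff.2 fun h => ha h.1), if_neg ha, one_mul]
      have h1 := copr hp k ha
      have h2 : Nat.Coprime (a + b) (p ^ (k + 1)) :=
        copr hp k fun h => ha ((Nat.dvd_add_left hb).1 h)
      unfold w
      rw [Nat.Coprime.gcd_mul_right_cancel _ h2, Nat.Coprime.gcd_mul_left_cancel _ h1]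
  · rw [if_neg hb, if_pos (hiff.2 fun h => hb h.2)]
    have h1 := copr hp k hb
    by_cases ha : p ∣ a
    · have h2 : Nat.Coprime (a + b) (p ^ (k + 1)) :=
        copr hp k fun h => hb ((Nat.dvd_add_right ha).1 h)
      rw [w_one h2, add_sub_cancel_right]
      unfold w
      rw [Nat.Coprime.gcd_mul_right_cancel _ h2, Nat.Coprime.gcd_mul_right_cancel _ h1]
    · have h2 := copr hp k ha
      rw [w_one h2, add_sub_cancel_left]
      unfold w
      rw [Nat.Coprime.gcd_mul_left_cancel _ (Nat.Coprime.mul_left h2 h1)]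

private theorem sum_eq {p : ℕ} (hp : p.Prime) (k : ℕ) :
    ∑ a ∈ Finset.range (p ^ (k + 1)), ∑ b ∈ Finset.range (p ^ (k + 1)), hh (p ^ (k + 1)) a b =
      ((p : ℝ) ^ (k + 1) - (p : ℝ) ^ k) *
        (3 * ((p : ℝ) ^ (k + 1) - (p : ℝ) ^ k + G p k) - 2 * (p : ℝ) ^ (k + 1) + (p : ℝ) ^ k) := by
  rw [Finset.sum_comm]
  have hU := U_eq hp k
  have hC := count_eq hp k
  have h1 : ∀ b ∈ Finset.range (p ^ (k + 1)),
      ∑ a ∈ Finset.range (p ^ (k + 1)), hh (p ^ (k + 1)) a b =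
        ((p : ℝ) ^ (k + 1) - (p : ℝ) ^ k) * (w (p ^ (k + 1)) b - (if p ∣ b then (0 : ℝ) else 1)) +
          (if p ∣ b then (0 : ℝ) else 1) *
            (2 * ((p : ℝ) ^ (k + 1) - (p : ℝ) ^ k + G p k) - (p : ℝ) ^ (k + 1)) := by
    intro b _
    by_cases hb : p ∣ b
    · simp only [hh_eq hp, if_pos hb]
      rw [← Finset.sum_mul, hC]
      ring
    · simp only [hh_eq hp, if_neg hb]
      rw [Finset.sum_sub_distrib, Finset.sum_add_distrib, sum_shift, hU, w_one (copr hp k hb)]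
      simp only [Finset.sum_const, Finset.card_range, nsmul_eq_mul, mul_one]
      push_cast
      ring
  rw [Finset.sum_congr rfl h1, Finset.sum_add_distrib, ← Finset.mul_sum, ← Finset.sum_mul,
    Finset.sum_sub_distrib, hU, hC]
  ring

private theorem G_closed {p : ℕ} (hp : p.Prime) (k : ℕ) :
    G p k / (p : ℝ) ^ (k + 1) = (1 - 1 / (p : ℝ)) *
      (∑ e ∈ Finset.range k, ((p : ℝ)⁻¹) ^ (e + 1) * ((p : ℝ) ^ (2 / 3 : ℝ)) ^ e) +
      ((p : ℝ)⁻¹) ^ (k + 1) * ((p : ℝ) ^ (2 / 3 : ℝ)) ^ k := by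
  have hp0 : (p : ℝ) ≠ 0 := by exact_mod_cast hp.ne_zero
  induction k with
  | zero => simp [G_zero]
  | succ k ih =>
    rw [G_succ hp]
    have h1 : ((p : ℝ) ^ (k + 1) - (p : ℝ) ^ k + (p : ℝ) ^ (2 / 3 : ℝ) * G p k) /
        (p : ℝ) ^ (k + 1 + 1) = (1 - 1 / (p : ℝ)) * (p : ℝ)⁻¹ +
          (p : ℝ)⁻¹ * (p : ℝ) ^ (2 / 3 : ℝ) * (G p k / (p : ℝ) ^ (k + 1)) := by
      field_simp
      ring
    rw [h1, ih, Finset.sum_range_succ']
    simp only [pow_zero, mul_one, zero_add, pow_one]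
    have h2 : ∑ e ∈ Finset.range k, ((p : ℝ)⁻¹) ^ (e + 1 + 1) * ((p : ℝ) ^ (2 / 3 : ℝ)) ^ (e + 1) =
        (p : ℝ)⁻¹ * (p : ℝ) ^ (2 / 3 : ℝ) *
          ∑ e ∈ Finset.range k, ((p : ℝ)⁻¹) ^ (e + 1) * ((p : ℝ) ^ (2 / 3 : ℝ)) ^ e := by
      rw [Finset.mul_sum]
      refine Finset.sum_congr rfl fun e _ => ?_
      ring
    rw [h2]
    ring

theorem Phi_prime_pow {p : ℕ} (hp : p.Prime) (k : ℕ) : Phi (p ^ (k + 1)) = EpK p k := by
  have hp0 : (p : ℝ) ≠ 0 := by exact_mod_cast hp.ne_zero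
  have hpp : (0 : ℝ) ≤ p := Nat.cast_nonneg p
  have h1 : ∀ e : ℕ, (p : ℝ) ^ (-((e : ℝ) + 1)) = ((p : ℝ)⁻¹) ^ (e + 1) := by
    intro e
    rw [Real.rpow_neg hpp, inv_pow, ← Real.rpow_natCast (p : ℝ) (e + 1)]
    push_cast
    rfl
  have h2 : ∀ e : ℕ, (p : ℝ) ^ (2 * (e : ℝ) / 3) = ((p : ℝ) ^ (2 / 3 : ℝ)) ^ e := by
    intro e
    rw [← Real.rpow_mul_natCast hpp]
    congr 1
    ring
  unfold Phi EpK
  simp only [h1, h2]
  rw [sum_eq hp]
  have h3 := G_closed hp k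
  have h4 : ((p : ℝ) ^ (k + 1) - (p : ℝ) ^ k) *
        (3 * ((p : ℝ) ^ (k + 1) - (p : ℝ) ^ k + G p k) - 2 * (p : ℝ) ^ (k + 1) + (p : ℝ) ^ k) /
      ((p ^ (k + 1) : ℕ) : ℝ) ^ 2 = (1 - 1 / (p : ℝ)) * (1 - 2 / (p : ℝ)) +
        3 * (1 - 1 / (p : ℝ)) * (G p k / (p : ℝ) ^ (k + 1)) := by
    push_cast
    field_simp
    ring
  rw [h4, h3]
  ring

end AbcAsyQ
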