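import Pool.Agent.Work.MP_a793bb_nt.AsyQ.Alg
import Pool.Agent.Work.MP_a793bb_nt.AsyQ.Cop

/-!
# SK: the approximating set  (size M)

PROOF. `SolK_subset`: with `n = a b (a + b)` and `g = gcd(n, QQ k)`, `qq g ≤ qq n` (`qq_dvd`), so
`n ≤ R qq n` and `n = rd n * qq n`, `qq n > 0`, give `rd n ≤ R`.
`SolK_finite`: it is contained in `DD (R * B)` with `B = max` of `qq d` over the divisors `d` of
`Q = QQ k` (for `R < 0` it is empty).
`SolK_tendsto`: for a pair `(a, b)` the number `q(a, b) = qq (gcd(a b (a + b), Q))` only depends on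
the classes of `a`, `b` modulo `Q` (`Nat.ModEq.gcd_eq`). Split `SolK k R` according to
`(α, β) = (a mod Q, b mod Q) ∈ range Q × range Q`: the part of `(α, β)` is the set of coprime pairs
of `DD (R q(α, β))` in the class. It is empty if `gcd(α, β, Q) ≠ 1` (then `a`, `b` are not coprime),
and otherwise `cop_tendsto` with `T = R q(α, β) → ∞` gives the limit
`(R q) ^ (2/3) / R ^ (2/3) * AA / Q² * cst Q = q(α, β) ^ (2/3) AA / Q² cst Q`. Sum over the classes.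
-/

set_option autoImplicit false

open Filter Topology

namespace AbcAsyQ

theorem SolK_subset (k : ℕ) (R : ℝ) (hR : 0 ≤ R) : SolK k R ⊆ Sol R := by
  rintro ⟨a, b⟩ ⟨h1, h2, h3, h4⟩
  have h1' : 0 < a := h1
  have h2' : 0 < b := h2
  refine ⟨h1, h2, h3, ?_⟩
  have hn : a * b * (a + b) ≠ 0 := by positivity
  have e4 := rd_mul_qq hn
  have h4' : ((a * b * (a + b) : ℕ) : ℝ) ≤ R * (qq (Nat.gcd (a * b * (a + b)) (QQ k)) : ℝ) := h4
  have h5 : qq (Nat.gcd (a * b * (a + b)) (QQ k)) ≤ qq (a * b * (a + b)) :=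
    Nat.le_of_dvd (qq_pos _) (qq_dvd hn (Nat.gcd_dvd_left _ _))
  have h6 : ((a * b * (a + b) : ℕ) : ℝ) =
      (rd (a * b * (a + b)) : ℝ) * (qq (a * b * (a + b)) : ℝ) := by
    rw [← Nat.cast_mul, e4]
  have h7 : (qq (Nat.gcd (a * b * (a + b)) (QQ k)) : ℝ) ≤ (qq (a * b * (a + b)) : ℝ) :=
    Nat.cast_le.2 h5
  have h8 : (0 : ℝ) < (qq (a * b * (a + b)) : ℝ) := Nat.cast_pos.2 (qq_pos _)
  have h9 : (rd (a * b * (a + b)) : ℝ) * (qq (a * b * (a + b)) : ℝ) ≤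
      R * (qq (a * b * (a + b)) : ℝ) := by
    rw [← h6]
    exact h4'.trans (mul_le_mul_of_nonneg_left h7 hR)
  exact le_of_mul_le_mul_right h9 h8

theorem SolK_finite (k : ℕ) (R : ℝ) : (SolK k R).Finite := by
  set B : ℕ := ⌊|R| * (QQ k : ℝ)⌋₊ with hB
  refine ((Finset.range (B + 1) ×ˢ Finset.range (B + 1)).finite_toSet).subset ?_
  rintro ⟨a, b⟩ ⟨h1, h2, h3, h4⟩
  have h1' : 0 < a := h1
  have h2' : 0 < b := h2
  have h4' : ((a * b * (a + b) : ℕ) : ℝ) ≤ R * (qq (Nat.gcd (a * b * (a + b)) (QQ k)) : ℝ) := h4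
  have hg : 0 < Nat.gcd (a * b * (a + b)) (QQ k) := Nat.gcd_pos_of_pos_right _ (QQ_pos k)
  have h5 : qq (Nat.gcd (a * b * (a + b)) (QQ k)) ≤ QQ k :=
    (qq_le hg.ne').trans (Nat.le_of_dvd (QQ_pos k) (Nat.gcd_dvd_right _ _))
  have h6 : ((a * b * (a + b) : ℕ) : ℝ) ≤ |R| * (QQ k : ℝ) := by
    refine h4'.trans (mul_le_mul (le_abs_self R) (Nat.cast_le.2 h5) (Nat.cast_nonneg _)
      (abs_nonneg R))
  have h7 : a * b * (a + b) ≤ B := Nat.le_floor h6
  have h8 : a + b ≤ a * b * (a + b) := Nat.le_mul_of_pos_left _ (by positivity)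
  simp only [Finset.coe_product, Set.mem_prod, Finset.mem_coe, Finset.mem_range]
  omega

theorem SolK_tendsto (k : ℕ) :
    Tendsto (fun R : ℝ => ((SolK k R).ncard : ℝ) / R ^ (2 / 3 : ℝ)) atTop (𝓝 (kap k)) := by
  classical
  set m := QQ k with hmdef
  have hm : 0 < m := QQ_pos k
  let q : ℕ × ℕ → ℕ := fun x => qq (Nat.gcd (x.1 * x.2 * (x.1 + x.2)) m)
  have hq : ∀ x, (0 : ℝ) < (q x : ℝ) := fun x => Nat.cast_pos.2 (qq_pos _)
  let P : ℕ × ℕ → ℝ → Set (ℕ × ℕ) := fun x T => {p ∈ DD T | Nat.Coprime p.1 p.2 ∧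
    p.1 ≡ x.1 [MOD m] ∧ p.2 ≡ x.2 [MOD m]}
  have hqc : ∀ p x : ℕ × ℕ, p.1 ≡ x.1 [MOD m] → p.2 ≡ x.2 [MOD m] →
      qq (Nat.gcd (p.1 * p.2 * (p.1 + p.2)) m) = q x := by
    intro p x h1 h2
    have h3 : p.1 * p.2 * (p.1 + p.2) ≡ x.1 * x.2 * (x.1 + x.2) [MOD m] :=
      (h1.mul h2).mul (h1.add h2)
    exact congrArg qq h3.gcd_eq
  have hcard : ∀ R : ℝ, ((SolK k R).ncard : ℝ) =
      ∑ x ∈ Finset.range m ×ˢ Finset.range m, ((P x (R * q x)).ncard : ℝ) := by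
    intro R
    have hfin := SolK_finite k R
    rw [Set.ncard_eq_toFinset_card _ hfin]
    rw [Finset.card_eq_sum_card_fiberwise (f := fun p : ℕ × ℕ => (p.1 % m, p.2 % m))
      (t := Finset.range m ×ˢ Finset.range m) (fun p _ => by
        simp only [Finset.coe_product, Set.mem_prod, Finset.mem_coe, Finset.mem_range]
        exact ⟨Nat.mod_lt _ hm, Nat.mod_lt _ hm⟩)]
    rw [Nat.cast_sum]
    refine Finset.sum_congr rfl fun x hx => ?_
    obtain ⟨hx1, hx2⟩ := Finset.mem_product.1 hx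
    rw [Finset.mem_range] at hx1 hx2
    rw [← Set.ncard_coe_finset]
    congr 2
    ext ⟨a, b⟩
    simp only [Finset.coe_filter, Set.Finite.mem_toFinset, Set.mem_setOf_eq, Prod.ext_iff]
    have e1 : a % m = x.1 ↔ a ≡ x.1 [MOD m] := by
      unfold Nat.ModEq
      rw [Nat.mod_eq_of_lt hx1]
    have e2 : b % m = x.2 ↔ b ≡ x.2 [MOD m] := by
      unfold Nat.ModEq
      rw [Nat.mod_eq_of_lt hx2]
    constructor
    · rintro ⟨⟨h1, h2, h3, h4⟩, h5, h6⟩
      have h5' := e1.1 h5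
      have h6' := e2.1 h6
      refine ⟨⟨h1, h2, ?_⟩, h3, h5', h6'⟩
      have h7 := hqc (a, b) x h5' h6'
      rw [← h7]
      exact h4
    · rintro ⟨⟨h1, h2, h4⟩, h3, h5, h6⟩
      refine ⟨⟨h1, h2, h3, ?_⟩, e1.2 h5, e2.2 h6⟩
      have h7 := hqc (a, b) x h5 h6
      rw [← h7] at h4
      exact h4
  have hlim : ∀ x ∈ Finset.range m ×ˢ Finset.range m,
      Tendsto (fun R : ℝ => ((P x (R * q x)).ncard : ℝ) / R ^ (2 / 3 : ℝ)) atTop
        (𝓝 (AA / (m : ℝ) ^ 2 * cst m * hh m x.1 x.2)) := by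
    intro x _
    by_cases hg : Nat.gcd (Nat.gcd x.1 x.2) m = 1
    · have h1 := cop_tendsto m x.1 x.2 hm hg
      have h2 : Tendsto (fun R : ℝ => R * (q x : ℝ)) atTop atTop :=
        tendsto_id.atTop_mul_const (hq x)
      have h3 := (h1.comp h2).mul_const ((q x : ℝ) ^ (2 / 3 : ℝ))
      have e : hh m x.1 x.2 = (q x : ℝ) ^ (2 / 3 : ℝ) := by
        unfold hh
        rw [if_pos hg]
      rw [e]
      refine h3.congr' ?_
      filter_upwards [eventually_gt_atTop 0] with R hR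
      change ((P x (R * q x)).ncard : ℝ) / (R * (q x : ℝ)) ^ (2 / 3 : ℝ) *
        (q x : ℝ) ^ (2 / 3 : ℝ) = _
      rw [Real.mul_rpow hR.le (hq x).le]
      have h4 : (q x : ℝ) ^ (2 / 3 : ℝ) ≠ 0 := (Real.rpow_pos_of_pos (hq x) _).ne'
      have h5 : R ^ (2 / 3 : ℝ) ≠ 0 := (Real.rpow_pos_of_pos hR _).ne'
      field_simp
    · have e : hh m x.1 x.2 = 0 := by
        unfold hh
        rw [if_neg hg]
      rw [e, mul_zero]
      have h1 : ∀ T, P x T = ∅ := by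
        intro T
        rw [Set.eq_empty_iff_forall_notMem]
        rintro ⟨a, b⟩ ⟨_, h3, h4, h5⟩
        refine hg ?_
        have h3' : Nat.gcd a b = 1 := h3
        have h4' : a ≡ x.1 [MOD m] := h4
        have h5' : b ≡ x.2 [MOD m] := h5
        set d := Nat.gcd (Nat.gcd x.1 x.2) m with hd
        have d1 : d ∣ x.1 := (Nat.gcd_dvd_left _ _).trans (Nat.gcd_dvd_left _ _)
        have d2 : d ∣ x.2 := (Nat.gcd_dvd_left _ _).trans (Nat.gcd_dvd_right _ _)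
        have d3 : d ∣ m := Nat.gcd_dvd_right _ _
        have d4 : d ∣ a := (h4'.dvd_iff d3).2 d1
        have d5 : d ∣ b := (h5'.dvd_iff d3).2 d2
        have d6 : d ∣ Nat.gcd a b := Nat.dvd_gcd d4 d5
        rw [h3'] at d6
        exact Nat.dvd_one.1 d6
      simp only [h1, Set.ncard_empty, Nat.cast_zero, zero_div]
      exact tendsto_const_nhds
  have hsum := tendsto_finset_sum _ hlim
  have e1 : kap k = ∑ x ∈ Finset.range m ×ˢ Finset.range m,
      AA / (m : ℝ) ^ 2 * cst m * hh m x.1 x.2 := by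
    rw [← Finset.mul_sum, Finset.sum_product]
    unfold kap Phi
    rw [← hmdef]
    ring
  rw [e1]
  refine hsum.congr fun R => ?_
  rw [hcard, Finset.sum_div]

end AbcAsyQ
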